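import Mathlib

set_option autoImplicit false

namespace Pool.Agent.H568Z.Conj

open Filter Topology
open scoped Pointwise

section Ball

variable {G : Type} [Group G]

def ball (S : Finset G) (n : ℕ) : Set G :=
  {g : G | ∃ l : List G, l.length ≤ n ∧ (∀ x ∈ l, x ∈ S ∨ x⁻¹ ∈ S) ∧ l.prod = g}

lemma one_mem_ball (S : Finset G) (n : ℕ) : (1 : G) ∈ ball S n := ⟨[], by simp, by simp, rfl⟩

lemma mul_mem_ball {S : Finset G} {n : ℕ} {x g : G} (hx : x ∈ S ∨ x⁻¹ ∈ S) (hg : g ∈ ball S n) :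
    x * g ∈ ball S (n + 1) := by
  obtain ⟨l, h1, h2, rfl⟩ := hg
  refine ⟨x :: l, by simpa using h1, ?_, by simp⟩
  intro y hy
  rcases List.mem_cons.1 hy with rfl | hy
  exacts [hx, h2 y hy]

lemma ball_mono {S : Finset G} {n m : ℕ} (h : n ≤ m) : ball S n ⊆ ball S m := by
  rintro g ⟨l, h1, h2, h3⟩
  exact ⟨l, h1.trans h, h2, h3⟩

lemma ball_induction {S : Finset G} {P : ℕ → G → Prop} (h0 : ∀ n, P n 1)
    (hs : ∀ n x g, (x ∈ S ∨ x⁻¹ ∈ S) → P n g → P (n + 1) (x * g)) {n : ℕ} {g : G}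
    (hg : g ∈ ball S n) : P n g := by
  obtain ⟨l, h1, h2, rfl⟩ := hg
  induction l generalizing n with
  | nil => exact h0 n
  | cons x l ih =>
    obtain ⟨m, rfl⟩ : ∃ m, n = m + 1 := ⟨n - 1, by simp at h1; omega⟩
    rw [List.prod_cons]
    exact hs m x _ (h2 x (by simp)) (ih (by simpa using h1) fun y hy => h2 y (by simp [hy]))

lemma ball_sub_pow [DecidableEq G] (S : Finset G) (n : ℕ) :
    ball S n ⊆ ((insert 1 (S ∪ S⁻¹)) ^ n : Finset G) := by
  intro g hg
  refine ball_induction (P := fun n g => g ∈ ((insert 1 (S ∪ S⁻¹)) ^ n : Finset G))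
    (fun n => Finset.one_mem_pow (Finset.mem_insert_self _ _)) (fun n x g hx hg => ?_) hg
  rw [pow_succ']
  refine Finset.mul_mem_mul (Finset.mem_insert_of_mem ?_) hg
  rcases hx with hx | hx
  · exact Finset.mem_union_left _ hx
  · exact Finset.mem_union_right _ (Finset.mem_inv'.2 hx)

lemma finite_ball (S : Finset G) (n : ℕ) : (ball S n).Finite := by
  classical
  exact (Finset.finite_toSet _).subset (ball_sub_pow S n)

lemma ncard_ball_le (S : Finset G) (n : ℕ) : (ball S n).ncard ≤ (2 * S.card + 1) ^ n := by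
  classical
  refine (Set.ncard_le_ncard (ball_sub_pow S n) (Finset.finite_toSet _)).trans ?_
  rw [Set.ncard_coe_finset]
  refine Finset.card_pow_le.trans (Nat.pow_le_pow_left ?_ _)
  refine (Finset.card_insert_le _ _).trans ?_
  have := Finset.card_union_le S S⁻¹
  rw [Finset.card_inv] at this
  omega

lemma mem_of_mem_ball {H : Subgroup G} {S : Finset G} (hS : ∀ x ∈ S, x ∈ H) {n : ℕ} {g : G}
    (hg : g ∈ ball S n) : g ∈ H := by
  refine ball_induction (P := fun _ g => g ∈ H) (fun _ => H.one_mem) (fun n x g hx hg => ?_) hg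
  refine H.mul_mem ?_ hg
  rcases hx with hx | hx
  · exact hS x hx
  · exact inv_mem_iff.1 (hS _ hx)

open Classical in
lemma mem_ball_subtype {H : Subgroup G} {S : Finset G} (hS : ∀ x ∈ S, x ∈ H) (n : ℕ) (g : H) :
    g ∈ ball (S.subtype (· ∈ H)) n ↔ (g : G) ∈ ball S n := by
  constructor
  · intro hg
    refine ball_induction (P := fun n (g : H) => (g : G) ∈ ball S n) (fun n => one_mem_ball S n)
      (fun n x g hx hg => mul_mem_ball ?_ hg) hg
    simpa [Finset.mem_subtype] using hx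
  · intro hg
    have := ball_induction (P := fun n g => ∃ h : g ∈ H, (⟨g, h⟩ : H) ∈ ball (S.subtype (· ∈ H)) n)
      (fun n => ⟨H.one_mem, one_mem_ball _ n⟩) (fun n x g hx ⟨hg, hg'⟩ => by
        have hxH : x ∈ H := by
          rcases hx with hx | hx
          · exact hS x hx
          · exact inv_mem_iff.1 (hS _ hx)
        exact ⟨H.mul_mem hxH hg, mul_mem_ball (x := ⟨x, hxH⟩)
          (by simpa [Finset.mem_subtype] using hx) hg'⟩) hg
    exact this.2

open Classical in
lemma ncard_ball_subtype {H : Subgroup G} {S : Finset G} (hS : ∀ x ∈ S, x ∈ H) (n : ℕ) :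
    (ball (G := H) (S.subtype (· ∈ H)) n).ncard = (ball S n).ncard := by
  rw [← Set.ncard_image_of_injective _ (Subtype.val_injective (p := (· ∈ H)))]
  congr 1
  ext g
  constructor
  · rintro ⟨g, hg, rfl⟩
    exact (mem_ball_subtype hS n g).1 hg
  · intro hg
    exact ⟨⟨g, mem_of_mem_ball hS hg⟩, (mem_ball_subtype hS n _).2 hg, rfl⟩

open Classical in
lemma closure_subtype {H : Subgroup G} {S : Finset G} (h : Subgroup.closure (S : Set G) = H) :
    Subgroup.closure ((S.subtype (· ∈ H) : Finset H) : Set H) = ⊤ := by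
  subst h
  convert Subgroup.closure_closure_coe_preimage (k := (S : Set G))
  ext g
  simp [Finset.mem_subtype]

end Ball

lemma tendsto_root (q : ℝ) (hq : 0 < q) (c : ℕ → ℕ)
    (h1 : ∀ n, 1 ≤ n → q ^ n ≤ (n + 1) * (c n : ℝ)) (h2 : ∀ n, (c n : ℝ) ≤ (n + 1) ^ 3 * q ^ n) :
    Tendsto (fun n : ℕ => (c n : ℝ) ^ ((1 : ℝ) / (n : ℝ))) atTop (𝓝 q) := by
  have hb : Tendsto (fun n : ℕ => ((n : ℝ) + 1) ^ ((1 : ℝ) / (n : ℝ))) atTop (𝓝 1) := by
    have := (tendsto_rpow_div_mul_add 1 1 (-1) (by norm_num)).comp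
      (tendsto_atTop_add_const_right _ 1 tendsto_natCast_atTop_atTop)
    refine this.congr fun n => ?_
    simp
  have hl : Tendsto (fun n : ℕ => q / ((n : ℝ) + 1) ^ ((1 : ℝ) / (n : ℝ))) atTop (𝓝 q) := by
    have := (tendsto_const_nhds (x := q)).div hb one_ne_zero
    rw [div_one] at this
    exact this
  have hu : Tendsto (fun n : ℕ => (((n : ℝ) + 1) ^ ((1 : ℝ) / (n : ℝ))) ^ 3 * q) atTop (𝓝 q) := by
    simpa using (hb.pow 3).mul_const q
  refine tendsto_of_tendsto_of_tendsto_of_le_of_le' hl hu ?_ ?_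
  · filter_upwards [eventually_ge_atTop 1] with n hn
    have hn0 : n ≠ 0 := by omega
    rw [div_le_iff₀ (by positivity), ← Real.mul_rpow (by positivity) (by positivity), mul_comm]
    have := Real.rpow_le_rpow (by positivity) (h1 n hn) (show 0 ≤ (1 : ℝ) / n by positivity)
    rwa [one_div, Real.pow_rpow_inv_natCast hq.le hn0, ← one_div] at this
  · filter_upwards [eventually_ge_atTop 1] with n hn
    have hn0 : n ≠ 0 := by omega
    have := Real.rpow_le_rpow (by positivity) (h2 n) (show 0 ≤ (1 : ℝ) / n by positivity)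
    rwa [Real.mul_rpow (by positivity) (by positivity), ← Real.rpow_natCast ((n : ℝ) + 1) 3,
      ← Real.rpow_mul (by positivity), mul_comm (((3 : ℕ) : ℝ)), Real.rpow_mul (by positivity),
      Real.rpow_natCast, one_div, Real.pow_rpow_inv_natCast hq.le hn0, ← one_div] at this

lemma root_le (B : ℝ) (hB : 0 ≤ B) (c : ℝ) (hc : 0 ≤ c) (n : ℕ) (hn : n ≠ 0) (h : c ≤ B ^ n) :
    c ^ ((1 : ℝ) / (n : ℝ)) ≤ B := by
  have := Real.rpow_le_rpow hc h (show 0 ≤ (1 : ℝ) / n by positivity)
  rwa [one_div, Real.pow_rpow_inv_natCast hB hn, ← one_div] at this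

lemma le_root (B : ℝ) (hB : 0 ≤ B) (c : ℝ) (n : ℕ) (hn : n ≠ 0) (h : B ^ n ≤ c) :
    B ≤ c ^ ((1 : ℝ) / (n : ℝ)) := by
  have := Real.rpow_le_rpow (by positivity) h (show 0 ≤ (1 : ℝ) / n by positivity)
  rwa [one_div, Real.pow_rpow_inv_natCast hB hn, ← one_div] at this

theorem exists_of_counts {Ω : Type} [Group Ω] (S T : Finset Ω) (H : Subgroup Ω)
    (hS : Subgroup.closure (S : Set Ω) = H) (hT : Subgroup.closure (T : Set Ω) = H)
    (uS : ∀ n, (ball S n).ncard ≤ (n + 1) ^ 3 * 7 ^ n)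
    (lS : ∀ n, 1 ≤ n → ∃ p : (Fin n → ZMod 7) → Ω, (∀ i, p i ∈ ball S n) ∧
      ∀ i, {j | ∃ c ∈ H, c * p i * c⁻¹ = p j}.ncard ≤ n)
    (uT : ∀ n, ∃ R : Set Ω, R.Finite ∧ R.ncard ≤ 2 * 19 ^ n ∧
      ∀ g ∈ ball T n, ∃ c ∈ H, c * g * c⁻¹ ∈ R)
    (lT : ∀ n, 41 ^ n ≤ (ball T n).ncard) :
    ∃ (G : Type) (_ : Group G) (S T : Finset G), Subgroup.closure (S : Set G) = ⊤ ∧
      Subgroup.closure (T : Set G) = ⊤ ∧
      limsup (fun n : ℕ => ((ConjClasses.mk '' ball S n).ncard : ℝ) ^ ((1 : ℝ) / (n : ℝ))) atTop =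
        limsup (fun n : ℕ => ((ball S n).ncard : ℝ) ^ ((1 : ℝ) / (n : ℝ))) atTop ∧
      limsup (fun n : ℕ => ((ConjClasses.mk '' ball T n).ncard : ℝ) ^ ((1 : ℝ) / (n : ℝ))) atTop <
        limsup (fun n : ℕ => ((ball T n).ncard : ℝ) ^ ((1 : ℝ) / (n : ℝ))) atTop := by
  classical
  have hSH : ∀ x ∈ S, x ∈ H := fun x hx => hS ▸ Subgroup.subset_closure hx
  have hTH : ∀ x ∈ T, x ∈ H := fun x hx => hT ▸ Subgroup.subset_closure hx
  refine ⟨H, inferInstance, S.subtype (· ∈ H), T.subtype (· ∈ H), closure_subtype hS,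
    closure_subtype hT, ?_, ?_⟩
  · have hle : ∀ n, (ConjClasses.mk '' ball (G := H) (S.subtype (· ∈ H)) n).ncard ≤
        (ball (G := H) (S.subtype (· ∈ H)) n).ncard := fun n =>
      Set.ncard_image_le (finite_ball _ _)
    have hlow : ∀ n, 1 ≤ n →
        7 ^ n ≤ (n + 1) * (ConjClasses.mk '' ball (G := H) (S.subtype (· ∈ H)) n).ncard := by
      intro n hn
      obtain ⟨p, hp, hfib⟩ := lS n hn
      let f : (Fin n → ZMod 7) → ConjClasses H := fun i =>
        ConjClasses.mk ⟨p i, mem_of_mem_ball hSH (hp i)⟩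
      have h1 := Finset.card_le_mul_card_image (f := f) Finset.univ n (by
        intro a ha
        obtain ⟨i, _, rfl⟩ := Finset.mem_image.1 ha
        refine le_trans ?_ (hfib i)
        rw [← Set.ncard_coe_finset]
        refine Set.ncard_le_ncard (fun j hj => ?_) (Set.toFinite _)
        have h2 : f j = f i := (Finset.mem_filter.1 hj).2
        obtain ⟨c, hc⟩ := isConj_iff.1 (ConjClasses.mk_eq_mk_iff_isConj.1 h2.symm)
        exact ⟨c, c.2, congrArg Subtype.val hc⟩)
      have h3 : (Finset.univ.image f).card ≤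
          (ConjClasses.mk '' ball (G := H) (S.subtype (· ∈ H)) n).ncard := by
        rw [← Set.ncard_coe_finset]
        refine Set.ncard_le_ncard (fun a ha => ?_) ((finite_ball _ _).image _)
        obtain ⟨i, _, rfl⟩ := Finset.mem_image.1 ha
        exact ⟨_, (mem_ball_subtype hSH n _).2 (hp i), rfl⟩
      simp only [Finset.card_univ, Fintype.card_pi, ZMod.card, Finset.prod_const,
        Fintype.card_fin] at h1
      exact h1.trans (Nat.mul_le_mul (by omega) h3)
    have hup : ∀ n, (ball (G := H) (S.subtype (· ∈ H)) n).ncard ≤ (n + 1) ^ 3 * 7 ^ n := fun n => by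
      rw [ncard_ball_subtype hSH]; exact uS n
    rw [(tendsto_root 7 (by norm_num) _ (fun n hn => by exact_mod_cast hlow n hn)
      (fun n => by exact_mod_cast (hle n).trans (hup n))).limsup_eq,
      (tendsto_root 7 (by norm_num) _
        (fun n hn => by exact_mod_cast (hlow n hn).trans (Nat.mul_le_mul_left _ (hle n)))
      (fun n => by exact_mod_cast hup n)).limsup_eq]
  · have hup : ∀ n, (ConjClasses.mk '' ball (G := H) (T.subtype (· ∈ H)) n).ncard ≤ 2 * 19 ^ n := by
      intro n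
      obtain ⟨R, hR, hc, hconj⟩ := uT n
      have hfin : (Subtype.val ⁻¹' R : Set H).Finite := hR.preimage Subtype.val_injective.injOn
      have h1 : ConjClasses.mk '' ball (G := H) (T.subtype (· ∈ H)) n ⊆
          ConjClasses.mk '' (Subtype.val ⁻¹' R : Set H) := by
        rintro _ ⟨g, hg, rfl⟩
        obtain ⟨c, hcH, hcR⟩ := hconj g ((mem_ball_subtype hTH n g).1 hg)
        refine ⟨⟨c, hcH⟩ * g * ⟨c, hcH⟩⁻¹, hcR, ?_⟩
        exact (ConjClasses.mk_eq_mk_iff_isConj.2 (isConj_iff.2 ⟨(⟨c, hcH⟩ : H), rfl⟩)).symm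
      refine (Set.ncard_le_ncard h1 (hfin.image _)).trans ((Set.ncard_image_le hfin).trans
        (le_trans ?_ hc))
      exact Set.ncard_le_ncard_of_injOn Subtype.val (fun a ha => ha) Subtype.val_injective.injOn hR
    refine lt_of_le_of_lt (b := 38) (limsup_le_of_le ?_ ?_) (lt_of_lt_of_le (b := 41) (by norm_num)
      (le_limsup_of_frequently_le (Eventually.frequently ?_) ?_))
    · exact isCoboundedUnder_le_of_le atTop (x := 0) fun n => by positivity
    · filter_upwards [eventually_ge_atTop 1] with n hn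
      refine root_le 38 (by norm_num) _ (by positivity) n (by omega) ?_
      have h1 : 2 * 19 ^ n ≤ 38 ^ n := by
        rw [show 38 = 2 * 19 by norm_num, mul_pow]
        exact Nat.mul_le_mul_right _ (Nat.le_self_pow (by omega) 2)
      exact_mod_cast (hup n).trans h1
    · filter_upwards [eventually_ge_atTop 1] with n hn
      refine le_root 41 (by norm_num) _ n (by omega) ?_
      rw [ncard_ball_subtype hTH]
      exact_mod_cast lT n
    · refine isBoundedUnder_of_eventually_le (a := ((2 * T.card + 1 : ℕ) : ℝ)) ?_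
      filter_upwards [eventually_ge_atTop 1] with n hn
      refine root_le _ (by positivity) _ (by positivity) n (by omega) ?_
      rw [ncard_ball_subtype hTH]
      exact_mod_cast ncard_ball_le T n

end Pool.Agent.H568Z.Conj
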