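import Mathlib

set_option autoImplicit false

namespace Pool.Agent.H568Z.Grig

open Classical

abbrev X : Type := ℕ → Bool

def cons (b : Bool) (y : X) : X
  | 0 => b
  | n + 1 => y n

def tl (y : X) : X := fun n => y (n + 1)

@[simp] lemma cons_zero (b : Bool) (y : X) : cons b y 0 = b := rfl
@[simp] lemma cons_succ (b : Bool) (y : X) (n : ℕ) : cons b y (n + 1) = y n := rfl
@[simp] lemma tl_cons (b : Bool) (y : X) : tl (cons b y) = y := rfl

lemma cons_tl (z : X) : cons (z 0) (tl z) = z := by
  funext n
  cases n <;> rfl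

lemma exists_cons (z : X) : ∃ b y, z = cons b y := ⟨_, _, (cons_tl z).symm⟩

def aF (z : X) : X := cons (!z 0) (tl z)

@[simp] lemma aF_cons (b : Bool) (y : X) : aF (cons b y) = cons (!b) y := rfl

@[simp] lemma aF_aF (z : X) : aF (aF z) = z := by
  obtain ⟨b, y, rfl⟩ := exists_cons z
  simp

def nx (x : Bool × Bool) : Bool × Bool := (x.2, xor x.1 x.2)

def ad (x y : Bool × Bool) : Bool × Bool := (xor x.1 y.1, xor x.2 y.2)

def dR : ℕ → Bool × Bool → X → Bool
  | 0, _, z => z 0
  | n + 1, x, z => if z 0 then dR n (nx x) (tl z) else (if x.1 then aF (tl z) else tl z) n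

def dF (x : Bool × Bool) (z : X) : X := fun n => dR n x z

lemma dF_true (x : Bool × Bool) (y : X) : dF x (cons true y) = cons true (dF (nx x) y) := by
  funext n
  cases n <;> simp [dF, dR]

lemma dF_false (x : Bool × Bool) (y : X) :
    dF x (cons false y) = cons false (if x.1 then aF y else y) := by
  funext n
  cases n <;> simp [dF, dR]

lemma dF_dF (x y : Bool × Bool) (z : X) : dF x (dF y z) = dF (ad x y) z := by
  funext n
  induction n generalizing x y z with
  | zero =>
    obtain ⟨b, w, rfl⟩ := exists_cons z
    cases b <;> simp [dF_true, dF_false]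
  | succ n ih =>
    obtain ⟨b, w, rfl⟩ := exists_cons z
    cases b
    · simp only [dF_false, cons_succ]
      obtain ⟨x1, x2⟩ := x
      obtain ⟨y1, y2⟩ := y
      cases x1 <;> cases y1 <;> simp [ad]
    · simp only [dF_true, cons_succ]
      rw [ih]
      congr 1
      obtain ⟨x1, x2⟩ := x
      obtain ⟨y1, y2⟩ := y
      cases x1 <;> cases y1 <;> cases x2 <;> cases y2 <;> rfl

lemma dF_zero (z : X) : dF (false, false) z = z := by
  funext n
  induction n generalizing z with
  | zero => rfl
  | succ n ih =>
    obtain ⟨b, w, rfl⟩ := exists_cons z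
    cases b
    · simp [dF_false]
    · simp only [dF_true, cons_succ]
      exact ih w

lemma dF_invol (x : Bool × Bool) (z : X) : dF x (dF x z) = z := by
  rw [dF_dF]
  have : ad x x = (false, false) := by simp [ad]
  rw [this, dF_zero]

def x0 : X := fun _ => true

lemma x0_eq : x0 = cons true x0 := by
  funext n
  cases n <;> rfl

lemma dF_x0 (x : Bool × Bool) : dF x x0 = x0 := by
  funext n
  induction n generalizing x with
  | zero => rfl
  | succ n ih =>
    rw [x0_eq, dF_true, cons_succ, cons_succ]
    exact ih _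

/-- letters: `none` is the rooted generator, `some (x, e)` a directed one with a lamp bit -/
abbrev L : Type := Option ((Bool × Bool) × Bool)

def act : L → X → X
  | none => aF
  | some p => dF p.1

noncomputable def lamp : L → Finset X
  | none => ∅
  | some p => if p.2 then {x0} else ∅

def wl : L → ℕ
  | none => 3
  | some p => if p.1.1 then (if p.1.2 then 3 else 2) else 1

def wt : List L → ℕ
  | [] => 0
  | l :: w => wl l + wt w

abbrev M : Type := Finset X × (X → X)

noncomputable def st (l : L) (m : M) : M := (lamp l ∪ m.1.image (act l), act l ∘ m.2)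

noncomputable def mm : List L → M
  | [] => (∅, id)
  | l :: w => st l (mm w)

noncomputable def glue (s : Bool) (m0 m1 : M) : M :=
  (m0.1.image (cons false) ∪ m1.1.image (cons true),
    fun z => if xor (z 0) s then cons true (m1.2 (tl z)) else cons false (m0.2 (tl z)))

lemma mm_nil_glue : mm [] = glue false (mm []) (mm []) := by
  refine Prod.ext (by simp [mm, glue]) ?_
  funext z
  obtain ⟨b, y, rfl⟩ := exists_cons z
  cases b <;> simp [mm, glue]

lemma st_none_glue (s : Bool) (m0 m1 : M) : st none (glue s m0 m1) = glue (!s) m1 m0 := by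
  refine Prod.ext ?_ ?_
  · simp only [st, glue, lamp, act, Finset.empty_union, Finset.image_union, Finset.image_image]
    rw [Finset.union_comm]
    rfl
  · funext z
    obtain ⟨b, y, rfl⟩ := exists_cons z
    cases b <;> cases s <;> simp [st, glue, act]

lemma st_some_glue (x : Bool × Bool) (e s : Bool) (m0 m1 : M) :
    st (some (x, e)) (glue s m0 m1) =
      glue s (if x.1 then st none m0 else m0) (st (some (nx x, e)) m1) := by
  refine Prod.ext ?_ ?_
  · have h1 : dF x ∘ cons true = cons true ∘ dF (nx x) := funext fun y => dF_true x y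
    have h2 : dF x ∘ cons false = cons false ∘ (if x.1 then aF else id) :=
      funext fun y => by
        rw [Function.comp_apply, dF_false]
        cases x.1 <;> simp
    have h3 : (lamp (some (nx x, e))).image (cons true) = lamp (some (x, e)) := by
      cases e
      · simp [lamp]
      · simp [lamp, ← x0_eq]
    simp only [st, glue, act, Finset.image_union, Finset.image_image, h1, h2, h3]
    rw [Finset.union_left_comm]
    congr 1
    cases x.1 <;> simp [lamp, Finset.image_image]
  · funext z
    obtain ⟨b, y, rfl⟩ := exists_cons z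
    cases hx : x.1 <;> cases b <;> cases s <;> simp [st, glue, act, dF_true, dF_false, hx]

lemma st_some_some (x y : Bool × Bool) (e f : Bool) (m : M) :
    st (some (x, e)) (st (some (y, f)) m) = st (some (ad x y, e || f)) m := by
  have h1 : dF x ∘ dF y = dF (ad x y) := funext fun z => dF_dF x y z
  refine Prod.ext ?_ ?_
  · simp only [st, act, Finset.image_union, Finset.image_image, h1]
    rw [← Finset.union_assoc]
    congr 1
    cases e <;> cases f <;> simp [lamp, dF_x0]
  · simp only [st, act]
    rw [← Function.comp_assoc, h1]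

theorem contraction (w : List L) :
    ∃ s w0 w1, mm w = glue s (mm w0) (mm w1) ∧ 6 * (wt w0 + wt w1) ≤ 5 * wt w + 15 := by
  induction hn : w.length using Nat.strong_induction_on generalizing w with
  | _ n ih =>
  rcases w with _ | ⟨_ | ⟨x, e⟩, u⟩
  · exact ⟨false, [], [], mm_nil_glue, by simp [wt]⟩
  · obtain ⟨s, w0, w1, h1, h2⟩ := ih u.length (by simp at hn; omega) u rfl
    refine ⟨!s, w1, w0, by rw [mm, h1, st_none_glue], ?_⟩
    simp only [wt]
    omega
  · rcases u with _ | ⟨_ | ⟨y, f⟩, v⟩
    · refine ⟨false, if x.1 then [none] else [], [some (nx x, e)], ?_, ?_⟩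
      · rw [mm, mm_nil_glue, st_some_glue]
        cases x.1 <;> rfl
      · obtain ⟨x1, x2⟩ := x
        cases x1 <;> cases x2 <;> simp [wt, wl, nx]
    · obtain ⟨s, w0, w1, h1, h2⟩ := ih v.length (by simp at hn; omega) v rfl
      refine ⟨!s, if x.1 then none :: w1 else w1, some (nx x, e) :: w0, ?_, ?_⟩
      · rw [mm, mm, h1, st_none_glue, st_some_glue]
        cases x.1 <;> rfl
      · obtain ⟨x1, x2⟩ := x
        cases x1 <;> cases x2 <;> simp [wt, wl, nx] <;> omega
    · obtain ⟨s, w0, w1, h1, h2⟩ :=
        ih (some (ad x y, e || f) :: v).length (by simp at hn ⊢; omega) _ rfl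
      refine ⟨s, w0, w1, by rw [mm, mm, st_some_some, ← h1, mm], h2.trans ?_⟩
      obtain ⟨x1, x2⟩ := x
      obtain ⟨y1, y2⟩ := y
      cases x1 <;> cases x2 <;> cases y1 <;> cases y2 <;> simp [wt, wl, ad] <;> omega

lemma one_le_wl (l : L) : 1 ≤ wl l := by
  rcases l with _ | ⟨⟨x1, x2⟩, e⟩
  · simp [wl]
  · cases x1 <;> cases x2 <;> simp [wl]

lemma card_lamp (l : L) : (lamp l).card ≤ 1 := by
  rcases l with _ | ⟨x, e⟩
  · simp [lamp]
  · cases e <;> simp [lamp]

lemma card_le_wt (w : List L) : (mm w).1.card ≤ wt w := by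
  induction w with
  | nil => simp [mm]
  | cons l w ih =>
    simp only [mm, st, wt]
    have h1 := Finset.card_union_le (lamp l) ((mm w).1.image (act l))
    have h2 : ((mm w).1.image (act l)).card ≤ (mm w).1.card := Finset.card_image_le
    have h3 := card_lamp l
    have h4 := one_le_wl l
    omega

lemma card_le_iter (k : ℕ) (w : List L) :
    ((mm w).1.card : ℝ) + 3 ≤ 3 * 2 ^ k + (5 / 6) ^ k * wt w := by
  induction k generalizing w with
  | zero =>
    have : ((mm w).1.card : ℝ) ≤ wt w := by exact_mod_cast card_le_wt w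
    simp only [pow_zero]
    linarith
  | succ k ih =>
    obtain ⟨s, w0, w1, h1, h2⟩ := contraction w
    have h3 : (mm w).1.card ≤ (mm w0).1.card + (mm w1).1.card := by
      rw [h1]
      exact (Finset.card_union_le _ _).trans
        (Nat.add_le_add Finset.card_image_le Finset.card_image_le)
    have h4 : ((mm w).1.card : ℝ) ≤ (mm w0).1.card + (mm w1).1.card := by exact_mod_cast h3
    have h5 : (6 : ℝ) * (wt w0 + wt w1) ≤ 5 * wt w + 15 := by exact_mod_cast h2
    have h6 := ih w0
    have h7 := ih w1
    have h8 : (0 : ℝ) ≤ (5 / 6) ^ k := by positivity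
    have h9 : ((5 : ℝ) / 6) ^ k ≤ 1 := pow_le_one₀ (by norm_num) (by norm_num)
    have h10 := mul_le_mul_of_nonneg_left h5 h8
    rw [pow_succ, pow_succ]
    nlinarith

end Pool.Agent.H568Z.Grig
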