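import Mathlib
import Pool.Agent.H568Z.GrigCore
import Pool.Agent.H568Z.ConjBall

set_option autoImplicit false

namespace Pool.Agent.H568Z.Grig

open Classical Filter Topology

noncomputable def WW : ℕ → Finset M
  | 0 => {mm []}
  | n + 1 => insert (mm []) (Finset.univ.biUnion fun l : L => (WW n).image (st l))

lemma card_WW (n : ℕ) : (WW n).card ≤ 10 ^ n := by
  induction n with
  | zero => simp [WW]
  | succ n ih =>
    have h1 : (Finset.univ.biUnion fun l : L => (WW n).image (st l)).card ≤ 9 * (WW n).card := by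
      refine Finset.card_biUnion_le.trans ?_
      refine (Finset.sum_le_card_nsmul _ _ (WW n).card fun l _ => Finset.card_image_le).trans ?_
      simp
    have h2 := Finset.card_insert_le (mm [])
      (Finset.univ.biUnion fun l : L => (WW n).image (st l))
    have h3 : 1 ≤ 10 ^ n := Nat.one_le_pow _ _ (by norm_num)
    simp only [WW]
    rw [pow_succ]
    omega

lemma mem_WW (w : List L) (n : ℕ) (h : wt w ≤ n) : mm w ∈ WW n := by
  induction w generalizing n with
  | nil => cases n <;> simp [WW]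
  | cons l w ih =>
    have := one_le_wl l
    simp only [wt] at h
    obtain ⟨m, rfl⟩ : ∃ m, n = m + 1 := ⟨n - 1, by omega⟩
    simp only [WW, mm]
    exact Finset.mem_insert_of_mem (Finset.mem_biUnion.2 ⟨l, Finset.mem_univ _,
      Finset.mem_image_of_mem _ (ih m (by omega))⟩)

noncomputable def BB (r : ℕ) : Finset M := (WW r).filter fun m => ∃ w, wt w ≤ r ∧ mm w = m

lemma mem_BB {r : ℕ} {m : M} : m ∈ BB r ↔ ∃ w, wt w ≤ r ∧ mm w = m := by
  simp only [BB, Finset.mem_filter, and_iff_right_iff_imp]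
  rintro ⟨w, hw, rfl⟩
  exact mem_WW w r hw

lemma card_BB_le (r : ℕ) : (BB r).card ≤ 10 ^ r :=
  (Finset.card_filter_le _ _).trans (card_WW r)

lemma card_BB_rec (r : ℕ) : (BB r).card ≤
    2 * ∑ i ∈ Finset.range ((5 * r + 15) / 6 + 1),
      (BB i).card * (BB ((5 * r + 15) / 6 - i)).card := by
  set R := (5 * r + 15) / 6 with hR
  have h : BB r ⊆ (Finset.univ : Finset Bool).biUnion fun s => (Finset.range (R + 1)).biUnion
      fun i => ((BB i) ×ˢ (BB (R - i))).image fun p => glue s p.1 p.2 := by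
    intro m hm
    obtain ⟨w, hw, rfl⟩ := mem_BB.1 hm
    obtain ⟨s, w0, w1, h1, h2⟩ := contraction w
    refine Finset.mem_biUnion.2 ⟨s, Finset.mem_univ _, Finset.mem_biUnion.2
      ⟨wt w0, Finset.mem_range.2 (by omega), Finset.mem_image.2
        ⟨(mm w0, mm w1), Finset.mem_product.2 ⟨mem_BB.2 ⟨w0, le_rfl, rfl⟩,
          mem_BB.2 ⟨w1, by omega, rfl⟩⟩, h1.symm⟩⟩⟩
  refine (Finset.card_le_card h).trans (Finset.card_biUnion_le.trans ?_)
  refine (Finset.sum_le_card_nsmul _ _ (∑ i ∈ Finset.range (R + 1),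
    (BB i).card * (BB (R - i)).card) fun s _ => ?_).trans (by simp)
  refine Finset.card_biUnion_le.trans (Finset.sum_le_sum fun i _ => ?_)
  exact Finset.card_image_le.trans (Finset.card_product _ _).le

def Good (μ : ℝ) : Prop := ∃ C : ℝ, 0 ≤ C ∧ ∀ r : ℕ, ((BB r).card : ℝ) ≤ C * Real.exp (μ * r)

lemma good_three : Good 9 := by
  refine ⟨1, by norm_num, fun r => ?_⟩
  have h1 : ((BB r).card : ℝ) ≤ 10 ^ r := by exact_mod_cast card_BB_le r
  have h2 : (10 : ℝ) ≤ Real.exp 9 := by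
    have := Real.add_one_le_exp 9
    linarith
  rw [one_mul, mul_comm, Real.exp_nat_mul]
  exact h1.trans (pow_le_pow_left₀ (by norm_num) h2 _)

lemma good_step {μ : ℝ} (hμ : 0 < μ) (h : Good μ) : Good (μ * (9 / 10)) := by
  obtain ⟨C, hC, h⟩ := h
  refine ⟨2 * (15 / μ + 4) * C ^ 2 * Real.exp (μ * 3), by positivity, fun r => ?_⟩
  have h1 := card_BB_rec r
  set R := (5 * r + 15) / 6 with hR
  have h2 : ((BB r).card : ℝ) ≤ 2 * ∑ i ∈ Finset.range (R + 1),
      ((BB i).card : ℝ) * (BB (R - i)).card := by exact_mod_cast h1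
  have h3 : ∑ i ∈ Finset.range (R + 1), ((BB i).card : ℝ) * (BB (R - i)).card ≤
      (R + 1) * (C ^ 2 * Real.exp (μ * R)) := by
    refine (Finset.sum_le_card_nsmul _ _ (C ^ 2 * Real.exp (μ * R)) fun i hi => ?_).trans
      (by simp)
    have hi' : i ≤ R := by simpa [Nat.lt_succ_iff] using hi
    refine (mul_le_mul (h i) (h (R - i)) (by positivity) (by positivity)).trans (le_of_eq ?_)
    rw [Nat.cast_sub hi', show μ * R = μ * i + μ * (R - i) by ring, Real.exp_add]
    ring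
  have h4 : (6 : ℝ) * R ≤ 5 * r + 15 := by exact_mod_cast (show 6 * R ≤ 5 * r + 15 by omega)
  have h5 : (R : ℝ) + 1 ≤ (15 / μ + 4) * Real.exp (μ * r / 15) := by
    have h6 := Real.add_one_le_exp (μ * r / 15)
    have h7 : (1 : ℝ) ≤ Real.exp (μ * r / 15) := Real.one_le_exp (by positivity)
    have h8 : (r : ℝ) ≤ 15 / μ * Real.exp (μ * r / 15) := by
      rw [div_mul_eq_mul_div, le_div_iff₀ hμ]
      nlinarith
    have h9 : (0 : ℝ) ≤ r := by positivity
    nlinarith
  have h6 : Real.exp (μ * R) ≤ Real.exp (μ * 3) * Real.exp (μ * (5 / 6) * r) := by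
    rw [← Real.exp_add]
    refine Real.exp_le_exp.2 ?_
    nlinarith
  have h7 : Real.exp (μ * (9 / 10) * r) = Real.exp (μ * r / 15) * Real.exp (μ * (5 / 6) * r) := by
    rw [← Real.exp_add]
    congr 1
    ring
  rw [h7]
  calc ((BB r).card : ℝ) ≤ 2 * ((R + 1) * (C ^ 2 * Real.exp (μ * R))) := by linarith
    _ ≤ 2 * (((15 / μ + 4) * Real.exp (μ * r / 15)) *
        (C ^ 2 * (Real.exp (μ * 3) * Real.exp (μ * (5 / 6) * r)))) := by gcongr
    _ = _ := by ring

lemma good_all {ε : ℝ} (hε : 0 < ε) : Good ε := by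
  have h : ∀ k : ℕ, Good (9 * (9 / 10) ^ k) := by
    intro k
    induction k with
    | zero => simpa using good_three
    | succ k ih =>
      have := good_step (by positivity) ih
      rwa [mul_assoc, ← pow_succ] at this
  obtain ⟨k, hk⟩ := exists_pow_lt_of_lt_one (show 0 < ε / 9 by positivity)
    (show (9 / 10 : ℝ) < 1 by norm_num)
  obtain ⟨C, hC, h1⟩ := h k
  refine ⟨C, hC, fun r => (h1 r).trans ?_⟩
  gcongr
  linarith

lemma fact_bound {ε : ℝ} (hε : 0 < ε) : ∃ C : ℝ, 0 ≤ C ∧ ∀ (r : ℕ) (w : List L), wt w ≤ r →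
    (((mm w).1.card).factorial : ℝ) ≤ C * Real.exp (ε * r) := by
  have ht : Tendsto (fun k : ℕ => 12 * ((k : ℝ) * (5 / 6) ^ k + (5 / 6) ^ k)) atTop
      (𝓝 (12 * (0 + 0))) :=
    ((tendsto_self_mul_const_pow_of_lt_one (by norm_num) (by norm_num)).add
      (tendsto_pow_atTop_nhds_zero_of_lt_one (by norm_num) (by norm_num))).const_mul 12
  obtain ⟨k0, hk0⟩ := eventually_atTop.1 (ht.eventually (gt_mem_nhds (by simpa using hε)))
  refine ⟨((4 ^ k0).factorial : ℝ), by positivity, fun r w hw => ?_⟩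
  have hh : (mm w).1.card ≤ r := (card_le_wt w).trans hw
  have he : (1 : ℝ) ≤ Real.exp (ε * r) := Real.one_le_exp (by positivity)
  have hf : (1 : ℝ) ≤ ((4 ^ k0).factorial : ℝ) := by exact_mod_cast Nat.factorial_pos _
  by_cases hr : r < 4 ^ k0
  · have : (((mm w).1.card).factorial : ℝ) ≤ ((4 ^ k0).factorial : ℝ) := by
      exact_mod_cast Nat.factorial_le (hh.trans hr.le)
    nlinarith
  · have hr0 : r ≠ 0 := by
      have : 0 < 4 ^ k0 := by positivity
      omega
    set k := Nat.log 4 r with hk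
    have h1 : 4 ^ k ≤ r := Nat.pow_log_le_self 4 hr0
    have h2 : r < 4 ^ (k + 1) := Nat.lt_pow_succ_log_self (by norm_num) r
    have h3 : k0 ≤ k := Nat.le_log_of_pow_le (by norm_num) (not_lt.1 hr)
    have h4 := hk0 k h3
    set h := (mm w).1.card with hh'
    have h5 : (h.factorial : ℝ) ≤ (4 ^ (k + 1)) ^ h := by
      exact_mod_cast (Nat.factorial_le_pow h).trans (Nat.pow_le_pow_left (hh.trans h2.le) h)
    have h6 : (4 : ℝ) ≤ Real.exp 3 := by
      have := Real.add_one_le_exp 3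
      linarith
    have h7 : ((4 : ℝ) ^ (k + 1)) ^ h ≤ Real.exp (((k + 1) * h : ℕ) * 3) := by
      rw [← pow_mul, Real.exp_nat_mul]
      exact pow_le_pow_left₀ (by norm_num) h6 _
    have h8 : (h : ℝ) ≤ 4 * (5 / 6) ^ k * r := by
      have h9 := card_le_iter k w
      have h10 : (wt w : ℝ) ≤ r := by exact_mod_cast hw
      have h11 : (2 : ℝ) ^ k ≤ (5 / 6) ^ k * r := by
        have h12 : (4 : ℝ) ^ k ≤ r := by exact_mod_cast h1
        calc (2 : ℝ) ^ k ≤ (5 / 6 * 4) ^ k := pow_le_pow_left₀ (by norm_num) (by norm_num) _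
          _ = (5 / 6) ^ k * 4 ^ k := mul_pow _ _ _
          _ ≤ _ := by gcongr
      have h13 : ((5 : ℝ) / 6) ^ k * wt w ≤ (5 / 6) ^ k * r := by gcongr
      linarith
    have h9 : (((k + 1) * h : ℕ) : ℝ) * 3 ≤ ε * r := by
      push_cast
      have h10 : ((k : ℝ) + 1) * h * 3 ≤ (k + 1) * (4 * (5 / 6) ^ k * r) * 3 := by gcongr
      have h11 : (0 : ℝ) ≤ r := by positivity
      nlinarith
    have h10 := h5.trans (h7.trans (Real.exp_le_exp.2 h9))
    nlinarith

def pa : Equiv.Perm X := Function.Involutive.toPerm aF aF_aF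

def pd (x : Bool × Bool) : Equiv.Perm X := Function.Involutive.toPerm (dF x) (dF_invol x)

noncomputable def tau : Equiv.Perm X := Equiv.swap x0 (aF x0)

noncomputable def gens : Finset (Equiv.Perm X) :=
  {pa, pd (true, true), pd (true, false), pd (false, true), tau}

lemma gens_cases {g : Equiv.Perm X} (hg : g ∈ gens ∨ g⁻¹ ∈ gens) :
    g = pa ∨ (∃ x, g = pd x) ∨ g = tau := by
  have key : ∀ g ∈ gens, (g = pa ∨ (∃ x, g = pd x) ∨ g = tau) ∧ g⁻¹ = g := by
    intro g hg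
    simp only [gens, Finset.mem_insert, Finset.mem_singleton] at hg
    rcases hg with rfl | rfl | rfl | rfl | rfl
    exacts [⟨Or.inl rfl, rfl⟩, ⟨Or.inr (Or.inl ⟨_, rfl⟩), rfl⟩, ⟨Or.inr (Or.inl ⟨_, rfl⟩), rfl⟩,
      ⟨Or.inr (Or.inl ⟨_, rfl⟩), rfl⟩, ⟨Or.inr (Or.inr rfl), Equiv.swap_inv _ _⟩]
  rcases hg with hg | hg
  · exact (key g hg).1
  · have := key _ hg
    rw [inv_inv] at this
    rw [this.2]
    exact this.1

lemma ball_decomp {n : ℕ} {g : Equiv.Perm X} (hg : g ∈ Conj.ball gens n) :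
    ∃ w, wt w ≤ 8 * n ∧ ∃ σ : Equiv.Perm X, (∀ z, z ∉ (mm w).1 → σ z = z) ∧
      ⇑g = σ ∘ (mm w).2 := by
  refine Conj.ball_induction (P := fun n (g : Equiv.Perm X) => ∃ w, wt w ≤ 8 * n ∧ ∃ σ : Equiv.Perm X,
    (∀ z, z ∉ (mm w).1 → σ z = z) ∧ ⇑g = σ ∘ (mm w).2)
    (fun n => ⟨[], by simp [wt], 1, by simp, by simp [mm]⟩) ?_ hg
  rintro n s g hs ⟨w, hw, σ, h1, h2⟩
  have key : ∀ l : L, ⇑s = act l → ∃ w, wt w ≤ 8 * (n + 1) ∧ ∃ σ : Equiv.Perm X,
      (∀ z, z ∉ (mm w).1 → σ z = z) ∧ ⇑(s * g) = σ ∘ (mm w).2 := by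
    intro l hl
    refine ⟨l :: w, ?_, s * σ * s⁻¹, fun z hz => ?_, ?_⟩
    · have : wl l ≤ 3 := by
        rcases l with _ | ⟨⟨x1, x2⟩, e⟩
        · simp [wl]
        · cases x1 <;> cases x2 <;> simp [wl]
      simp only [wt]
      omega
    · have : s⁻¹ z ∉ (mm w).1 := fun h => hz (Finset.mem_union_right _
        (Finset.mem_image.2 ⟨_, h, by rw [← hl]; simp⟩))
      rw [Equiv.Perm.mul_apply, Equiv.Perm.mul_apply, h1 _ this]
      simp
    · funext z
      simp [mm, st, ← hl, h2]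
  rcases gens_cases hs with rfl | ⟨x, rfl⟩ | rfl
  · exact key none rfl
  · exact key (some (x, false)) rfl
  · have hd : dF (false, false) = id := funext dF_zero
    have ha : aF ∘ aF = id := funext aF_aF
    refine ⟨some ((false, false), true) :: none :: some ((false, false), true) :: none :: w,
      by simp [wt, wl]; omega, tau * σ, fun z hz => ?_, ?_⟩
    · simp [mm, st, lamp, act, hd, Finset.image_image, ha] at hz
      rw [Equiv.Perm.mul_apply, h1 z hz.2.2, tau, Equiv.swap_apply_of_ne_of_ne hz.2.1 hz.1]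
    · funext z
      simp [mm, st, act, hd, h2]

lemma ncard_ball_le_sum (n : ℕ) :
    (Conj.ball gens n).ncard ≤ ∑ m ∈ BB (8 * n), m.1.card.factorial := by
  let F : M → Finset (X → X) := fun m => Finset.univ.image
    fun σ : Equiv.Perm {z // z ∈ m.1} => ⇑(Equiv.Perm.ofSubtype σ) ∘ m.2
  have h1 : (Conj.ball gens n).ncard ≤ ((BB (8 * n)).biUnion F).card := by
    rw [← Set.ncard_coe_finset]
    refine Set.ncard_le_ncard_of_injOn (fun g => ⇑g) (fun g hg => ?_)
      (DFunLike.coe_injective.injOn) (Finset.finite_toSet _)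
    obtain ⟨w, hw, σ, h1, h2⟩ := ball_decomp hg
    have h3 : ∀ z, σ z ≠ z → z ∈ (mm w).1 := fun z hz => by_contra fun h => hz (h1 z h)
    have h4 : ∀ z, σ z ∈ (mm w).1 ↔ z ∈ (mm w).1 := by
      intro z
      by_cases hz : σ z = z
      · rw [hz]
      · exact iff_of_true (h3 _ fun h => hz (σ.injective h)) (h3 z hz)
    refine Finset.mem_coe.2 (Finset.mem_biUnion.2 ⟨mm w, mem_BB.2 ⟨w, hw, rfl⟩,
      Finset.mem_image.2 ⟨σ.subtypePerm h4, Finset.mem_univ _, ?_⟩⟩)
    rw [Equiv.Perm.ofSubtype_subtypePerm h4 h3, h2]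
  refine h1.trans (Finset.card_biUnion_le.trans (Finset.sum_le_sum fun m _ => ?_))
  refine Finset.card_image_le.trans ?_
  simp [Fintype.card_perm]

theorem subexp {ε : ℝ} (hε : 0 < ε) :
    ∃ C : ℝ, 0 ≤ C ∧ ∀ n : ℕ, ((Conj.ball gens n).ncard : ℝ) ≤ C * Real.exp (ε * n) := by
  obtain ⟨C1, hC1, h1⟩ := good_all (show 0 < ε / 16 by positivity)
  obtain ⟨C2, hC2, h2⟩ := fact_bound (show 0 < ε / 16 by positivity)
  refine ⟨C1 * C2, by positivity, fun n => ?_⟩
  have h3 : ((Conj.ball gens n).ncard : ℝ) ≤ ∑ m ∈ BB (8 * n), (m.1.card.factorial : ℝ) := by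
    exact_mod_cast ncard_ball_le_sum n
  have h4 : ∑ m ∈ BB (8 * n), (m.1.card.factorial : ℝ) ≤
      (BB (8 * n)).card * (C2 * Real.exp (ε / 16 * (8 * n : ℕ))) := by
    refine (Finset.sum_le_card_nsmul _ _ _ fun m hm => ?_).trans (by rw [nsmul_eq_mul])
    obtain ⟨w, hw, rfl⟩ := mem_BB.1 hm
    exact h2 _ w hw
  have h5 : Real.exp (ε * n) =
      Real.exp (ε / 16 * (8 * n : ℕ)) * Real.exp (ε / 16 * (8 * n : ℕ)) := by
    rw [← Real.exp_add]
    congr 1
    push_cast
    ring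
  rw [h5]
  calc _ ≤ _ := h3.trans h4
    _ ≤ (C1 * Real.exp (ε / 16 * (8 * n : ℕ))) * (C2 * Real.exp (ε / 16 * (8 * n : ℕ))) := by
      gcongr
      exact h1 _
    _ = _ := by ring

end Pool.Agent.H568Z.Grig
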