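import Mathlib

set_option autoImplicit false

namespace Pool.Agent.H568Z.AutG

/-- The ball of radius `n` for the word metric of `S ∪ S⁻¹`. -/
def wordBall {G : Type} [Group G] (S : Finset G) (n : ℕ) : Set G :=
  {g : G | ∃ l : List G, l.length ≤ n ∧ (∀ x ∈ l, x ∈ S ∨ x⁻¹ ∈ S) ∧ l.prod = g}

/-- The automorphic growth function: the number of `Aut(G)`-orbits meeting the ball of radius `n`. -/
noncomputable def autGrowth {G : Type} [Group G] (S : Finset G) (n : ℕ) : ℕ :=
  Set.ncard {O : Set G | ∃ g ∈ wordBall S n, O = MulAction.orbit (MulAut G) g}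

/-- The relation `f ≼ g`. -/
def Dominated (f g : ℕ → ℕ) : Prop :=
  ∃ c : ℕ, 1 ≤ c ∧ ∀ n : ℕ, f n ≤ c * g (c * n + c) + c

end Pool.Agent.H568Z.AutG
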