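import Pool.Agent.H568Z.ConjBall

set_option autoImplicit false

namespace Pool.Agent.H568Z.Conj

/-- the affine group of a module -/
@[ext]
structure Aff (R V : Type) [CommRing R] [AddCommGroup V] [Module R V] where
  v : V
  h : V ≃ₗ[R] V

namespace Aff

variable {R V : Type} [CommRing R] [AddCommGroup V] [Module R V]

instance : Mul (Aff R V) := ⟨fun a b => ⟨a.v + a.h b.v, a.h * b.h⟩⟩
instance : One (Aff R V) := ⟨⟨0, 1⟩⟩
instance : Inv (Aff R V) := ⟨fun a => ⟨-(a.h⁻¹ a.v), a.h⁻¹⟩⟩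

@[simp] lemma mul_v (a b : Aff R V) : (a * b).v = a.v + a.h b.v := rfl
@[simp] lemma mul_h (a b : Aff R V) : (a * b).h = a.h * b.h := rfl
@[simp] lemma one_v : (1 : Aff R V).v = 0 := rfl
@[simp] lemma one_h : (1 : Aff R V).h = 1 := rfl
@[simp] lemma inv_v (a : Aff R V) : a⁻¹.v = -(a.h⁻¹ a.v) := rfl
@[simp] lemma inv_h (a : Aff R V) : a⁻¹.h = a.h⁻¹ := rfl

instance : Group (Aff R V) :=
  Group.ofLeftAxioms
    (fun a b c => Aff.ext (by simp [add_assoc]) (mul_assoc _ _ _))
    (fun a => Aff.ext (by simp) (one_mul _))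
    (fun a => Aff.ext (by simp) (inv_mul_cancel _))

/-- the linear part -/
def lin : (V ≃ₗ[R] V) →* Aff R V where
  toFun h := ⟨0, h⟩
  map_one' := rfl
  map_mul' a b := Aff.ext (by simp) rfl

@[simp] lemma lin_v (h : V ≃ₗ[R] V) : (lin h).v = 0 := rfl
@[simp] lemma lin_h (h : V ≃ₗ[R] V) : (lin h).h = h := rfl

def toLin : Aff R V →* (V ≃ₗ[R] V) where
  toFun a := a.h
  map_one' := rfl
  map_mul' _ _ := rfl

end Aff

abbrev LM : Type := ℤ →₀ ZMod 7

noncomputable def sh : LM ≃ₗ[ZMod 7] LM := Finsupp.domLCongr (Equiv.addRight 1)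

lemma sh_zpow (k : ℤ) (f : LM) : (sh ^ k) f = f.mapDomain (· + k) := by
  have h1 : ∀ f : LM, sh f = f.mapDomain (· + 1) := fun f => Finsupp.equivMapDomain_eq_mapDomain _ _
  have h2 : ∀ f : LM, sh⁻¹ f = f.mapDomain (· - 1) := by
    intro f
    apply sh.injective
    rw [h1 (f.mapDomain _), ← Finsupp.mapDomain_comp]
    have : ((fun x : ℤ => x + 1) ∘ fun x => x - 1) = id := by funext x; simp
    rw [this, Finsupp.mapDomain_id]
    exact sh.apply_symm_apply f
  induction k using Int.induction_on generalizing f with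
  | zero =>
    simp only [add_zero, zpow_zero]
    exact (Finsupp.mapDomain_id (v := f)).symm
  | succ k ih =>
    rw [zpow_add_one]
    change (sh ^ (k : ℤ)) (sh f) = _
    rw [ih, h1, ← Finsupp.mapDomain_comp]
    congr 1
    funext x
    simp only [Function.comp_apply]
    ring
  | pred k ih =>
    rw [zpow_sub_one]
    change (sh ^ (-k : ℤ)) (sh⁻¹ f) = _
    rw [ih, h2, ← Finsupp.mapDomain_comp]
    congr 1
    funext x
    simp only [Function.comp_apply]
    ring

lemma sh_zpow_apply (k : ℤ) (f : LM) (i : ℤ) : (sh ^ k) f i = f (i - k) := by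
  rw [sh_zpow]
  have := Finsupp.mapDomain_apply (f := (· + k)) (add_left_injective k) f (i - k)
  simpa using this

noncomputable def lamp (c : ZMod 7) : Aff (ZMod 7) LM := ⟨Finsupp.single 0 c, sh⟩

def Box (j : ℕ) : Set (Aff (ZMod 7) LM) :=
  {w | ∃ lo k : ℤ, lo ≤ 0 ∧ 0 ≤ lo + j ∧ lo ≤ k ∧ k ≤ lo + j ∧ w.h = sh ^ k ∧
    ∀ i, (i < lo ∨ lo + j ≤ i) → w.v i = 0}

lemma one_mem_Box (j : ℕ) : (1 : Aff (ZMod 7) LM) ∈ Box j :=
  ⟨0, 0, le_rfl, by omega, le_rfl, by omega, by simp, fun _ _ => rfl⟩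

lemma lamp_mul_mem {j : ℕ} {w : Aff (ZMod 7) LM} (hw : w ∈ Box j) (c : ZMod 7) :
    lamp c * w ∈ Box (j + 1) := by
  obtain ⟨lo, k, h1, h2, h3, h4, h5, h6⟩ := hw
  refine ⟨lo, k + 1, h1, by omega, by omega, by omega, ?_, fun i hi => ?_⟩
  · rw [Aff.mul_h, h5, add_comm, zpow_one_add]; rfl
  · have := sh_zpow_apply 1 w.v i
    rw [zpow_one] at this
    simp only [Aff.mul_v, lamp, Finsupp.add_apply, this]
    rw [h6 _ (by omega), Finsupp.single_eq_of_ne (by omega), add_zero]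

lemma lamp_inv_mul_mem {j : ℕ} {w : Aff (ZMod 7) LM} (hw : w ∈ Box j) (c : ZMod 7) :
    (lamp c)⁻¹ * w ∈ Box (j + 1) := by
  obtain ⟨lo, k, h1, h2, h3, h4, h5, h6⟩ := hw
  refine ⟨lo - 1, k - 1, by omega, by omega, by omega, by omega, ?_, fun i hi => ?_⟩
  · rw [Aff.mul_h, h5, sub_eq_neg_add, zpow_add, zpow_neg_one]; rfl
  · have e1 := sh_zpow_apply (-1) w.v i
    have e2 := sh_zpow_apply (-1) (Finsupp.single 0 c) i
    rw [zpow_neg_one] at e1 e2
    simp only [Aff.mul_v, Aff.inv_v, Aff.inv_h, lamp, Finsupp.add_apply, Finsupp.neg_apply, e1, e2]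
    rw [h6 _ (by omega), Finsupp.single_eq_of_ne (by omega), add_zero, neg_zero]

lemma Box_card (j : ℕ) : (Box j).Finite ∧ (Box j).ncard ≤ (j + 1) ^ 2 * 7 ^ j := by
  let φ : Fin (j + 1) × Fin (j + 1) × (Fin j → ZMod 7) → Aff (ZMod 7) LM := fun p =>
    ⟨∑ i : Fin j, Finsupp.single (-(p.1 : ℤ) + i) (p.2.2 i), sh ^ (-(p.1 : ℤ) + p.2.1)⟩
  have hsub : Box j ⊆ φ '' Set.univ := by
    rintro w ⟨lo, k, h1, h2, h3, h4, h5, h6⟩
    refine ⟨(⟨(-lo).toNat, by omega⟩, ⟨(k - lo).toNat, by omega⟩, fun i => w.v (lo + i)),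
      trivial, Aff.ext ?_ ?_⟩
    · ext x
      have e : -(((-lo).toNat : ℕ) : ℤ) = lo := by omega
      simp only [φ, e, Finsupp.finsetSum_apply]
      by_cases hx : x < lo ∨ lo + j ≤ x
      · rw [h6 x hx]
        refine Finset.sum_eq_zero fun i _ => Finsupp.single_eq_of_ne ?_
        have := i.2
        omega
      · rw [Finset.sum_eq_single (⟨(x - lo).toNat, by omega⟩ : Fin j)]
        · have e2 : lo + (((x - lo).toNat : ℕ) : ℤ) = x := by omega
          simp only [e2, Finsupp.single_eq_same]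
        · intro i _ hi
          refine Finsupp.single_eq_of_ne fun h => hi (Fin.ext ?_)
          simp only
          omega
        · simp
    · rw [h5]
      simp only [φ]
      congr 1
      omega
  refine ⟨(Set.finite_univ.image φ).subset hsub,
    (Set.ncard_le_ncard hsub (Set.finite_univ.image φ)).trans
      ((Set.ncard_image_le Set.finite_univ).trans (le_of_eq ?_))⟩
  simp [Set.ncard_univ, sq, mul_assoc]

noncomputable def lampWord : List (ZMod 7) → Aff (ZMod 7) LM := fun l => (l.map lamp).prod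

lemma lampWord_h (l : List (ZMod 7)) : (lampWord l).h = sh ^ (l.length : ℤ) := by
  induction l with
  | nil => rfl
  | cons c l ih =>
    simp only [lampWord, List.map_cons, List.prod_cons, Aff.mul_h, List.length_cons] at ih ⊢
    rw [ih]
    push_cast
    rw [add_comm, zpow_one_add]
    rfl

lemma lampWord_v (n : ℕ) (φ : Fin n → ZMod 7) :
    (lampWord (List.ofFn φ)).v = ∑ i : Fin n, Finsupp.single (i : ℤ) (φ i) := by
  induction n with
  | zero => simp [lampWord]
  | succ n ih =>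
    rw [List.ofFn_succ, Fin.sum_univ_succ]
    have := ih (fun i => φ i.succ)
    simp only [lampWord, List.map_cons, List.prod_cons, Aff.mul_v] at this ⊢
    rw [this]
    have h1 : ∀ f : LM, sh f = f.mapDomain (· + 1) := fun f => by
      simpa using sh_zpow 1 f
    simp only [lamp]
    rw [map_sum]
    simp [h1, Finsupp.mapDomain_single]

lemma fiber_bound (n : ℕ) (hn : 1 ≤ n) (φ : Fin n → ZMod 7) :
    {ψ : Fin n → ZMod 7 | ∃ c : Aff (ZMod 7) LM, (∃ k : ℤ, c.h = sh ^ k) ∧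
      c * lampWord (List.ofFn φ) * c⁻¹ = lampWord (List.ofFn ψ)}.ncard ≤ n := by
  haveI : NeZero n := ⟨by omega⟩
  let π : LM →+ (ZMod n →₀ ZMod 7) := Finsupp.mapDomain.addMonoidHom (Int.cast : ℤ → ZMod n)
  have hπ : ∀ f, π f = f.mapDomain (Int.cast : ℤ → ZMod n) := fun f => rfl
  have hsh : ∀ (k : ℤ) f, π ((sh ^ k) f) = (π f).mapDomain (· + (k : ZMod n)) := by
    intro k f
    rw [hπ, hπ, sh_zpow, ← Finsupp.mapDomain_comp, ← Finsupp.mapDomain_comp]
    congr 1
    funext x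
    simp
  have hread : ∀ (ψ : Fin n → ZMod 7) (i : Fin n),
      π (lampWord (List.ofFn ψ)).v ((i : ℕ) : ZMod n) = ψ i := by
    intro ψ i
    rw [lampWord_v, map_sum, Finsupp.finsetSum_apply, Finset.sum_eq_single i]
    · rw [hπ, Finsupp.mapDomain_single]; simp
    · intro j _ hj
      rw [hπ, Finsupp.mapDomain_single]
      refine Finsupp.single_eq_of_ne fun h => hj (Fin.ext ?_)
      have h2 : ((i : ℕ) : ZMod n) = ((j : ℕ) : ZMod n) := by simpa using h
      have := congrArg ZMod.val h2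
      rw [ZMod.val_natCast_of_lt i.2, ZMod.val_natCast_of_lt j.2] at this
      exact this.symm
    · simp
  let ρ : ZMod n → (Fin n → ZMod 7) := fun r i =>
    ((π (lampWord (List.ofFn φ)).v).mapDomain (· + r)) ((i : ℕ) : ZMod n)
  refine le_trans (Set.ncard_le_ncard (t := ρ '' Set.univ) ?_ (Set.toFinite _))
    ((Set.ncard_image_le Set.finite_univ).trans (by simp [Set.ncard_univ]))
  rintro ψ ⟨c, ⟨k, hk⟩, hc⟩
  refine ⟨(k : ZMod n), trivial, ?_⟩
  funext i
  rw [← hread ψ i]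
  have h1 : c * lampWord (List.ofFn φ) = lampWord (List.ofFn ψ) * c := by
    rw [← hc]; simp
  have h2 := congrArg (fun w => π w.v) h1
  simp only [Aff.mul_v, map_add, hk, lampWord_h, hsh, List.length_ofFn] at h2
  have h3 : Finsupp.mapDomain (fun x : ZMod n => x + (((n : ℕ) : ℤ) : ZMod n)) (π c.v) = π c.v := by
    simp only [Int.cast_natCast, CharP.cast_eq_zero, add_zero]
    exact Finsupp.mapDomain_id
  rw [h3, add_comm] at h2
  simp only [ρ]
  rw [add_right_cancel h2]

end Pool.Agent.H568Z.Conj
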