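import Pool.Agent.H568Z.ConjMod

set_option autoImplicit false

namespace Pool.Agent.H568Z.Conj

variable {F K : Type} [Field F] [Field K] [Algebra F K]

/-- `h` is trivial, or `h - 1` is onto -/
def Nice {V : Type} [AddCommGroup V] [Module F V] (h : V ≃ₗ[F] V) : Prop :=
  h = 1 ∨ ∀ v, ∃ y, h y = y + v

lemma Nice.swap {V : Type} [AddCommGroup V] [Module F V] {g h : V ≃ₗ[F] V} (H : Nice (g * h)) :
    Nice (h * g) := by
  rcases H with H | H
  · exact Or.inl (mul_eq_one_comm.1 H)
  · refine Or.inr fun v => ?_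
    obtain ⟨y, hy⟩ := H (g v)
    refine ⟨g.symm y, g.injective ?_⟩
    have h1 : (h * g) (g.symm y) = h y := by
      change h (g (g.symm y)) = _
      rw [g.apply_symm_apply]
    rw [h1, map_add, g.apply_symm_apply]
    exact hy

def syl {G : Type} [Group G] (a b : G) (s : ℤ × Bool) : G := a ^ s.1 * cond s.2 b b⁻¹

def prodL {G : Type} [Group G] (a b : G) (L : List (ℤ × Bool)) : G := (L.map (syl a b)).prod

section
variable {G : Type} [Group G] (a b : G)

@[simp] lemma prodL_nil : prodL a b [] = 1 := rfl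
@[simp] lemma prodL_cons (s : ℤ × Bool) (L : List (ℤ × Bool)) :
    prodL a b (s :: L) = syl a b s * prodL a b L := by simp [prodL]
@[simp] lemma prodL_append (L M : List (ℤ × Bool)) :
    prodL a b (L ++ M) = prodL a b L * prodL a b M := by simp [prodL]

lemma zpow_mul_form (j : ℤ) (L : List (ℤ × Bool)) (k : ℤ) :
    ∃ (L' : List (ℤ × Bool)) (k' : ℤ), a ^ j * (prodL a b L * a ^ k) = prodL a b L' * a ^ k' := by
  cases L with
  | nil => exact ⟨[], j + k, by simp [zpow_add]⟩
  | cons s L => exact ⟨(j + s.1, s.2) :: L, k, by simp [syl, zpow_add, mul_assoc]⟩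

lemma exists_form {h : G} (hh : h ∈ Subgroup.closure ({a, b} : Set G)) :
    ∃ (L : List (ℤ × Bool)) (k : ℤ), h = prodL a b L * a ^ k := by
  induction hh using Subgroup.closure_induction_left with
  | one => exact ⟨[], 0, by simp⟩
  | mul_left g hg h _ ih =>
    obtain ⟨L, k, rfl⟩ := ih
    rcases hg with rfl | rfl
    · simpa using zpow_mul_form g b 1 L k
    · exact ⟨(0, true) :: L, k, by simp [syl, mul_assoc]⟩
  | inv_mul_cancel g hg h _ ih =>
    obtain ⟨L, k, rfl⟩ := ih
    rcases hg with rfl | rfl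
    · simpa using zpow_mul_form g b (-1) L k
    · exact ⟨(0, false) :: L, k, by simp [syl, mul_assoc]⟩

lemma syl_cancel {p q : ℤ × Bool} (h : ¬ Cond p q) : syl a b p * syl a b q = a ^ p.1 := by
  unfold Cond at h
  push Not at h
  obtain ⟨h1, h2⟩ := h
  obtain ⟨k, ε⟩ := p
  obtain ⟨l, δ⟩ := q
  simp only at h1 h2
  subst h2
  cases ε <;> cases δ <;> simp_all [syl]

end

variable {x : K} {α β : (ℕ →₀ K) ≃ₗ[F] (ℕ →₀ K)}

lemma eval_sound (hx0 : x ≠ 0) (hα : ∀ (k : ℤ) v, (α ^ k) v = x ^ k • v) :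
    ∀ {L : List (ℤ × Bool)} {y z : ℕ →₀ K}, Eval x β.toLinearMap.graph L y z → prodL α β L y = z
  | [], _, _, h => h.symm
  | s :: L, y, z, ⟨u, h1, h2⟩ => by
    have h3 := eval_sound hx0 hα h1
    rw [prodL_cons]
    change (α ^ s.1) ((cond s.2 β β⁻¹) (prodL α β L y)) = z
    have h4 : (cond s.2 β β⁻¹) u = x ^ (-s.1) • z := by
      revert h2
      cases s.2
      · intro h2
        have : u = β (x ^ (-s.1) • z) := h2
        rw [this]
        exact β.symm_apply_apply _
      · intro h2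
        exact (show x ^ (-s.1) • z = β u from h2).symm
    rw [h3, h4, hα, smul_smul, ← zpow_add₀ hx0, add_neg_cancel, zpow_zero, one_smul]

lemma nice_form (hx0 : x ≠ 0) (hx : ∀ k : ℤ, k ≠ 0 → ∀ c : F, x ^ k ≠ algebraMap F K c)
    (hα : ∀ (k : ℤ) v, (α ^ k) v = x ^ k • v) (hβ : ∀ r, Sat x β.toLinearMap.graph r) (n : ℕ) :
    ∀ (L : List (ℤ × Bool)) (k : ℤ), L.length = n → Nice (prodL α β L * α ^ k) := by
  induction n using Nat.strong_induction_on with
  | _ n ih =>
  intro L k hn
  cases L with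
  | nil =>
    by_cases hk : k = 0
    · exact Or.inl (by simp [hk])
    · refine Or.inr fun v => ⟨(x ^ k - 1)⁻¹ • v, ?_⟩
      have h1 : x ^ k - 1 ≠ 0 := sub_ne_zero.2 (by simpa using hx k hk 1)
      rw [prodL_nil, one_mul, hα, smul_smul]
      nth_rewrite 3 [← one_smul K v]
      rw [← add_smul]
      congr 1
      field_simp
      ring
  | cons s L =>
    apply Nice.swap
    have e1 : α ^ k * prodL α β (s :: L) = prodL α β ((k + s.1, s.2) :: L) := by
      simp [syl, zpow_add, mul_assoc]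
    rw [e1]
    have hlen : ((k + s.1, s.2) :: L).length = n := hn
    have hne : ((k + s.1, s.2) :: L) ≠ [] := by simp
    generalize ((k + s.1, s.2) :: L) = M at hlen hne
    by_cases hc : Cyc M
    · refine Or.inr fun v => ?_
      obtain ⟨y, hy⟩ := (hβ (true, M, v)).2.1 hc
      exact ⟨y, eval_sound hx0 hα hy⟩
    · obtain ⟨M', last, rfl⟩ : ∃ M' last, M = M' ++ [last] :=
        ⟨M.dropLast, M.getLast hne, (List.dropLast_append_getLast hne).symm⟩
      have h1 : ¬ List.IsChain Cond (last :: (M' ++ [last])) := fun h => hc ⟨M', last, rfl, h⟩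
      rw [List.isChain_iff_forall_rel_of_append_cons_cons] at h1
      push Not at h1
      obtain ⟨p, q, l₁, l₂, h2, h3⟩ := h1
      cases l₁ with
      | nil =>
        simp only [List.nil_append, List.cons.injEq] at h2
        obtain ⟨rfl, h2⟩ := h2
        cases M' with
        | nil =>
          simp only [List.nil_append, List.cons.injEq] at h2
          exact absurd (fun h => absurd (by rw [h2.1]) h) h3
        | cons q' M'' =>
          simp only [List.cons_append, List.cons.injEq] at h2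
          obtain ⟨rfl, _⟩ := h2
          rw [List.cons_append, prodL_cons]
          apply Nice.swap
          rw [prodL_append, prodL_cons, prodL_nil, mul_one, mul_assoc, syl_cancel _ _ h3]
          exact ih M''.length (by simp at hlen; omega) M'' _ rfl
      | cons r l₁ =>
        simp only [List.cons_append, List.cons.injEq] at h2
        rw [h2.2] at hlen ⊢
        rw [prodL_append, prodL_cons, prodL_cons, ← mul_assoc (syl α β p), syl_cancel _ _ h3,
          ← mul_assoc]
        apply Nice.swap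
        rw [← mul_assoc, ← prodL_append]
        exact ih (l₂ ++ l₁).length (by simp at hlen ⊢; omega) _ _ rfl

theorem exists_module [Finite F] [Countable K] (hx0 : x ≠ 0)
    (hx : ∀ k : ℤ, k ≠ 0 → ∀ c : F, x ^ k ≠ algebraMap F K c) :
    ∃ α β : (ℕ →₀ K) ≃ₗ[F] (ℕ →₀ K), (∀ (k : ℤ) v, (α ^ k) v = x ^ k • v) ∧
      (∀ v, v ≠ 0 → ∃ m : ℕ, β (x ^ m • Finsupp.single 0 1) = x ^ m • v) ∧
      ∀ h ∈ Subgroup.closure ({α, β} : Set ((ℕ →₀ K) ≃ₗ[F] (ℕ →₀ K))), Nice h := by
  obtain ⟨β, hβ⟩ := exists_graph hx0 hx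
  let α : (ℕ →₀ K) ≃ₗ[F] (ℕ →₀ K) := (LinearEquiv.smulOfNeZero K (ℕ →₀ K) x hx0).restrictScalars F
  have h1 : ∀ v, α v = x • v := fun v => rfl
  have h2 : ∀ v, α⁻¹ v = x⁻¹ • v := by
    intro v
    apply α.injective
    rw [h1 (x⁻¹ • v), smul_smul, mul_inv_cancel₀ hx0, one_smul]
    exact α.apply_symm_apply v
  have hα : ∀ (k : ℤ) v, (α ^ k) v = x ^ k • v := by
    intro k
    induction k using Int.induction_on with
    | zero => intro v; simp
    | succ k ih =>
      intro v
      rw [zpow_add_one, zpow_add_one₀ hx0, mul_smul, ← h1, ← ih]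
      rfl
    | pred k ih =>
      intro v
      rw [zpow_sub_one, zpow_sub_one₀ hx0, mul_smul, ← h2, ← ih]
      rfl
  refine ⟨α, β, hα, fun v hv => ?_, fun h hh => ?_⟩
  · obtain ⟨m, hm⟩ := (hβ (true, [], v)).2.2 hv
    exact ⟨m, (show x ^ m • v = β _ from hm).symm⟩
  · obtain ⟨L, k, rfl⟩ := exists_form α β hh
    exact nice_form hx0 hx hα hβ _ L k rfl

end Pool.Agent.H568Z.Conj
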