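import Pool.Agent.H568Z.ConjLamp
import Pool.Agent.H568Z.ConjSurj

set_option autoImplicit false

namespace Pool.Agent.H568Z.Conj

open Filter

instance fact41 : Fact (Nat.Prime 41) := ⟨by norm_num⟩

abbrev FF : Type := ZMod 41
abbrev KK : Type := RatFunc FF
abbrev VV : Type := ℕ →₀ KK
abbrev Om : Type := Aff FF VV × Aff (ZMod 7) LM

lemma countable_KK : Countable KK := by
  have h1 : Countable (Polynomial FF) := by
    rw [← Cardinal.mk_le_aleph0_iff]
    refine Polynomial.cardinalMk_le_max.trans (max_le ?_ le_rfl)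
    exact Cardinal.mk_le_aleph0
  refine Function.Surjective.countable (f := fun p : Polynomial FF × Polynomial FF =>
    algebraMap (Polynomial FF) KK p.1 / algebraMap (Polynomial FF) KK p.2) fun r => ?_
  exact ⟨(r.num, r.denom), r.num_div_denom⟩

lemma X_zpow_ne (k : ℤ) (hk : k ≠ 0) (c : FF) : (RatFunc.X : KK) ^ k ≠ algebraMap FF KK c := by
  have key : ∀ n : ℕ, n ≠ 0 → ∀ c : FF, (RatFunc.X : KK) ^ n ≠ algebraMap FF KK c := by
    intro n hn c h
    exact (RatFunc.transcendental_X (K := FF)).pow (Nat.pos_of_ne_zero hn)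
      (h ▸ isAlgebraic_algebraMap c)
  intro h
  obtain ⟨n, rfl | rfl⟩ := k.eq_nat_or_neg
  · exact key n (by omega) c (by simpa using h)
  · refine key n (by omega) c⁻¹ ?_
    rw [map_inv₀, ← h, zpow_neg, inv_inv, zpow_natCast]

noncomputable def poly : List FF → Polynomial FF
  | [] => 0
  | c :: l => Polynomial.C c + Polynomial.X * poly l

lemma poly_inj : ∀ l l' : List FF, l.length = l'.length → poly l = poly l' → l = l'
  | [], [], _, _ => rfl
  | [], _ :: _, h, _ => by simp at h
  | _ :: _, [], h, _ => by simp at h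
  | c :: l, c' :: l', h, h' => by
    have h1 : c = c' := by simpa [poly] using congrArg (fun p => p.coeff 0) h'
    subst h1
    have h2 : poly l = poly l' :=
      mul_left_cancel₀ Polynomial.X_ne_zero (add_left_cancel (show _ + _ = _ + _ from h'))
    rw [poly_inj l l' (by simpa using h) h2]

noncomputable def v0 : VV := Finsupp.single 0 1

noncomputable def tr (v : VV) : Om := (⟨v, 1⟩, 1)
noncomputable def li : (VV ≃ₗ[FF] VV) →* Om := (MonoidHom.inl _ _).comp Aff.lin
noncomputable def la (c : ZMod 7) : Om := (1, lamp c)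

lemma tr_mul (v w : VV) : tr v * tr w = tr (v + w) := Prod.ext (Aff.ext rfl rfl) (mul_one _)

lemma tr_zero : tr 0 = 1 := rfl

lemma li_tr (k : VV ≃ₗ[FF] VV) (v : VV) : li k * tr v * (li k)⁻¹ = tr (k v) := by
  rw [mul_inv_eq_iff_eq_mul]
  exact Prod.ext (Aff.ext (by simp [li, tr]) (by simp [li, tr])) (by simp [li, tr])

/-- forget the translation part of the first coordinate -/
noncomputable def proj : Om →* Om := (Aff.lin.comp Aff.toLin).prodMap (MonoidHom.id _)

lemma eq_tr_mul_proj (g : Om) : g = tr g.1.v * proj g :=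
  Prod.ext (Aff.ext (by simp [tr, proj]) (by simp [tr, proj, Aff.toLin])) (by simp [tr, proj])

lemma tr_conj (g : Om) (y : VV) (hy : g.1.h y = y + g.1.v) : tr y * g * (tr y)⁻¹ = proj g := by
  rw [mul_inv_eq_iff_eq_mul]
  exact Prod.ext (Aff.ext (by simp [tr, proj, Aff.toLin, hy]) (by simp [tr, proj, Aff.toLin]))
    (by simp [tr, proj])

lemma li_conj (g : Om) (k : VV ≃ₗ[FF] VV) (hg : g.1.h = 1) :
    li k * g * (li k)⁻¹ = tr (k g.1.v) * proj g := by
  rw [mul_inv_eq_iff_eq_mul]
  exact Prod.ext (Aff.ext (by simp [tr, proj, li, Aff.toLin]) (by simp [tr, proj, li, Aff.toLin, hg]))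
    (by simp [tr, proj, li])

theorem main : ∃ (G : Type) (_ : Group G) (S T : Finset G), Subgroup.closure (S : Set G) = ⊤ ∧
      Subgroup.closure (T : Set G) = ⊤ ∧
      limsup (fun n : ℕ => ((ConjClasses.mk '' ball S n).ncard : ℝ) ^ ((1 : ℝ) / (n : ℝ))) atTop =
        limsup (fun n : ℕ => ((ball S n).ncard : ℝ) ^ ((1 : ℝ) / (n : ℝ))) atTop ∧
      limsup (fun n : ℕ => ((ConjClasses.mk '' ball T n).ncard : ℝ) ^ ((1 : ℝ) / (n : ℝ))) atTop <
        limsup (fun n : ℕ => ((ball T n).ncard : ℝ) ^ ((1 : ℝ) / (n : ℝ))) atTop := by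
  classical
  haveI := countable_KK
  obtain ⟨α, β, hα, htr, hnice⟩ := exists_module (F := FF) (RatFunc.X_ne_zero (K := FF)) X_zpow_ne
  let La : Finset Om := Finset.univ.image la
  let SG : Finset (Aff FF VV) := {Aff.lin α, Aff.lin β, ⟨v0, 1⟩}
  let S : Finset Om := insert (li α) (insert (li β) (insert (tr v0) La))
  let T : Finset Om := insert (li β) (Finset.univ.image (fun c : FF => tr (c • v0) * li α) ∪ La)
  let T0 : Finset Om := insert (li α) (insert (li β) La)
  let H : Subgroup Om := Subgroup.closure (S : Set Om)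
  have hSH : ∀ x ∈ S, x ∈ H := fun x hx => Subgroup.subset_closure hx
  have hαH : li α ∈ H := hSH _ (by simp [S])
  have hβH : li β ∈ H := hSH _ (by simp [S])
  have hτH : tr v0 ∈ H := hSH _ (by simp [S])
  have hlaH : ∀ c, la c ∈ H := fun c => hSH _ (by simp [S, La])
  have hconn : ∀ v, v ≠ 0 → ∃ k : VV ≃ₗ[FF] VV, li k ∈ H ∧ k v0 = v := by
    intro v hv
    obtain ⟨m, hm⟩ := htr v hv
    refine ⟨α ^ (-(m : ℤ)) * β * α ^ (m : ℤ), ?_, ?_⟩
    · rw [map_mul, map_mul, map_zpow, map_zpow]
      exact H.mul_mem (H.mul_mem (H.zpow_mem hαH _) hβH) (H.zpow_mem hαH _)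
    · change (α ^ (-(m : ℤ))) (β ((α ^ (m : ℤ)) v0)) = v
      rw [hα, hα, zpow_natCast, v0, hm, smul_smul, zpow_neg, zpow_natCast,
        inv_mul_cancel₀ (pow_ne_zero _ RatFunc.X_ne_zero), one_smul]
  have htrH : ∀ v, tr v ∈ H := by
    intro v
    by_cases hv : v = 0
    · rw [hv, tr_zero]; exact H.one_mem
    · obtain ⟨k, hk, rfl⟩ := hconn v hv
      rw [← li_tr]
      exact H.mul_mem (H.mul_mem hk hτH) (H.inv_mem hk)
  have hTH : ∀ x ∈ T, x ∈ H := by
    intro x hx
    simp only [T, La, Finset.mem_insert, Finset.mem_union, Finset.mem_image] at hx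
    rcases hx with rfl | ⟨c, _, rfl⟩ | ⟨c, _, rfl⟩
    exacts [hβH, H.mul_mem (htrH _) hαH, hlaH c]
  have hT : Subgroup.closure (T : Set Om) = H := by
    refine le_antisymm ((Subgroup.closure_le _).2 hTH) ((Subgroup.closure_le _).2 ?_)
    have h0 : ∀ c : FF, tr (c • v0) * li α ∈ Subgroup.closure (T : Set Om) := fun c =>
      Subgroup.subset_closure (by simp [T])
    have h1 : li α ∈ Subgroup.closure (T : Set Om) := by
      simpa [tr_zero] using h0 0
    intro x hx
    simp only [S, La, Finset.coe_insert, Set.mem_insert_iff, Finset.coe_image, Set.mem_image] at hx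
    rcases hx with rfl | rfl | rfl | ⟨c, _, rfl⟩
    · exact h1
    · exact Subgroup.subset_closure (by simp [T])
    · have := Subgroup.mul_mem _ (h0 1) (Subgroup.inv_mem _ h1)
      simpa using this
    · exact Subgroup.subset_closure (by simp [T, La])
  refine exists_of_counts S T H rfl hT ?_ ?_ ?_ ?_
  · intro n
    have hsub : ball S n ⊆ ⋃ i ∈ Finset.range (n + 1), ball SG i ×ˢ Box (n - i) := by
      intro g hg
      have := ball_induction (P := fun n (g : Om) => ∃ i j, i + j = n ∧ g.1 ∈ ball SG i ∧ g.2 ∈ Box j)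
        (fun n => ⟨0, n, by simp, one_mem_ball _ _, one_mem_Box _⟩)
        (fun n x g hx ⟨i, j, h1, h2, h3⟩ => by
          have hcase : ∀ y ∈ S, (y.1 ∈ SG ∧ y.2 = 1) ∨ (y.1 = 1 ∧ ∃ c, y.2 = lamp c) := by
            intro y hy
            simp only [S, La, Finset.mem_insert, Finset.mem_image] at hy
            rcases hy with rfl | rfl | rfl | ⟨c, _, rfl⟩
            · exact Or.inl ⟨by simp [SG, li], rfl⟩
            · exact Or.inl ⟨by simp [SG, li], rfl⟩
            · exact Or.inl ⟨by simp [SG, tr], rfl⟩
            · exact Or.inr ⟨rfl, c, rfl⟩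
          rcases hx with hx | hx
          · rcases hcase x hx with ⟨a1, a2⟩ | ⟨a1, c, a2⟩
            · exact ⟨i + 1, j, by omega, mul_mem_ball (Or.inl a1) h2, by simpa [a2] using h3⟩
            · exact ⟨i, j + 1, by omega, by simpa [a1] using h2,
                by simpa [a2] using lamp_mul_mem h3 c⟩
          · rcases hcase _ hx with ⟨a1, a2⟩ | ⟨a1, c, a2⟩
            · have a3 : x.2 = 1 := inv_eq_one.1 a2
              exact ⟨i + 1, j, by omega, mul_mem_ball (Or.inr a1) h2, by simpa [a3] using h3⟩
            · have a3 : x.1 = 1 := inv_eq_one.1 a1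
              have a4 : x.2 = (lamp c)⁻¹ := inv_eq_iff_eq_inv.1 a2
              exact ⟨i, j + 1, by omega, by simpa [a3] using h2,
                by simpa [a4] using lamp_inv_mul_mem h3 c⟩) hg
      obtain ⟨i, j, h1, h2, h3⟩ := this
      simp only [Set.mem_iUnion]
      exact ⟨i, Finset.mem_range.2 (by omega), h2, by rwa [show n - i = j by omega]⟩
    refine (Set.ncard_le_ncard hsub ((Finset.finite_toSet _).biUnion fun i _ =>
      (finite_ball _ _).prod (Box_card _).1)).trans ((Finset.set_ncard_biUnion_le _ _).trans ?_)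
    refine (Finset.sum_le_card_nsmul _ _ ((n + 1) ^ 2 * 7 ^ n) fun i hi => ?_).trans
      (by rw [Finset.card_range, smul_eq_mul]; exact le_of_eq (by ring))
    rw [Set.ncard_prod]
    have h1 : (ball SG i).ncard ≤ 7 ^ i := by
      refine (ncard_ball_le SG i).trans (Nat.pow_le_pow_left ?_ _)
      have : SG.card ≤ 3 := Finset.card_le_three
      omega
    have h2 := (Box_card (n - i)).2
    have h3 : i ≤ n := by have := Finset.mem_range.1 hi; omega
    calc _ ≤ 7 ^ i * ((n - i + 1) ^ 2 * 7 ^ (n - i)) := Nat.mul_le_mul h1 h2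
      _ = (n - i + 1) ^ 2 * 7 ^ (i + (n - i)) := by ring
      _ ≤ (n + 1) ^ 2 * 7 ^ n := by
        rw [show i + (n - i) = n by omega]
        exact Nat.mul_le_mul_right _ (Nat.pow_le_pow_left (by omega) _)
  · intro n hn
    refine ⟨fun φ => (1, lampWord (List.ofFn φ)), fun φ => ?_, fun φ => ?_⟩
    · refine ⟨(List.ofFn φ).map la, by simp, ?_, ?_⟩
      · intro x hx
        obtain ⟨c, _, rfl⟩ := List.mem_map.1 hx
        exact Or.inl (by simp [S, La])
      · have : (List.ofFn φ).map la = ((List.ofFn φ).map lamp).map (MonoidHom.inr _ _) := by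
          rw [List.map_map]; rfl
        rw [this, ← map_list_prod]
        rfl
    · refine le_trans (Set.ncard_le_ncard ?_ (Set.toFinite _)) (fiber_bound n hn φ)
      rintro ψ ⟨c, hc, h⟩
      refine ⟨c.2, ?_, congrArg Prod.snd h⟩
      have : H ≤ (Subgroup.zpowers sh).comap (Aff.toLin.comp (MonoidHom.snd _ _)) := by
        refine (Subgroup.closure_le _).2 fun x hx => ?_
        simp only [S, La, Finset.coe_insert, Set.mem_insert_iff, Finset.coe_image,
          Set.mem_image] at hx
        rcases hx with rfl | rfl | rfl | ⟨c, _, rfl⟩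
        · exact Subgroup.one_mem (Subgroup.zpowers sh)
        · exact Subgroup.one_mem (Subgroup.zpowers sh)
        · exact Subgroup.one_mem (Subgroup.zpowers sh)
        · exact Subgroup.mem_zpowers sh
      obtain ⟨k, hk⟩ := this hc
      exact ⟨k, hk.symm⟩
  · intro n
    refine ⟨ball T0 n ∪ (fun g => tr v0 * g) '' ball T0 n,
      (finite_ball _ _).union ((finite_ball _ _).image _), ?_, ?_⟩
    · refine (Set.ncard_union_le _ _).trans ?_
      have h1 : (ball T0 n).ncard ≤ 19 ^ n := by
        refine (ncard_ball_le T0 n).trans (Nat.pow_le_pow_left ?_ _)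
        have a1 : La.card ≤ 7 := Finset.card_image_le.trans (by simp)
        have a2 := Finset.card_insert_le (li β) La
        have a3 := Finset.card_insert_le (li α) (insert (li β) La)
        simp only [T0]
        omega
      have h2 := Set.ncard_image_le (f := fun g => tr v0 * g) (finite_ball T0 n)
      omega
    · intro g hg
      have hT0 : ∀ x ∈ T, proj x ∈ T0 := by
        intro x hx
        simp only [T, La, Finset.mem_insert, Finset.mem_union, Finset.mem_image] at hx
        rcases hx with rfl | ⟨c, _, rfl⟩ | ⟨c, _, rfl⟩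
        · have : proj (li β) = li β := rfl
          simp [T0, this]
        · have : proj (tr (c • v0) * li α) = li α :=
            Prod.ext (Aff.ext rfl (one_mul _)) (one_mul _)
          simp [T0, this]
        · have : proj (la c) = la c := rfl
          simp [T0, La, this]
      have h1 : proj g ∈ ball T0 n :=
        ball_induction (P := fun n g => proj g ∈ ball T0 n)
          (fun n => by rw [map_one]; exact one_mem_ball _ _)
          (fun n x g hx hg => by
            rw [map_mul]
            refine mul_mem_ball (hx.imp (hT0 x) fun h => ?_) hg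
            rw [← map_inv]
            exact hT0 _ h) hg
      have h2 : g.1.h ∈ Subgroup.closure ({α, β} : Set (VV ≃ₗ[FF] VV)) := by
        have : H ≤ (Subgroup.closure ({α, β} : Set (VV ≃ₗ[FF] VV))).comap
            (Aff.toLin.comp (MonoidHom.fst _ _)) := by
          refine (Subgroup.closure_le _).2 fun x hx => ?_
          simp only [S, La, Finset.coe_insert, Set.mem_insert_iff, Finset.coe_image,
            Set.mem_image] at hx
          rcases hx with rfl | rfl | rfl | ⟨c, _, rfl⟩
          · exact Subgroup.subset_closure (k := {α, β}) (Or.inl rfl)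
          · exact Subgroup.subset_closure (k := {α, β}) (Or.inr rfl)
          · exact Subgroup.one_mem (Subgroup.closure {α, β})
          · exact Subgroup.one_mem (Subgroup.closure {α, β})
        exact this (mem_of_mem_ball hTH hg)
      rcases hnice _ h2 with h3 | h3
      · by_cases hv : g.1.v = 0
        · refine ⟨1, H.one_mem, Or.inl ?_⟩
          have := eq_tr_mul_proj g
          rw [hv, tr_zero, one_mul] at this
          simpa [← this] using h1
        · obtain ⟨k, hk, hk'⟩ := hconn _ hv
          refine ⟨li k⁻¹, by rw [map_inv]; exact H.inv_mem hk, Or.inr ⟨_, h1, ?_⟩⟩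
          rw [li_conj g _ h3, ← hk']
          have : k⁻¹ (k v0) = v0 := k.symm_apply_apply v0
          rw [this]
      · obtain ⟨y, hy⟩ := h3 g.1.v
        exact ⟨tr y, htrH y, Or.inl (by rw [tr_conj g y hy]; exact h1)⟩
  · intro n
    let w : List FF → Om := fun l => (l.map fun c => tr (c • v0) * li α).prod
    have hw : ∀ l, (w l).1.v = algebraMap (Polynomial FF) KK (poly l) • v0 := by
      intro l
      induction l with
      | nil => simp [w, poly]
      | cons c l ih =>
        have e : w (c :: l) = tr (c • v0) * li α * w l := by simp [w]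
        have e2 : (tr (c • v0) * li α * w l).1.v = c • v0 + α (w l).1.v := by simp [tr, li]
        have e3 := hα 1 (w l).1.v
        rw [zpow_one, zpow_one] at e3
        rw [e, e2, e3, ih, poly, map_add, map_mul, add_smul, mul_smul, RatFunc.algebraMap_X,
          RatFunc.algebraMap_C, ← RatFunc.algebraMap_eq_C, algebraMap_smul KK c]
    have hinj : Function.Injective fun φ : Fin n → FF => w (List.ofFn φ) := by
      intro φ ψ h
      have h1 := congrArg (fun g : Om => g.1.v) h
      simp only [hw] at h1
      have h2 := smul_left_injective KK (show v0 ≠ 0 by simp [v0]) h1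
      exact List.ofFn_injective (poly_inj _ _ (by simp) (RatFunc.algebraMap_injective FF h2))
    have := Set.ncard_le_ncard_of_injOn (s := Set.univ) (t := ball T n)
      (fun φ : Fin n → FF => w (List.ofFn φ)) (fun φ _ => by
        refine ⟨_, by simp, ?_, rfl⟩
        intro x hx
        obtain ⟨c, _, rfl⟩ := List.mem_map.1 hx
        exact Or.inl (by simp [T])) hinj.injOn (finite_ball _ _)
    simpa [Set.ncard_univ] using this

end Pool.Agent.H568Z.Conj
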