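import Mathlib

set_option autoImplicit false

namespace Pool.Agent.H568Z.Conj

variable {F K : Type} [Field F] [Field K] [Algebra F K]

/-- one of the two projections -/
def sd (F : Type) (V : Type) [Field F] [AddCommGroup V] [Module F V] : Bool → (V × V →ₗ[F] V)
  | true => LinearMap.fst F V V
  | false => LinearMap.snd F V V

def pr {V : Type} : Bool → V → V → V × V
  | true, u, z => (u, z)
  | false, u, z => (z, u)

section
variable {V : Type} [AddCommGroup V] [Module F V]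

@[simp] lemma sd_pr (ε : Bool) (u z : V) : sd F V ε (pr ε u z) = u := by cases ε <;> rfl
@[simp] lemma sd_not_pr (ε : Bool) (u z : V) : sd F V (!ε) (pr ε u z) = z := by cases ε <;> rfl

/-- finite partial linear bijections, given by their graphs -/
def Good (Γ : Submodule F (V × V)) : Prop :=
  (Γ : Set (V × V)).Finite ∧ ∀ ε, ∀ p ∈ Γ, sd F V ε p = 0 → p = 0

def ext (Γ : Submodule F (V × V)) (q : V × V) : Submodule F (V × V) := Γ ⊔ F ∙ q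

lemma mem_ext {Γ : Submodule F (V × V)} {q p : V × V} :
    p ∈ ext Γ q ↔ ∃ γ ∈ Γ, ∃ c : F, p = γ + c • q := by
  simp only [ext, Submodule.mem_sup, Submodule.mem_span_singleton]
  constructor
  · rintro ⟨γ, hγ, _, ⟨c, rfl⟩, rfl⟩
    exact ⟨γ, hγ, c, rfl⟩
  · rintro ⟨γ, hγ, c, rfl⟩
    exact ⟨γ, hγ, _, ⟨c, rfl⟩, rfl⟩

lemma le_ext (Γ : Submodule F (V × V)) (q : V × V) : Γ ≤ ext Γ q := le_sup_left

lemma self_mem_ext (Γ : Submodule F (V × V)) (q : V × V) : q ∈ ext Γ q :=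
  mem_ext.2 ⟨0, Γ.zero_mem, 1, by simp⟩

lemma Good.ext [Finite F] {Γ : Submodule F (V × V)} (h : Good Γ) (q : V × V)
    (hq : ∀ ε, ∀ p ∈ Γ, sd F V ε p ≠ sd F V ε q) : Good (ext Γ q) := by
  refine ⟨?_, ?_⟩
  · refine (Set.Finite.image2 (fun (γ : V × V) (c : F) => γ + c • q) h.1 Set.finite_univ).subset ?_
    intro p hp
    obtain ⟨γ, hγ, c, rfl⟩ := mem_ext.1 hp
    exact ⟨γ, hγ, c, trivial, rfl⟩
  · intro ε p hp h0
    obtain ⟨γ, hγ, c, rfl⟩ := mem_ext.1 hp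
    by_cases hc : c = 0
    · subst hc
      rw [zero_smul, add_zero] at h0 ⊢
      exact h.2 ε γ hγ h0
    · exfalso
      refine hq ε ((-c⁻¹) • γ) (Γ.smul_mem _ hγ) ?_
      rw [map_add, map_smul] at h0
      rw [map_smul, eq_neg_of_add_eq_zero_left h0, smul_neg, neg_smul, neg_neg, smul_smul,
        inv_mul_cancel₀ hc, one_smul]

end

lemma Good.exists_fresh {Γ : Submodule F ((ℕ →₀ K) × (ℕ →₀ K))} (h : Good Γ) (M : ℕ) :
    ∃ i, M < i ∧ ∀ ε, ∀ p ∈ Γ, sd F (ℕ →₀ K) ε p i = 0 := by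
  classical
  obtain ⟨N, hN⟩ := (h.1.toFinset.biUnion (fun p => p.1.support ∪ p.2.support)).bddAbove
  refine ⟨max N M + 1, by omega, fun ε p hp => ?_⟩
  by_contra hne
  have : max N M + 1 ≤ N := hN (by
    simp only [Finset.coe_biUnion, Set.mem_iUnion]
    refine ⟨p, by simpa using hp, ?_⟩
    cases ε
    · exact Finset.mem_coe.2 (Finset.mem_union_right _ (Finsupp.mem_support_iff.2 hne))
    · exact Finset.mem_coe.2 (Finset.mem_union_left _ (Finsupp.mem_support_iff.2 hne)))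
  omega

def Eval (x : K) (Γ : Submodule F ((ℕ →₀ K) × (ℕ →₀ K))) :
    List (ℤ × Bool) → (ℕ →₀ K) → (ℕ →₀ K) → Prop
  | [], y, z => z = y
  | s :: L, y, z => ∃ u, Eval x Γ L y u ∧ pr s.2 u (x ^ (-s.1) • z) ∈ Γ

lemma Eval.mono {x : K} {Γ Γ' : Submodule F ((ℕ →₀ K) × (ℕ →₀ K))} (h : Γ ≤ Γ') :
    ∀ {L : List (ℤ × Bool)} {y z : ℕ →₀ K}, Eval x Γ L y z → Eval x Γ' L y z
  | [], _, _, h' => h'
  | _ :: _, _, _, ⟨u, h1, h2⟩ => ⟨u, Eval.mono h h1, h h2⟩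

def Arr (Γ : Submodule F ((ℕ →₀ K) × (ℕ →₀ K))) (i : ℕ) (ε : Bool) : Prop :=
  ∀ p ∈ Γ, sd F (ℕ →₀ K) (!ε) p i = 0 ∧ ∃ c : F, sd F (ℕ →₀ K) ε p i = algebraMap F K c

/-- no cancellation between consecutive syllables -/
def Cond (s t : ℤ × Bool) : Prop := s.2 ≠ t.2 → t.1 ≠ 0

variable [Finite F] {x : K} (hx0 : x ≠ 0) (hx : ∀ k : ℤ, k ≠ 0 → ∀ c : F, x ^ k ≠ algebraMap F K c)
include hx0 hx

lemma step {Γ : Submodule F ((ℕ →₀ K) × (ℕ →₀ K))} (h : Good Γ) {i : ℕ} {s0 s : ℤ × Bool}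
    (ha : Arr Γ i s0.2) (hc : Cond s0 s) (u : ℕ →₀ K) (hu : ∀ p ∈ Γ, sd F (ℕ →₀ K) s.2 p ≠ u) :
    Good (ext Γ (pr s.2 u (x ^ (-s.1) • Finsupp.single i 1))) := by
  refine h.ext _ fun ε p hp => ?_
  by_cases hε : ε = s.2
  · subst hε
    rw [sd_pr]
    exact hu p hp
  · have hε' : ε = !s.2 := by
      revert hε
      cases ε <;> cases s.2 <;> simp
    subst hε'
    rw [sd_not_pr]
    intro he
    have h1 : sd F (ℕ →₀ K) (!s.2) p i = x ^ (-s.1) := by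
      rw [he]; simp
    by_cases h2 : s0.2 = s.2
    · rw [← h2, (ha p hp).1] at h1
      exact zpow_ne_zero _ hx0 h1.symm
    · have h3 : (!s.2) = s0.2 := by
        revert h2
        cases s0.2 <;> cases s.2 <;> simp
      obtain ⟨c, hc'⟩ := (ha p hp).2
      rw [h3, hc'] at h1
      exact hx _ (neg_ne_zero.2 (hc h2)) c h1.symm

omit [Finite F] hx0 hx in
lemma arr_ext {Γ : Submodule F ((ℕ →₀ K) × (ℕ →₀ K))} {i : ℕ} (ε : Bool)
    (hi : ∀ ε, ∀ p ∈ Γ, sd F (ℕ →₀ K) ε p i = 0) (z : ℕ →₀ K) (hz : z i = 0) :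
    Arr (ext Γ (pr ε (Finsupp.single i 1) z)) i ε := by
  intro p hp
  obtain ⟨γ, hγ, c, rfl⟩ := mem_ext.1 hp
  simp only [map_add, map_smul, sd_pr, sd_not_pr, Finsupp.add_apply, Finsupp.smul_apply, hi _ γ hγ,
    hz, smul_zero, add_zero, zero_add, Finsupp.single_eq_same, true_and]
  exact ⟨c, by rw [Algebra.algebraMap_eq_smul_one]⟩

lemma path (last : ℤ × Bool) (N0 : ℕ) (t : ℕ →₀ K) (P : Submodule F ((ℕ →₀ K) × (ℕ →₀ K)))
    (hP0 : ∀ p : (ℕ →₀ K) × (ℕ →₀ K), p.1 N0 = 0 → p.2 N0 = 0 → p ∈ P)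
    (hPt : ∀ p ∈ P, sd F (ℕ →₀ K) last.2 p ≠ t) (L : List (ℤ × Bool)) :
    ∀ (Γ : Submodule F ((ℕ →₀ K) × (ℕ →₀ K))) (i : ℕ) (s0 : ℤ × Bool), Good Γ → Γ ≤ P → N0 < i →
      Arr Γ i s0.2 → List.IsChain Cond (s0 :: (L ++ [last])) →
      ∃ Γ', Good Γ' ∧ Γ ≤ Γ' ∧ Eval x Γ' (L ++ [last]) t (Finsupp.single i 1) := by
  induction L with
  | nil =>
    intro Γ i s0 h hP _ ha hc
    refine ⟨_, step hx0 hx h ha (List.isChain_cons_cons.1 hc).1 t (fun p hp => hPt p (hP hp)),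
      le_ext _ _, t, rfl, self_mem_ext _ _⟩
  | cons s L ih =>
    intro Γ i s0 h hP hi ha hc
    obtain ⟨j, hj, hfr⟩ := h.exists_fresh i
    obtain ⟨hc1, hc2⟩ := List.isChain_cons_cons.1 hc
    have hg := step hx0 hx h ha hc1 (Finsupp.single j 1) (fun p hp he => by
      have := hfr s.2 p hp
      rw [he] at this
      simp at this)
    obtain ⟨Γ', h1, h2, h3⟩ := ih _ j s hg (by
      refine sup_le hP ((Submodule.span_singleton_le_iff_mem _ _).2 (hP0 _ ?_ ?_)) <;>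
        cases s.2 <;> simp [pr, Finsupp.single_eq_of_ne, (show N0 ≠ i by omega),
          (show N0 ≠ j by omega)])
      (by omega) (arr_ext _ hfr _ (by simp [Finsupp.single_eq_of_ne, (show j ≠ i by omega)])) hc2
    exact ⟨Γ', h1, (le_ext _ _).trans h2, _, h3, h2 (self_mem_ext _ _)⟩

/-- cyclically reduced syllable lists -/
def Cyc (L : List (ℤ × Bool)) : Prop :=
  ∃ M last, L = M ++ [last] ∧ List.IsChain Cond (last :: L)

lemma solve {Γ : Submodule F ((ℕ →₀ K) × (ℕ →₀ K))} (h : Good Γ) {L : List (ℤ × Bool)}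
    (hL : Cyc L) (v : ℕ →₀ K) : ∃ Γ', Good Γ' ∧ Γ ≤ Γ' ∧ ∃ y, Eval x Γ' L y (y + v) := by
  obtain ⟨M, last, rfl, hc⟩ := hL
  obtain ⟨N, hN⟩ := v.support.bddAbove
  obtain ⟨i, hi, hfr⟩ := h.exists_fresh N
  have hv : v i = 0 := by
    by_contra hne
    have := hN (Finset.mem_coe.2 (Finsupp.mem_support_iff.2 hne))
    omega
  have ha : Arr Γ i last.2 := fun p hp => ⟨hfr _ p hp, 0, by rw [hfr _ p hp, map_zero]⟩
  have ht : (Finsupp.single i 1 - v : ℕ →₀ K) i = 1 := by simp [hv]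
  cases M with
  | nil =>
    refine ⟨_, step hx0 hx h ha (List.isChain_cons_cons.1 hc).1 (Finsupp.single i 1 - v)
      (fun p hp he => ?_), le_ext _ _, Finsupp.single i 1 - v, _, rfl, ?_⟩
    · have := hfr last.2 p hp
      rw [he, ht] at this
      exact one_ne_zero this
    · rw [sub_add_cancel]
      exact self_mem_ext _ _
  | cons s M =>
    obtain ⟨j, hj, hfr'⟩ := h.exists_fresh i
    obtain ⟨hc1, hc2⟩ := List.isChain_cons_cons.1 hc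
    have hg := step hx0 hx h ha hc1 (Finsupp.single j 1) (fun p hp he => by
      have := hfr' s.2 p hp
      rw [he] at this
      simp at this)
    let e : K := if last.2 = s.2 then 0 else x ^ (-s.1)
    let P : Submodule F ((ℕ →₀ K) × (ℕ →₀ K)) :=
      (F ∙ e).comap ((Finsupp.lapply i).comp (sd F (ℕ →₀ K) last.2))
    have hP : ∀ p, p ∈ P ↔ ∃ c : F, c • e = sd F (ℕ →₀ K) last.2 p i := fun p =>
      Submodule.mem_span_singleton
    obtain ⟨Γ', h1, h2, h3⟩ := path hx0 hx last i (Finsupp.single i 1 - v) P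
      (fun p h1 h2 => (hP p).2 ⟨0, by
        rw [zero_smul]
        cases last.2
        · exact h2.symm
        · exact h1.symm⟩)
      (fun p hp he => by
        obtain ⟨c, hc'⟩ := (hP p).1 hp
        rw [he, ht] at hc'
        by_cases h4 : last.2 = s.2
        · simp [e, h4] at hc'
        · simp only [e, if_neg h4] at hc'
          refine hx s.1 (hc1 h4) c ?_
          rw [Algebra.smul_def, zpow_neg, mul_inv_eq_one₀ (zpow_ne_zero _ hx0)] at hc'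
          exact hc'.symm)
      M _ j s hg (by
        refine sup_le (fun p hp => (hP p).2 ⟨0, by rw [zero_smul, hfr _ p hp]⟩)
          ((Submodule.span_singleton_le_iff_mem _ _).2 ((hP _).2 ⟨1, ?_⟩))
        rw [one_smul]
        by_cases h4 : last.2 = s.2
        · simp [e, h4, Finsupp.single_eq_of_ne, (show i ≠ j by omega)]
        · have h5 : last.2 = !s.2 := by
            revert h4
            cases last.2 <;> cases s.2 <;> simp
          simp only [e, if_neg h4]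
          rw [h5, sd_not_pr]
          simp)
      hj (arr_ext _ hfr' _ (by simp [Finsupp.single_eq_of_ne, (show j ≠ i by omega)])) hc2
    refine ⟨Γ', h1, (le_ext _ _).trans h2, Finsupp.single i 1 - v, _, h3, ?_⟩
    rw [sub_add_cancel]
    exact h2 (self_mem_ext _ _)

lemma pow_smul_inj {v : ℕ →₀ K} (hv : v ≠ 0) : Function.Injective fun m : ℕ => x ^ m • v := by
  intro m n hmn
  have h1 : x ^ m = x ^ n := smul_left_injective K hv hmn
  by_contra hne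
  refine hx ((m : ℤ) - n) (by omega) 1 ?_
  rw [zpow_sub₀ hx0, zpow_natCast, zpow_natCast, h1, map_one, div_self (pow_ne_zero _ hx0)]

lemma connect {Γ : Submodule F ((ℕ →₀ K) × (ℕ →₀ K))} (h : Good Γ) {u v : ℕ →₀ K} (hu : u ≠ 0)
    (hv : v ≠ 0) : ∃ Γ', Good Γ' ∧ Γ ≤ Γ' ∧ ∃ m : ℕ, (x ^ m • u, x ^ m • v) ∈ Γ' := by
  have h1 := (h.1.image Prod.fst).preimage (pow_smul_inj hx0 hx hu).injOn
  have h2 := (h.1.image Prod.snd).preimage (pow_smul_inj hx0 hx hv).injOn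
  obtain ⟨m, hm⟩ := (h1.union h2).exists_notMem
  refine ⟨_, h.ext (x ^ m • u, x ^ m • v) fun ε p hp he => hm ?_, le_ext _ _, m, self_mem_ext _ _⟩
  cases ε
  · exact Or.inr ⟨p, hp, he⟩
  · exact Or.inl ⟨p, hp, he⟩

omit hx0 hx in
lemma total {Γ : Submodule F ((ℕ →₀ K) × (ℕ →₀ K))} (h : Good Γ) (ε : Bool) (v : ℕ →₀ K) :
    ∃ Γ', Good Γ' ∧ Γ ≤ Γ' ∧ ∃ p ∈ Γ', sd F (ℕ →₀ K) ε p = v := by
  by_cases hv : ∃ p ∈ Γ, sd F (ℕ →₀ K) ε p = v
  · exact ⟨Γ, h, le_rfl, hv⟩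
  obtain ⟨i, _, hfr⟩ := h.exists_fresh 0
  refine ⟨_, h.ext (pr ε v (Finsupp.single i 1)) fun ε' p hp he => ?_, le_ext _ _, _,
    self_mem_ext _ _, sd_pr _ _ _⟩
  by_cases hε : ε' = ε
  · subst hε
    rw [sd_pr] at he
    exact hv ⟨p, hp, he⟩
  · have hε' : ε' = !ε := by
      revert hε
      cases ε <;> cases ε' <;> simp
    subst hε'
    have := hfr (!ε) p hp
    rw [he, sd_not_pr] at this
    simp at this

def Sat (x : K) (Γ : Submodule F ((ℕ →₀ K) × (ℕ →₀ K)))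
    (r : Bool × List (ℤ × Bool) × (ℕ →₀ K)) : Prop :=
  (∃ p ∈ Γ, sd F (ℕ →₀ K) r.1 p = r.2.2) ∧ (Cyc r.2.1 → ∃ y, Eval x Γ r.2.1 y (y + r.2.2)) ∧
    (r.2.2 ≠ 0 → ∃ m : ℕ, (x ^ m • Finsupp.single 0 1, x ^ m • r.2.2) ∈ Γ)

omit [Finite F] hx0 hx in
lemma Sat.mono {Γ Γ' : Submodule F ((ℕ →₀ K) × (ℕ →₀ K))} (h : Γ ≤ Γ') {r} (hr : Sat x Γ r) :
    Sat x Γ' r := by
  obtain ⟨⟨p, hp, h1⟩, h2, h3⟩ := hr
  refine ⟨⟨p, h hp, h1⟩, fun hc => ?_, fun hv => ?_⟩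
  · obtain ⟨y, hy⟩ := h2 hc
    exact ⟨y, hy.mono h⟩
  · obtain ⟨m, hm⟩ := h3 hv
    exact ⟨m, h hm⟩

lemma exists_sat {Γ : Submodule F ((ℕ →₀ K) × (ℕ →₀ K))} (h : Good Γ)
    (r : Bool × List (ℤ × Bool) × (ℕ →₀ K)) : ∃ Γ', Good Γ' ∧ Γ ≤ Γ' ∧ Sat x Γ' r := by
  obtain ⟨Γ1, g1, l1, p, hp, s1⟩ := total h r.1 r.2.2
  obtain ⟨Γ2, g2, l2, s2⟩ : ∃ Γ2, Good Γ2 ∧ Γ1 ≤ Γ2 ∧
      (Cyc r.2.1 → ∃ y, Eval x Γ2 r.2.1 y (y + r.2.2)) := by
    by_cases hc : Cyc r.2.1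
    · obtain ⟨Γ2, g2, l2, s2⟩ := solve hx0 hx g1 hc r.2.2
      exact ⟨Γ2, g2, l2, fun _ => s2⟩
    · exact ⟨Γ1, g1, le_rfl, fun h => absurd h hc⟩
  obtain ⟨Γ3, g3, l3, s3⟩ : ∃ Γ3, Good Γ3 ∧ Γ2 ≤ Γ3 ∧
      (r.2.2 ≠ 0 → ∃ m : ℕ, (x ^ m • Finsupp.single 0 1, x ^ m • r.2.2) ∈ Γ3) := by
    by_cases hv : r.2.2 = 0
    · exact ⟨Γ2, g2, le_rfl, fun h => absurd hv h⟩
    · obtain ⟨Γ3, g3, l3, s3⟩ := connect hx0 hx g2
        (u := Finsupp.single 0 1) (by simp) hv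
      exact ⟨Γ3, g3, l3, fun _ => s3⟩
  refine ⟨Γ3, g3, l1.trans (l2.trans l3), ⟨p, l3 (l2 hp), s1⟩, fun hc => ?_, s3⟩
  obtain ⟨y, hy⟩ := s2 hc
  exact ⟨y, hy.mono l3⟩

lemma exists_graph [Countable K] : ∃ β : (ℕ →₀ K) ≃ₗ[F] (ℕ →₀ K),
    ∀ r, Sat x β.toLinearMap.graph r := by
  obtain ⟨e, he⟩ := exists_surjective_nat (Bool × List (ℤ × Bool) × (ℕ →₀ K))
  choose nx h1 h2 h3 using fun (Γ : {Γ : Submodule F ((ℕ →₀ K) × (ℕ →₀ K)) // Good Γ}) r =>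
    exists_sat hx0 hx Γ.2 r
  let s : ℕ → {Γ : Submodule F ((ℕ →₀ K) × (ℕ →₀ K)) // Good Γ} := fun n =>
    Nat.rec ⟨⊥, by simp, fun _ p hp _ => by simpa using hp⟩ (fun n Γ => ⟨nx Γ (e n), h1 _ _⟩) n
  have hmono : Monotone fun n => (s n).1 := monotone_nat_of_le_succ fun n => h2 _ _
  have hsat : ∀ r, Sat x (⨆ n, (s n).1) r := by
    intro r
    obtain ⟨n, rfl⟩ := he r
    exact Sat.mono (le_iSup (fun n => (s n).1) (n + 1)) (h3 (s n) (e n))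
  have hbij : ∀ ε, Function.Bijective (sd F (ℕ →₀ K) ε ∘ (⨆ n, (s n).1).subtype) := by
    intro ε
    constructor
    · change Function.Injective ((sd F (ℕ →₀ K) ε).comp (⨆ n, (s n).1).subtype)
      rw [injective_iff_map_eq_zero]
      rintro ⟨p, hp⟩ h0
      obtain ⟨n, hn⟩ := (Submodule.mem_iSup_of_directed _ hmono.directed_le).1 hp
      exact Subtype.ext ((s n).2.2 ε p hn h0)
    · intro v
      obtain ⟨p, hp, h⟩ := (hsat (ε, [], v)).1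
      exact ⟨⟨p, hp⟩, h⟩
  obtain ⟨β, hβ⟩ := Submodule.exists_equiv_eq_graph (hbij true) (hbij false)
  exact ⟨β, fun r => hβ ▸ hsat r⟩

end Pool.Agent.H568Z.Conj
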