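import Mathlib
import Pool.Agent.H568Z.GrigUp

set_option autoImplicit false

namespace Pool.Agent.H568Z.Grig

open Classical Filter Topology Conj

section General

variable {G : Type} [Group G]

lemma mul_mem_ball' {S : Finset G} {n m : ℕ} {g h : G} (hg : g ∈ ball S n) (hh : h ∈ ball S m) :
    g * h ∈ ball S (n + m) := by
  obtain ⟨l, h1, h2, rfl⟩ := hg
  obtain ⟨l', h1', h2', rfl⟩ := hh
  refine ⟨l ++ l', by simp; omega, fun x hx => ?_, by simp⟩
  rcases List.mem_append.1 hx with hx | hx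
  exacts [h2 x hx, h2' x hx]

lemma gen_mem_ball {S : Finset G} {x : G} (hx : x ∈ S ∨ x⁻¹ ∈ S) : x ∈ ball S 1 := by
  simpa using mul_mem_ball hx (one_mem_ball S 0)

lemma inv_mem_ball {S : Finset G} {n : ℕ} {g : G} (hg : g ∈ ball S n) : g⁻¹ ∈ ball S n := by
  refine ball_induction (P := fun n g => g⁻¹ ∈ ball S n) (fun n => by simpa using one_mem_ball S n)
    (fun n x g hx hg => ?_) hg
  rw [mul_inv_rev]
  exact mul_mem_ball' hg (gen_mem_ball (by simpa using hx.symm))

lemma ball_compare (S T : Finset G) (hT : Subgroup.closure (T : Set G) = ⊤) :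
    ∃ K, ∀ n, ball S n ⊆ ball T (K * n) := by
  have h1 : ∀ g : G, ∃ k, g ∈ ball T k := by
    intro g
    have hg : g ∈ Subgroup.closure (T : Set G) := hT ▸ Subgroup.mem_top g
    induction hg using Subgroup.closure_induction with
    | mem x hx => exact ⟨1, gen_mem_ball (Or.inl hx)⟩
    | one => exact ⟨0, one_mem_ball _ _⟩
    | mul x y _ _ hx hy =>
      obtain ⟨n, hn⟩ := hx
      obtain ⟨m, hm⟩ := hy
      exact ⟨_, mul_mem_ball' hn hm⟩
    | inv x _ hx =>
      obtain ⟨n, hn⟩ := hx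
      exact ⟨_, inv_mem_ball hn⟩
  choose k hk using h1
  refine ⟨S.sup k, fun n g hg => ?_⟩
  refine ball_induction (P := fun n g => g ∈ ball T (S.sup k * n)) (fun n => one_mem_ball _ _)
    (fun n x g hx hg => ?_) hg
  have hx' : x ∈ ball T (S.sup k) := by
    rcases hx with hx | hx
    · exact ball_mono (Finset.le_sup hx) (hk x)
    · simpa using inv_mem_ball (ball_mono (Finset.le_sup hx) (hk x⁻¹))
  rw [Nat.mul_succ, add_comm]
  exact mul_mem_ball' hx' hg

end General

lemma pa_mem : pa ∈ ball gens 1 := gen_mem_ball (Or.inl (by simp [gens]))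

lemma tau_mem : tau ∈ ball gens 1 := gen_mem_ball (Or.inl (by simp [gens]))

lemma pd_mem (x : Bool × Bool) : pd x ∈ ball gens 1 := by
  obtain ⟨x1, x2⟩ := x
  cases x1 <;> cases x2
  · have : pd (false, false) = 1 := Equiv.ext dF_zero
    rw [this]
    exact one_mem_ball _ _
  all_goals exact gen_mem_ball (Or.inl (by simp [gens]))

lemma swap_mem_ball {n : ℕ} {g : Equiv.Perm X} (hg : g ∈ ball gens n) :
    Equiv.swap x0 (g x0) ∈ ball gens (4 * n) := by
  refine ball_induction (P := fun n (g : Equiv.Perm X) => Equiv.swap x0 (g x0) ∈ ball gens (4 * n))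
    (fun n => by
      rw [Equiv.Perm.one_apply, Equiv.swap_self]
      exact one_mem_ball gens (4 * n)) (fun n s g hs hg => ?_) hg
  have hs1 := gen_mem_ball hs
  have conj : ∀ (u : X) (k : ℕ), s u = x0 → Equiv.swap u (g x0) ∈ ball gens k →
      Equiv.swap x0 ((s * g) x0) ∈ ball gens (1 + k + 1) := by
    intro u k hu h
    rw [Equiv.Perm.mul_apply]
    nth_rewrite 1 [← hu]
    rw [Equiv.swap_apply_apply]
    exact mul_mem_ball' (mul_mem_ball' hs1 h) (inv_mem_ball hs1)
  have h2 : Equiv.swap (aF x0) (g x0) ∈ ball gens (1 + 4 * n + 1) := by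
    by_cases h1 : g x0 = x0
    · rw [h1, Equiv.swap_comm]
      exact ball_mono (by omega) tau_mem
    · by_cases h2 : g x0 = aF x0
      · rw [h2, Equiv.swap_self]
        exact one_mem_ball _ _
      · have : Equiv.swap (aF x0) (g x0) = tau * Equiv.swap x0 (g x0) * tau⁻¹ := by
          rw [← Equiv.swap_apply_apply, tau, Equiv.swap_apply_left,
            Equiv.swap_apply_of_ne_of_ne h1 h2]
        rw [this]
        exact mul_mem_ball' (mul_mem_ball' tau_mem hg) (inv_mem_ball tau_mem)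
  rcases gens_cases hs with rfl | ⟨x, rfl⟩ | rfl
  · exact ball_mono (by omega) (conj (aF x0) _ (aF_aF x0) h2)
  · exact ball_mono (by omega) (conj x0 _ (dF_x0 x) hg)
  · exact ball_mono (by omega) (conj (aF x0) _ (Equiv.swap_apply_right _ _) h2)

def Orb (y : X) : Prop := ∃ n, ∃ g ∈ ball gens n, g x0 = y

lemma Orb.step {y : X} (h : Orb y) {s : Equiv.Perm X} (hs : s ∈ ball gens 1) : Orb (s y) := by
  obtain ⟨n, g, hg, rfl⟩ := h
  exact ⟨_, s * g, mul_mem_ball' hs hg, rfl⟩

lemma Orb.consT {y : X} (h : Orb y) : Orb (cons true y) := by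
  obtain ⟨n, g, hg, rfl⟩ := h
  refine ball_induction (P := fun _ (g : Equiv.Perm X) => Orb (cons true (g x0)))
    (fun n => ⟨0, 1, one_mem_ball _ _, x0_eq⟩) (fun n s g hs hg => ?_) hg
  have ha : Orb (cons true (aF (g x0))) := by
    have := ((hg.step pa_mem).step (pd_mem (true, true))).step pa_mem
    simpa [pa, pd, dF_false] using this
  rw [Equiv.Perm.mul_apply]
  rcases gens_cases hs with rfl | ⟨⟨x1, x2⟩, rfl⟩ | rfl
  · exact ha
  · have := hg.step (pd_mem (xor x1 x2, x1))
    have e : nx (xor x1 x2, x1) = (x1, x2) := by cases x1 <;> cases x2 <;> rfl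
    simpa [pd, dF_true, e] using this
  · by_cases h1 : g x0 = x0
    · rw [h1, tau, Equiv.swap_apply_left]
      rwa [h1] at ha
    · by_cases h2 : g x0 = aF x0
      · rw [h2, tau, Equiv.swap_apply_right]
        rwa [h2, aF_aF] at ha
      · rwa [tau, Equiv.swap_apply_of_ne_of_ne h1 h2]

def zz : ℕ → X
  | 0 => aF x0
  | j + 1 => cons true (zz j)

lemma zz_orb (j : ℕ) : Orb (zz j) := by
  induction j with
  | zero => exact ⟨1, pa, pa_mem, rfl⟩
  | succ j ih => exact ih.consT

lemma zz_inj : Function.Injective zz := by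
  intro i
  induction i with
  | zero =>
    rintro (_ | j) h
    · rfl
    · simpa [zz, aF, x0] using congrFun h 0
  | succ i ih =>
    rintro (_ | j) h
    · simpa [zz, aF, x0] using congrFun h 0
    · have : zz i = zz j := by simpa [zz] using congrArg tl h
      rw [ih this]

def UU (m : ℕ) : Set X := (fun g : Equiv.Perm X => g x0) '' ball gens m

lemma UU_finite (m : ℕ) : (UU m).Finite := (finite_ball _ _).image _

lemma le_ncard_UU (m : ℕ) : m ≤ (UU m).ncard := by
  induction m with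
  | zero => exact Nat.zero_le _
  | succ m ih =>
    refine Nat.succ_le_of_lt (ih.trans_lt (Set.ncard_lt_ncard
      ⟨Set.image_mono (ball_mono (Nat.le_succ m)), fun h => ?_⟩ (UU_finite _)))
    have h1 : ∀ y, Orb y → y ∈ UU m := by
      rintro _ ⟨n, g, hg, rfl⟩
      refine ball_induction (P := fun _ (g : Equiv.Perm X) => g x0 ∈ UU m)
        (fun n => ⟨1, one_mem_ball _ _, rfl⟩) (fun n s g hs hg => ?_) hg
      obtain ⟨g', hg', e⟩ := hg
      refine h ⟨s * g', mul_mem_ball hs hg', ?_⟩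
      simp only [Equiv.Perm.mul_apply] at e ⊢
      rw [e]
    exact Set.infinite_of_injective_forall_mem zz_inj (fun j => h1 _ (zz_orb j)) (UU_finite m)

lemma swap_UU {m : ℕ} {y z : X} (hy : y ∈ UU m) (hz : z ∈ UU m) :
    Equiv.swap y z ∈ ball gens (10 * m) := by
  obtain ⟨g, hg, rfl⟩ := hy
  obtain ⟨h, hh, rfl⟩ := hz
  have h1 := swap_mem_ball (mul_mem_ball' (inv_mem_ball hg) hh)
  have h2 := mul_mem_ball' (mul_mem_ball' hg h1) (inv_mem_ball hg)
  rw [← Equiv.swap_apply_apply] at h2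
  simpa using ball_mono (by omega : m + 4 * (m + m) + m ≤ 10 * m) h2

lemma ofSubtype_mem_ball (m : ℕ) (U : Finset X) (hU : ∀ y ∈ U, y ∈ UU m) (k : ℕ)
    (σ : Equiv.Perm {y // y ∈ U}) (hk : σ.support.card ≤ k) :
    Equiv.Perm.ofSubtype σ ∈ ball gens (10 * m * k) := by
  induction k generalizing σ with
  | zero =>
    have : σ = 1 := by simpa using hk
    rw [this, map_one]
    exact one_mem_ball _ _
  | succ k ih =>
    by_cases h : σ = 1
    · rw [h, map_one]
      exact one_mem_ball _ _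
    · obtain ⟨x, hx⟩ : ∃ x, σ x ≠ x := by
        by_contra hc
        exact h (Equiv.ext fun x => by_contra fun hx => hc ⟨x, hx⟩)
      have h1 := ih _ (Nat.le_of_lt_succ ((Equiv.Perm.card_support_swap_mul hx).trans_le hk))
      have h2 : σ = Equiv.swap x (σ x) * (Equiv.swap x (σ x) * σ) := by
        rw [Equiv.swap_mul_self_mul]
      rw [h2, map_mul, Equiv.Perm.ofSubtype_swap_eq, Nat.mul_succ, add_comm]
      exact mul_mem_ball' (swap_UU (hU _ x.2) (hU _ (σ x).2)) h1

theorem many_orders (N : ℕ) :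
    2 ^ Nat.primeCounting N ≤ (orderOf '' ball gens (10 * N ^ 4)).ncard := by
  have hP : (Nat.primesLE N).card ≤ N := by
    have : Nat.primesLE N ⊆ Finset.Icc 1 N := fun p hp =>
      Finset.mem_Icc.2 ⟨(Nat.one_lt_of_mem_primesLE hp).le, Nat.le_of_mem_primesLE hp⟩
    simpa using Finset.card_le_card this
  have key : ∀ T ∈ (Nat.primesLE N).powerset,
      T.val.lcm ∈ orderOf '' ball gens (10 * N ^ 4) := by
    intro T hT
    have hT' := Finset.mem_powerset.1 hT
    have hs : T.val.sum ≤ N ^ 2 := by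
      have h1 := Multiset.sum_le_card_nsmul T.val N fun p hp => Nat.le_of_mem_primesLE (hT' hp)
      have h2 : T.card ≤ N := (Finset.card_le_card hT').trans hP
      rw [smul_eq_mul, Finset.card_val] at h1
      rw [sq]
      exact h1.trans (Nat.mul_le_mul_right _ h2)
    obtain ⟨U, hU⟩ := (UU_finite (N ^ 2)).exists_finset_coe
    have hc : N ^ 2 ≤ Fintype.card {y // y ∈ U} := by
      rw [Fintype.card_coe, ← Set.ncard_coe_finset, hU]
      exact le_ncard_UU _
    obtain ⟨σ, hσ⟩ := (Equiv.Perm.exists_with_cycleType_iff {y // y ∈ U} (m := T.val)).2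
      ⟨hs.trans hc, fun p hp => Nat.one_lt_of_mem_primesLE (hT' hp)⟩
    have h1 := ofSubtype_mem_ball (N ^ 2) U (fun y hy => hU ▸ Finset.mem_coe.2 hy) (N ^ 2) σ
      (by rw [← Equiv.Perm.sum_cycleType, hσ]; exact hs)
    refine ⟨_, ball_mono (le_of_eq (by ring)) h1, ?_⟩
    rw [orderOf_injective _ Equiv.Perm.ofSubtype_injective, ← Equiv.Perm.lcm_cycleType, hσ]
  have sub : ∀ T ∈ (Nat.primesLE N).powerset, ∀ T' ∈ (Nat.primesLE N).powerset,
      T.val.lcm = T'.val.lcm → T ⊆ T' := by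
    intro T hT T' hT' h p hp
    have hp' := Nat.prime_of_mem_primesLE (Finset.mem_powerset.1 hT hp)
    have h1 : p ∣ T'.val.prod :=
      ((Multiset.dvd_lcm hp).trans h.dvd).trans
        (Multiset.lcm_dvd.2 fun b hb => Multiset.dvd_prod hb)
    obtain ⟨q, hq, h2⟩ := hp'.prime.exists_mem_multiset_dvd h1
    have hq' := Nat.prime_of_mem_primesLE (Finset.mem_powerset.1 hT' hq)
    rwa [(Nat.prime_dvd_prime_iff_eq hp' hq').1 h2]
  rw [← Nat.primesLE_card_eq_primeCounting, ← Finset.card_powerset, ← Set.ncard_coe_finset]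
  exact Set.ncard_le_ncard_of_injOn (fun T => T.val.lcm) key
    (fun T hT T' hT' h => Finset.Subset.antisymm (sub T hT T' hT' h) (sub T' hT' T hT h.symm))
    ((finite_ball _ _).image _)

lemma not_poly (K c d : ℕ) :
    ¬ ∀ N : ℕ, 2 ^ Nat.primeCounting N ≤ c * (c * (K * N ^ 4) + c) ^ d + c := by
  intro h
  set A := 2 * c * (c * (K + 1)) ^ d with hA
  have h1 : ∀ j : ℕ, Nat.primeCounting (2 ^ j) ≤ A + 4 * j * d := by
    intro j
    have e1 : 1 ≤ (2 ^ j) ^ 4 := Nat.one_le_pow _ _ (by positivity)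
    have e2 : c * (K * (2 ^ j) ^ 4) + c ≤ c * (K + 1) * (2 ^ j) ^ 4 := by nlinarith
    have e3 := Nat.pow_le_pow_left e2 d
    rw [mul_pow (c * (K + 1)), ← pow_mul ((2 : ℕ) ^ j), ← pow_mul 2 j (4 * d)] at e3
    rcases Nat.eq_zero_or_pos c with rfl | hc
    · have := h (2 ^ j)
      simp at this
    have e4 : 1 ≤ (c * (K + 1)) ^ d * 2 ^ (j * (4 * d)) := Nat.succ_le_of_lt (by positivity)
    have e5 : 2 ^ Nat.primeCounting (2 ^ j) ≤ A * 2 ^ (j * (4 * d)) := by
      refine (h (2 ^ j)).trans ?_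
      have e6 := Nat.mul_le_mul_left c e3
      have e7 := Nat.mul_le_mul_left c e4
      rw [hA]
      generalize (c * (K * (2 ^ j) ^ 4) + c) ^ d = u at *
      generalize (c * (K + 1)) ^ d = v at *
      generalize 2 ^ (j * (4 * d)) = z at *
      nlinarith
    have e6 : A * 2 ^ (j * (4 * d)) ≤ 2 ^ (A + 4 * j * d) := by
      rw [pow_add, show 4 * j * d = j * (4 * d) by ring]
      exact Nat.mul_le_mul_right _ Nat.lt_two_pow_self.le
    exact (Nat.pow_le_pow_iff_right (by norm_num)).1 (e5.trans e6)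
  have h2 : ∀ j : ℕ, 1 ≤ j → (2 : ℝ) ^ j ≤ (A + 4 * d + 2) * j ^ 2 := by
    intro j hj
    have e0 : (1 : ℝ) ≤ j := by exact_mod_cast hj
    have e1 := Chebyshev.pi_ge (2 ^ j)
    have e2 : (Nat.primeCounting (2 ^ j) : ℝ) ≤ A + 4 * j * d := by exact_mod_cast h1 j
    have l2 : 0 < Real.log 2 := Real.log_pos (by norm_num)
    have e3 : Real.log ((2 : ℝ) ^ j + 1) ≤ (j + 1) * Real.log 2 := by
      have : ((j : ℝ) + 1) * Real.log 2 = Real.log (2 ^ (j + 1)) := by simp
      rw [this]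
      refine Real.log_le_log (by positivity) ?_
      have : (1 : ℝ) ≤ 2 ^ j := one_le_pow₀ (by norm_num)
      rw [pow_succ]
      linarith
    push_cast at e1
    rw [Real.log_pow, div_le_iff₀ (by positivity)] at e1
    have e4 : (Nat.primeCounting (2 ^ j) : ℝ) * (j * Real.log 2) ≤
        (A + 4 * j * d) * (j * Real.log 2) := by gcongr
    have e5 : (2 : ℝ) ^ j * Real.log 2 ≤ ((A + 4 * j * d) * j + (j + 1)) * Real.log 2 := by
      nlinarith
    have e6 := le_of_mul_le_mul_right e5 l2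
    have e7 : (0 : ℝ) ≤ A := by positivity
    have e8 : (j : ℝ) ≤ j ^ 2 := by nlinarith
    nlinarith
  have ht := tendsto_pow_const_div_const_pow_of_one_lt 2 (r := 2) (by norm_num)
  have hpos : (0 : ℝ) < A + 4 * d + 2 := by positivity
  obtain ⟨j, hj1, hj2⟩ := ((eventually_ge_atTop 1).and
    (ht.eventually (gt_mem_nhds (inv_pos.2 hpos)))).exists
  rw [div_lt_iff₀ (by positivity), inv_mul_eq_div, lt_div_iff₀ hpos] at hj2
  have := h2 j hj1
  linarith

lemma not_exp (f : ℕ → ℕ) (K : ℕ)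
    (hf : ∀ ε : ℝ, 0 < ε → ∃ C : ℝ, 0 ≤ C ∧ ∀ n : ℕ, (f n : ℝ) ≤ C * Real.exp (ε * (K * n : ℕ)))
    (c : ℕ) : ¬ ∀ n : ℕ, 2 ^ n ≤ c * f (c * n + c) + c := by
  intro h
  have l2 : 0 < Real.log 2 := Real.log_pos (by norm_num)
  obtain ⟨C, hC, hf⟩ := hf (Real.log 2 / (2 * (K * c + 1))) (by positivity)
  obtain ⟨n, hn⟩ := exists_nat_gt ((c * C * 2 + c) / (Real.log 2 / 2))
  rw [div_lt_iff₀ (by positivity)] at hn
  set t := Real.exp (n * (Real.log 2 / 2)) with ht
  have h1 : (2 : ℝ) ^ n = t * t := by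
    rw [ht, ← Real.exp_add, show n * (Real.log 2 / 2) + n * (Real.log 2 / 2) = n * Real.log 2 by ring,
      Real.exp_nat_mul, Real.exp_log (by norm_num)]
  have h2 : n * (Real.log 2 / 2) + 1 ≤ t := Real.add_one_le_exp _
  have h3 : Real.exp (Real.log 2 / (2 * (K * c + 1)) * (K * (c * n + c) : ℕ)) ≤ 2 * t := by
    have : (2 : ℝ) * t = Real.exp (Real.log 2 + n * (Real.log 2 / 2)) := by
      rw [Real.exp_add, Real.exp_log (by norm_num)]
    rw [this]
    refine Real.exp_le_exp.2 ?_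
    rw [div_mul_eq_mul_div, div_le_iff₀ (by positivity)]
    push_cast
    have e1 : (0 : ℝ) ≤ K * c := by positivity
    have e2 : (0 : ℝ) ≤ n := by positivity
    have e3 : (0 : ℝ) ≤ Real.log 2 * (K * c) := by positivity
    have e4 : (0 : ℝ) ≤ Real.log 2 * n := by positivity
    nlinarith
  have h4 : (2 : ℝ) ^ n ≤ c * f (c * n + c) + c := by exact_mod_cast h n
  have h5 : (f (c * n + c) : ℝ) ≤ C * (2 * t) := (hf _).trans (by gcongr)
  have h6 : (c : ℝ) * f (c * n + c) ≤ c * (C * (2 * t)) := by gcongr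
  have h7 : (0 : ℝ) ≤ n * (Real.log 2 / 2) := by positivity
  have h8 : (0 : ℝ) ≤ c := by positivity
  have h9 : (c * C * 2 + c) * t < t * t := mul_lt_mul_of_pos_right (by linarith) (by linarith)
  nlinarith

end Pool.Agent.H568Z.Grig
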