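import Pool.Agent.H568Z.IdealGraph

set_option autoImplicit false

namespace Pool.Agent.H568Z.Ideals

open Finset

/-- A sequence of signed bipartite graphs, each far more spread out than the earlier ones. -/
structure Sys where
  G : ℕ → Finset (ℕ × ℕ)
  s : ℕ × ℕ → ℝ
  d : ℕ → ℕ
  R : ℕ → ℕ
  R_zero : R 0 = 0
  R_succ : ∀ m, R (m + 1) = R m + (G m).card
  blk : ∀ m, ∀ e ∈ G m, e.1.unpair.1 = m ∧ e.2.unpair.1 = m
  ne : ∀ m, (G m).Nonempty
  dpos : ∀ m, 0 < d m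
  deg : ∀ m, Deg (d m) (G m)
  sparse : ∀ m, Sparse (R m * (m * (m * d m)) * d m) (G m)
  sign : ∀ e, s e = 1 ∨ s e = -1
  disc : ∀ m, ∀ x y : ℕ → ℝ, (∀ i, |x i| ≤ 1) → (∀ i, |y i| ≤ 1) →
    ∑ e ∈ G m, s e * x e.1 * y e.2 ≤ 1 / (((m : ℝ) + 1) * ((R m : ℝ) + 1)) * (G m).card

lemma exists_sys : Nonempty Sys := by
  classical
  have h : ∀ m R : ℕ, ∃ (d : ℕ) (E : Finset (ℕ × ℕ)) (s : ℕ × ℕ → ℝ), 0 < d ∧
      (∀ e ∈ E, e.1.unpair.1 = m ∧ e.2.unpair.1 = m) ∧ E.Nonempty ∧ Deg d E ∧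
      Sparse (R * (m * (m * d)) * d) E ∧ (∀ e, s e = 1 ∨ s e = -1) ∧
      ∀ x y : ℕ → ℝ, (∀ i, |x i| ≤ 1) → (∀ i, |y i| ≤ 1) →
        ∑ e ∈ E, s e * x e.1 * y e.2 ≤ 1 / (((m : ℝ) + 1) * ((R : ℝ) + 1)) * E.card := by
    intro m R
    obtain ⟨d, hd, h⟩ := exists_block (1 / (((m : ℝ) + 1) * ((R : ℝ) + 1))) (by positivity)
    obtain ⟨N, h⟩ := h (R * (m * (m * d)) * d)
    obtain ⟨E, s, h1, h2, h3, h4, h5, h6⟩ := h ((range N).image (Nat.pair m)) (by
      rw [card_image_of_injective _ (fun a b hab => (Nat.pair_eq_pair.1 hab).2), card_range])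
    refine ⟨d, E, s, hd, fun e he => ?_, h2, h3, h4, h5, h6⟩
    obtain ⟨a1, a2⟩ := mem_product.1 (h1 he)
    obtain ⟨x, _, hx⟩ := mem_image.1 a1
    obtain ⟨y, _, hy⟩ := mem_image.1 a2
    rw [← hx, ← hy]
    simp
  choose d E s h1 h2 h3 h4 h5 h6 h7 using h
  let R : ℕ → ℕ := fun m => Nat.rec 0 (fun m r => r + (E m r).card) m
  refine ⟨⟨fun m => E m (R m), fun e => s e.1.unpair.1 (R e.1.unpair.1) e, fun m => d m (R m), R,
    rfl, fun m => rfl, fun m => h2 m _, fun m => h3 m _, fun m => h1 m _, fun m => h4 m _,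
    fun m => h5 m _, fun e => h6 _ _ e, fun m x y hx hy => ?_⟩⟩
  refine le_trans (le_of_eq ?_) (h7 m (R m) x y hx hy)
  refine sum_congr rfl fun e he => ?_
  rw [(h2 m _ e he).1]

lemma exists_eps (W : (ℕ → ℝ) →ₗ[ℝ] (ℕ → ℝ) →ₗ[ℝ] ℝ) (Λ : Finset ℕ) (u w : ℕ → ℕ → ℝ) :
    ∃ ε : ℕ → ℝ, (∀ l, ε l = 1 ∨ ε l = -1) ∧
      ∑ l ∈ Λ, W (u l) (w l) ≤ W (∑ l ∈ Λ, ε l • u l) (∑ l ∈ Λ, ε l • w l) := by
  classical
  induction Λ using Finset.induction_on with
  | empty => exact ⟨fun _ => 1, fun _ => Or.inl rfl, by simp⟩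
  | insert a Λ ha ih =>
    obtain ⟨ε, hε, hle⟩ := ih
    have hsum : ∀ (c : ℝ) (v : ℕ → ℕ → ℝ), ∑ l ∈ insert a Λ, Function.update ε a c l • v l =
        c • v a + ∑ l ∈ Λ, ε l • v l := by
      intro c v
      rw [sum_insert ha, Function.update_self]
      congr 1
      refine sum_congr rfl fun e he => ?_
      have hne : e ≠ a := fun h => ha (h ▸ he)
      rw [Function.update_of_ne hne]
    have hsg : ∀ c : ℝ, (c = 1 ∨ c = -1) → ∀ e, Function.update ε a c e = 1 ∨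
        Function.update ε a c e = -1 := by
      intro c hc e
      by_cases h : e = a
      · subst h; rw [Function.update_self]; exact hc
      · rw [Function.update_of_ne h]; exact hε e
    set U := ∑ l ∈ Λ, ε l • u l
    set V := ∑ l ∈ Λ, ε l • w l
    by_cases hc : 0 ≤ W (u a) V + W U (w a)
    · refine ⟨Function.update ε a 1, hsg 1 (Or.inl rfl), ?_⟩
      rw [hsum, hsum, sum_insert ha]
      simp only [map_add, LinearMap.add_apply, one_smul]
      linarith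
    · refine ⟨Function.update ε a (-1), hsg (-1) (Or.inr rfl), ?_⟩
      rw [hsum, hsum, sum_insert ha]
      simp only [map_add, LinearMap.add_apply, neg_smul, one_smul, map_neg, LinearMap.neg_apply]
      linarith

lemma star_bound (W : (ℕ → ℝ) →ₗ[ℝ] (ℕ → ℝ) →ₗ[ℝ] ℝ) (D C : ℝ)
    (hW : ∀ x y : ℕ → ℝ, (∀ i, |x i| ≤ C) → (∀ i, |y i| ≤ C) → W x y ≤ D)
    (a b : ℕ → ℕ → ℝ) (ha : ∀ i (K : Finset ℕ), ∑ k ∈ K, |a i k| ≤ C)
    (hb : ∀ i (K : Finset ℕ), ∑ k ∈ K, |b i k| ≤ C)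
    (F : Finset (ℕ × ℕ)) (σ : ℕ × ℕ → ℝ) (hσ : ∀ f, |σ f| ≤ 1) (p q : ℕ × ℕ → ℕ)
    (hinj : ∀ f ∈ F, ∀ f' ∈ F, p f = p f' → f = f') :
    ∑ f ∈ F, σ f * W (fun i => a i (p f)) (fun j => b j (q f)) ≤ D := by
  classical
  let u : ℕ → ℕ → ℝ := fun l => ∑ f ∈ F with q f = l, σ f • (fun i => a i (p f))
  let w : ℕ → ℕ → ℝ := fun l j => b j l
  have hmaps : ∀ f ∈ F, q f ∈ F.image q := fun f hf => mem_image_of_mem q hf
  obtain ⟨ε, hε, hle⟩ := exists_eps W (F.image q) u w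
  have hε' : ∀ l, |ε l| = 1 := fun l => by rcases hε l with h | h <;> simp [h]
  have h1 : ∑ f ∈ F, σ f * W (fun i => a i (p f)) (fun j => b j (q f)) =
      ∑ l ∈ F.image q, W (u l) (w l) := by
    rw [← sum_fiberwise_of_maps_to hmaps]
    refine sum_congr rfl fun l _ => ?_
    simp only [u, map_sum, LinearMap.sum_apply, map_smul, LinearMap.smul_apply, smul_eq_mul]
    refine sum_congr rfl fun f hf => ?_
    rw [(mem_filter.1 hf).2]
  rw [h1]
  refine hle.trans (hW _ _ (fun i => ?_) (fun j => ?_))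
  · have : (∑ l ∈ F.image q, ε l • u l) i = ∑ f ∈ F, ε (q f) * (σ f * a i (p f)) := by
      rw [← sum_fiberwise_of_maps_to hmaps]
      simp only [u, Finset.sum_apply, Pi.smul_apply, smul_eq_mul]
      refine sum_congr rfl fun l _ => ?_
      rw [mul_sum]
      refine sum_congr rfl fun f hf => ?_
      rw [(mem_filter.1 hf).2]
    rw [this]
    refine (abs_sum_le_sum_abs _ _).trans (le_trans ?_ (ha i (F.image p)))
    rw [sum_image (fun f hf f' hf' => hinj f hf f' hf')]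
    refine sum_le_sum fun f _ => ?_
    rw [abs_mul, abs_mul, hε', one_mul]
    exact mul_le_of_le_one_left (abs_nonneg _) (hσ f)
  · simp only [w, Finset.sum_apply, Pi.smul_apply, smul_eq_mul]
    refine (abs_sum_le_sum_abs _ _).trans (le_trans ?_ (hb j (F.image q)))
    refine sum_le_sum fun l _ => ?_
    rw [abs_mul, hε', one_mul]

namespace Sys

variable (S : Sys)

noncomputable def W (n : ℕ) : (ℕ → ℝ) →ₗ[ℝ] (ℕ → ℝ) →ₗ[ℝ] ℝ :=
  LinearMap.mk₂ ℝ (fun x y => ∑ e ∈ S.G n, S.s e * x e.1 * y e.2)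
    (fun x x' y => by simp only [Pi.add_apply, ← sum_add_distrib]; congr; ext; ring)
    (fun c x y => by simp only [Pi.smul_apply, smul_eq_mul, mul_sum]; congr; ext; ring)
    (fun x y y' => by simp only [Pi.add_apply, ← sum_add_distrib]; congr; ext; ring)
    (fun c x y => by simp only [Pi.smul_apply, smul_eq_mul, mul_sum]; congr; ext; ring)

lemma W_apply (n : ℕ) (x y : ℕ → ℝ) : S.W n x y = ∑ e ∈ S.G n, S.s e * x e.1 * y e.2 := rfl

lemma abs_s (e : ℕ × ℕ) : |S.s e| = 1 := by rcases S.sign e with h | h <;> simp [h]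

lemma W_le (n : ℕ) (C : ℝ) (hC : 0 < C) (x y : ℕ → ℝ) (hx : ∀ i, |x i| ≤ C) (hy : ∀ i, |y i| ≤ C) :
    S.W n x y ≤ C ^ 2 * (1 / (((n : ℝ) + 1) * ((S.R n : ℝ) + 1)) * (S.G n).card) := by
  have h := S.disc n (C⁻¹ • x) (C⁻¹ • y)
    (fun i => by
      rw [Pi.smul_apply, smul_eq_mul, abs_mul, abs_of_pos (inv_pos.2 hC), inv_mul_le_iff₀ hC]
      simpa using hx i)
    (fun i => by
      rw [Pi.smul_apply, smul_eq_mul, abs_mul, abs_of_pos (inv_pos.2 hC), inv_mul_le_iff₀ hC]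
      simpa using hy i)
  rw [← W_apply] at h
  simp only [map_smul, LinearMap.smul_apply, smul_eq_mul] at h
  have := mul_le_mul_of_nonneg_left h (sq_nonneg C)
  have e : C ^ 2 * (C⁻¹ * (C⁻¹ * S.W n x y)) = S.W n x y := by field_simp
  rwa [e] at this

lemma R_eq (m : ℕ) : S.R m = ∑ k ∈ range m, (S.G k).card := by
  induction m with
  | zero => simp [S.R_zero]
  | succ m ih => rw [S.R_succ, sum_range_succ, ih]

lemma card_le_R {n m : ℕ} (h : n < m) : (S.G n).card ≤ S.R m := by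
  rw [R_eq]
  exact single_le_sum (f := fun k => (S.G k).card) (fun _ _ => Nat.zero_le _) (mem_range.2 h)

/-- The central finite estimate, one-sided form. -/
lemma core (n : ℕ) (C : ℝ) (hC : 0 < C) (hCn : C ≤ n) (a b : ℕ → ℕ → ℝ)
    (ha : ∀ i (K : Finset ℕ), ∑ k ∈ K, |a i k| ≤ C)
    (hb : ∀ i (K : Finset ℕ), ∑ k ∈ K, |b i k| ≤ C)
    (σ : ℕ × ℕ → ℝ) (hσ : ∀ f, |σ f| ≤ 1)
    (F : Finset (ℕ × ℕ)) (hF : ∀ f ∈ F, f ∈ S.G f.1.unpair.1 ∧ f.1.unpair.1 ≠ n) :
    ∑ f ∈ F, σ f * S.W n (fun i => a i f.1) (fun j => b j f.2) ≤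
      (3 * C ^ 2 + C) / ((n : ℝ) + 1) * (S.G n).card := by
  classical
  set D : ℝ := C ^ 2 * (1 / (((n : ℝ) + 1) * ((S.R n : ℝ) + 1)) * (S.G n).card) with hD
  have hD0 : 0 ≤ D := by positivity
  have hW := S.W_le n C hC
  have hW' : ∀ x y : ℕ → ℝ, (∀ i, |x i| ≤ C) → (∀ i, |y i| ≤ C) → (S.W n).flip x y ≤ D :=
    fun x y hx hy => hW y x hy hx
  let g : ℕ × ℕ → ℝ := fun f => σ f * S.W n (fun i => a i f.1) (fun j => b j f.2)
  let η : ℕ → ℝ := fun m => 1 / ((m : ℝ) * S.d m)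
  let big : ℕ × ℕ → Prop := fun f => ∃ e ∈ S.G n, η f.1.unpair.1 < |a e.1 f.1|
  set Fl := F.filter (fun f => f.1.unpair.1 < n) with hFl
  set Fh := F.filter (fun f => ¬ f.1.unpair.1 < n) with hFh
  set Fb := Fh.filter big with hFb
  set Fr := Fh.filter (fun f => ¬ big f) with hFr
  have hhigh : ∀ f ∈ Fh, f ∈ S.G f.1.unpair.1 ∧ n < f.1.unpair.1 := by
    intro f hf
    obtain ⟨h1, h2⟩ := mem_filter.1 hf
    have := hF f h1
    exact ⟨this.1, by omega⟩
  -- the low part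
  have hlow : ∑ f ∈ Fl, g f ≤ S.R n * D := by
    have h1 : ∀ f ∈ Fl, g f ≤ D := by
      intro f _
      have := star_bound (S.W n) D C hW a b ha hb {f} σ hσ Prod.fst Prod.snd (by simp)
      simpa using this
    have h2 : Fl.card ≤ S.R n := by
      rw [R_eq]
      refine le_trans (card_le_card ?_) (card_biUnion_le (s := range n) (t := S.G))
      intro f hf
      obtain ⟨h1, h2⟩ := mem_filter.1 hf
      exact mem_biUnion.2 ⟨_, mem_range.2 h2, (hF f h1).1⟩
    refine (sum_le_card_nsmul _ _ _ h1).trans ?_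
    rw [nsmul_eq_mul]
    exact mul_le_mul_of_nonneg_right (by exact_mod_cast h2) hD0
  -- the big part
  have hor : ∀ m, ∃ o : ℕ × ℕ → Prop,
      (∀ e ∈ Fb.filter (fun f => f.1.unpair.1 = m), ∀ e' ∈ Fb.filter (fun f => f.1.unpair.1 = m),
        o e → o e' → e.1 = e'.1 → e = e') ∧
      (∀ e ∈ Fb.filter (fun f => f.1.unpair.1 = m), ∀ e' ∈ Fb.filter (fun f => f.1.unpair.1 = m),
        ¬ o e → ¬ o e' → e.2 = e'.2 → e = e') := by
    intro m
    set Fm := Fb.filter (fun f => f.1.unpair.1 = m) with hFm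
    have hsub : Fm ⊆ S.G m := by
      intro f hf
      obtain ⟨h1, h2⟩ := mem_filter.1 hf
      rw [← h2]
      exact (hhigh f (mem_filter.1 h1).1).1
    refine (S.sparse m).orient Fm hsub ?_
    rcases Fm.eq_empty_or_nonempty with h0 | ⟨f0, hf0⟩
    · rw [h0]; simp
    have hnm : n < m := by
      obtain ⟨h1, h2⟩ := mem_filter.1 hf0
      rw [← h2]
      exact (hhigh f0 (mem_filter.1 h1).1).2
    set K := Fm.image Prod.fst with hK
    have hm0 : (0 : ℝ) < m := by exact_mod_cast (by omega : 0 < m)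
    have hd0 : (0 : ℝ) < S.d m := by exact_mod_cast S.dpos m
    have hKc : K.card ≤ S.R m * (m * (m * S.d m)) := by
      have h1 : K ⊆ (S.G n).biUnion (fun e => K.filter (fun k => η m < |a e.1 k|)) := by
        intro k hk
        obtain ⟨f, hf, rfl⟩ := mem_image.1 hk
        obtain ⟨h1, h2⟩ := mem_filter.1 hf
        obtain ⟨e, he, h3⟩ := (mem_filter.1 h1).2
        rw [h2] at h3
        exact mem_biUnion.2 ⟨e, he, mem_filter.2 ⟨hk, h3⟩⟩
      refine (card_le_card h1).trans ((card_biUnion_le_card_mul _ _ (m * (m * S.d m))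
        fun e _ => ?_).trans (Nat.mul_le_mul_right _ (S.card_le_R hnm)))
      have h2 := ha e.1 (K.filter (fun k => η m < |a e.1 k|))
      have h3 := card_nsmul_le_sum (K.filter (fun k => η m < |a e.1 k|)) (fun k => |a e.1 k|) (η m)
        (fun k hk => (mem_filter.1 hk).2.le)
      rw [nsmul_eq_mul] at h3
      have h4 : ((K.filter (fun k => η m < |a e.1 k|)).card : ℝ) * (1 / ((m : ℝ) * S.d m)) ≤ m := by
        have : (n : ℝ) ≤ m := by exact_mod_cast hnm.le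
        exact h3.trans (h2.trans (hCn.trans this))
      rw [mul_one_div, div_le_iff₀ (by positivity)] at h4
      exact_mod_cast h4
    have h5 : Fm.card = ∑ k ∈ K, (Fm.filter (fun f => f.1 = k)).card :=
      card_eq_sum_card_fiberwise (fun f hf => mem_image_of_mem _ hf)
    rw [h5]
    refine (sum_le_card_nsmul _ _ (S.d m) fun k _ => ?_).trans ?_
    · exact (card_le_card (filter_subset_filter _ hsub)).trans ((S.deg m).1 k)
    · rw [smul_eq_mul]
      exact Nat.mul_le_mul_right _ hKc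
  choose o ho1 ho2 using hor
  have hbig : ∑ f ∈ Fb, g f ≤ 2 * D := by
    rw [← sum_filter_add_sum_filter_not Fb (fun f => o f.1.unpair.1 f)]
    have h1 := star_bound (S.W n) D C hW a b ha hb (Fb.filter (fun f => o f.1.unpair.1 f)) σ hσ
      Prod.fst Prod.snd (by
        intro f hf f' hf' h
        obtain ⟨a1, a2⟩ := mem_filter.1 hf
        obtain ⟨a3, a4⟩ := mem_filter.1 hf'
        rw [← h] at a4
        exact ho1 f.1.unpair.1 f (mem_filter.2 ⟨a1, rfl⟩) f' (mem_filter.2 ⟨a3, by rw [h]⟩) a2 a4 h)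
    have h2 := star_bound (S.W n).flip D C hW' b a hb ha
      (Fb.filter (fun f => ¬ o f.1.unpair.1 f)) σ hσ
      Prod.snd Prod.fst (by
        intro f hf f' hf' h
        obtain ⟨a1, a2⟩ := mem_filter.1 hf
        obtain ⟨a3, a4⟩ := mem_filter.1 hf'
        have b1 := (S.blk _ f (hhigh f (mem_filter.1 a1).1).1).2
        have b2 := (S.blk _ f' (hhigh f' (mem_filter.1 a3).1).1).2
        have b3 : f'.1.unpair.1 = f.1.unpair.1 := by rw [← b1, ← b2, h]
        rw [b3] at a4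
        exact ho2 f.1.unpair.1 f (mem_filter.2 ⟨a1, rfl⟩) f' (mem_filter.2 ⟨a3, b3⟩) a2 a4 h)
    simp only [LinearMap.flip_apply] at h2
    simp only [g]
    linarith
  -- the rest
  have hrest : ∑ f ∈ Fr, g f ≤ C / ((n : ℝ) + 1) * (S.G n).card := by
    simp only [g, W_apply, mul_sum]
    rw [sum_comm]
    refine (sum_le_card_nsmul _ _ (C / ((n : ℝ) + 1)) fun e he => ?_).trans
      (by rw [nsmul_eq_mul, mul_comm])
    have hmaps : ∀ f ∈ Fr, f.2 ∈ Fr.image Prod.snd := fun f hf => mem_image_of_mem _ hf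
    rw [← sum_fiberwise_of_maps_to hmaps]
    have h1 : ∀ l ∈ Fr.image Prod.snd,
        ∑ f ∈ Fr with f.2 = l, σ f * (S.s e * a e.1 f.1 * b e.2 f.2) ≤
          1 / ((n : ℝ) + 1) * |b e.2 l| := by
      intro l hl
      obtain ⟨f0, hf0, rfl⟩ := mem_image.1 hl
      set m := f0.2.unpair.1 with hm
      have hblk : ∀ f ∈ Fr.filter (fun f => f.2 = f0.2), f.1.unpair.1 = m := by
        intro f hf
        obtain ⟨h1, h2⟩ := mem_filter.1 hf
        have := (S.blk _ f (hhigh f (mem_filter.1 h1).1).1).2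
        rw [← this, h2]
      have hnm : n < m := by
        rw [← hblk f0 (mem_filter.2 ⟨hf0, rfl⟩)]
        exact (hhigh f0 (mem_filter.1 hf0).1).2
      have hm0 : (0 : ℝ) < m := by exact_mod_cast (by omega : 0 < m)
      have hd0 : (0 : ℝ) < S.d m := by exact_mod_cast S.dpos m
      have hterm : ∀ f ∈ Fr.filter (fun f => f.2 = f0.2),
          σ f * (S.s e * a e.1 f.1 * b e.2 f.2) ≤ η m * |b e.2 f0.2| := by
        intro f hf
        obtain ⟨h1, h2⟩ := mem_filter.1 hf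
        have h3 : |a e.1 f.1| ≤ η m := by
          by_contra hlt
          push Not at hlt
          exact (mem_filter.1 h1).2 ⟨e, he, by rw [hblk f hf]; exact hlt⟩
        refine (le_abs_self _).trans ?_
        rw [abs_mul, abs_mul, abs_mul, abs_s, one_mul, h2]
        refine (mul_le_of_le_one_left (by positivity) (hσ f)).trans ?_
        exact mul_le_mul_of_nonneg_right h3 (abs_nonneg _)
      have hcard : (Fr.filter (fun f => f.2 = f0.2)).card ≤ S.d m := by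
        refine le_trans (card_le_card ?_) ((S.deg m).2 f0.2)
        intro f hf
        refine mem_filter.2 ⟨?_, (mem_filter.1 hf).2⟩
        rw [← hblk f hf]
        exact (hhigh f (mem_filter.1 (mem_filter.1 hf).1).1).1
      refine (sum_le_card_nsmul _ _ _ hterm).trans ?_
      rw [nsmul_eq_mul, ← mul_assoc]
      refine mul_le_mul_of_nonneg_right ?_ (abs_nonneg _)
      have h4 : ((Fr.filter (fun f => f.2 = f0.2)).card : ℝ) ≤ S.d m := by exact_mod_cast hcard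
      have h5 : (n : ℝ) + 1 ≤ m := by exact_mod_cast hnm
      calc _ ≤ (S.d m : ℝ) * η m := mul_le_mul_of_nonneg_right h4 (by positivity)
        _ = 1 / (m : ℝ) := by simp only [η]; field_simp
        _ ≤ _ := one_div_le_one_div_of_le (by positivity) h5
    refine (sum_le_sum h1).trans ?_
    rw [← mul_sum, div_eq_mul_one_div C, mul_comm C]
    exact mul_le_mul_of_nonneg_left (hb _ _) (by positivity)
  have hsplit : ∑ f ∈ F, g f = ∑ f ∈ Fl, g f + (∑ f ∈ Fb, g f + ∑ f ∈ Fr, g f) := by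
    rw [sum_filter_add_sum_filter_not, sum_filter_add_sum_filter_not]
  change ∑ f ∈ F, g f ≤ _
  rw [hsplit]
  have hR : (0 : ℝ) ≤ S.R n := Nat.cast_nonneg _
  have hD1 : ((S.R n : ℝ) + 1) * D = C ^ 2 / ((n : ℝ) + 1) * (S.G n).card := by
    rw [hD]; field_simp
  have e : (3 * C ^ 2 + C) / ((n : ℝ) + 1) * (S.G n).card =
      3 * (C ^ 2 / ((n : ℝ) + 1) * (S.G n).card) + C / ((n : ℝ) + 1) * (S.G n).card := by ring
  rw [e, ← hD1]
  nlinarith [mul_nonneg hR hD0]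

lemma core_abs (n : ℕ) (C : ℝ) (hC : 0 < C) (hCn : C ≤ n) (a b : ℕ → ℕ → ℝ)
    (ha : ∀ i (K : Finset ℕ), ∑ k ∈ K, |a i k| ≤ C)
    (hb : ∀ i (K : Finset ℕ), ∑ k ∈ K, |b i k| ≤ C)
    (F : Finset (ℕ × ℕ)) (hF : ∀ f ∈ F, f ∈ S.G f.1.unpair.1 ∧ f.1.unpair.1 ≠ n) :
    |∑ f ∈ F, S.s f * S.W n (fun i => a i f.1) (fun j => b j f.2)| ≤
      (3 * C ^ 2 + C) / ((n : ℝ) + 1) * (S.G n).card := by
  rw [abs_le]
  refine ⟨?_, S.core n C hC hCn a b ha hb S.s (fun f => (S.abs_s f).le) F hF⟩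
  have := S.core n C hC hCn a b ha hb (fun f => -S.s f)
    (fun f => by rw [abs_neg]; exact (S.abs_s f).le) F hF
  simp only [neg_mul, sum_neg_distrib] at this
  linarith

end Sys

end Pool.Agent.H568Z.Ideals
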