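import Mathlib

set_option autoImplicit false

namespace Pool.Agent.H568Z.Ideals

open Finset

/-- every nonempty set of at most `L` edges has more endpoints than edges -/
def Sparse (L : ℕ) (E : Finset (ℕ × ℕ)) : Prop :=
  ∀ F ⊆ E, F.card ≤ L → F.Nonempty → F.card < (F.image Prod.fst).card + (F.image Prod.snd).card

/-- all degrees are at most `d` -/
def Deg (d : ℕ) (E : Finset (ℕ × ℕ)) : Prop :=
  (∀ i, (E.filter (fun e => e.1 = i)).card ≤ d) ∧ (∀ j, (E.filter (fun e => e.2 = j)).card ≤ d)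

def nb (E D : Finset (ℕ × ℕ)) : Finset (ℕ × ℕ) :=
  E.filter (fun e => ∃ e' ∈ D, e.1 = e'.1 ∨ e.2 = e'.2)

def ball (E : Finset (ℕ × ℕ)) (i : ℕ) : ℕ → Finset (ℕ × ℕ)
  | 0 => E.filter (fun e => e.1 = i)
  | k + 1 => nb E (ball E i k)

lemma card_nb {d : ℕ} {E : Finset (ℕ × ℕ)} (h : Deg d E) (D : Finset (ℕ × ℕ)) :
    (nb E D).card ≤ D.card * (2 * d) := by
  have : nb E D ⊆ D.biUnion
      (fun e' => E.filter (fun e => e.1 = e'.1) ∪ E.filter (fun e => e.2 = e'.2)) := by
    intro e he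
    obtain ⟨he, e', he', h'⟩ := mem_filter.1 he
    refine mem_biUnion.2 ⟨e', he', ?_⟩
    rcases h' with h' | h'
    · exact mem_union_left _ (mem_filter.2 ⟨he, h'⟩)
    · exact mem_union_right _ (mem_filter.2 ⟨he, h'⟩)
  refine (card_le_card this).trans (card_biUnion_le_card_mul _ _ _ fun e' _ => ?_)
  refine (card_union_le _ _).trans ?_
  have := h.1 e'.1
  have := h.2 e'.2
  omega

lemma card_ball {d : ℕ} {E : Finset (ℕ × ℕ)} (h : Deg d E) (i k : ℕ) :
    (ball E i k).card ≤ d * (2 * d) ^ k := by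
  induction k with
  | zero => simpa [ball] using h.1 i
  | succ k ih =>
    refine (card_nb h _).trans ?_
    rw [pow_succ, ← mul_assoc d]
    exact Nat.mul_le_mul_right _ ih

lemma ball_sub (E : Finset (ℕ × ℕ)) (i k : ℕ) : ball E i k ⊆ E := by
  cases k <;> exact filter_subset _ _

lemma ball_succ (E : Finset (ℕ × ℕ)) (i k : ℕ) : ball E i k ⊆ ball E i (k + 1) := fun e he =>
  mem_filter.2 ⟨ball_sub E i k he, e, he, Or.inl rfl⟩

lemma ball_mono (E : Finset (ℕ × ℕ)) (i : ℕ) : Monotone (ball E i) :=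
  monotone_nat_of_le_succ (ball_succ E i)

lemma exists_stable {α : Type} (f : ℕ → Finset α) (hf : ∀ k, f k ⊆ f (k + 1)) (L : ℕ)
    (hL : (f L).card < L) : ∃ k < L, f (k + 1) = f k := by
  by_contra hne
  push Not at hne
  have : ∀ k ≤ L, k ≤ (f k).card := by
    intro k
    induction k with
    | zero => intro _; exact Nat.zero_le _
    | succ k ih =>
      intro hk
      have h1 := ih (by omega)
      have h2 : f k ⊂ f (k + 1) := ⟨hf k, fun h => hne k (by omega) (Subset.antisymm h (hf k))⟩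
      have := card_lt_card h2
      omega
  have := this L le_rfl
  omega

lemma sparse_insert {L : ℕ} {E : Finset (ℕ × ℕ)} (h : Sparse L E) (i j : ℕ)
    (hj : ∀ e ∈ ball E i L, e.2 ≠ j) : Sparse L (insert (i, j) E) := by
  intro F hF hcard hne
  by_cases hij : (i, j) ∈ F
  swap
  · exact h F (fun e he => (mem_insert.1 (hF he)).resolve_left (fun h' => hij (h' ▸ he))) hcard hne
  set F0 := F.erase (i, j) with hF0
  have hF0E : F0 ⊆ E := fun e he =>
    (mem_insert.1 (hF (mem_of_mem_erase he))).resolve_left (ne_of_mem_erase he)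
  have hc0 : F0.card + 1 = F.card := card_erase_add_one hij
  obtain ⟨k, hk, hst⟩ := exists_stable (fun k => F0 ∩ ball E i k)
    (fun k => inter_subset_inter_left (ball_succ E i k)) L
    (lt_of_le_of_lt (card_le_card inter_subset_left) (by omega))
  set F1 := F0 ∩ ball E i k with hF1
  set F2 := F0 \ ball E i k with hF2
  have hsum : F1.card + F2.card = F0.card := by
    rw [hF1, hF2, add_comm]; exact card_sdiff_add_card_inter _ _
  have hkey : ∀ e ∈ F2, ∀ e' ∈ F1, e.1 ≠ e'.1 ∧ e.2 ≠ e'.2 := by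
    intro e he e' he'
    have he0 := (mem_sdiff.1 he).1
    have : ¬ (e.1 = e'.1 ∨ e.2 = e'.2) := by
      intro hh
      have : e ∈ F0 ∩ ball E i (k + 1) :=
        mem_inter.2 ⟨he0, mem_filter.2 ⟨hF0E he0, e', (mem_inter.1 he').2, hh⟩⟩
      have hst' : F0 ∩ ball E i (k + 1) = F0 ∩ ball E i k := hst
      rw [hst'] at this
      exact (mem_sdiff.1 he).2 (mem_inter.1 this).2
    exact not_or.1 this
  have hi2 : ∀ e ∈ F2, e.1 ≠ i := by
    intro e he hh
    have : e ∈ ball E i 0 := mem_filter.2 ⟨hF0E (mem_sdiff.1 he).1, hh⟩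
    exact (mem_sdiff.1 he).2 (ball_mono E i (Nat.zero_le k) this)
  have hj1 : ∀ e ∈ F1, e.2 ≠ j := fun e he =>
    hj e (ball_mono E i hk.le (mem_inter.1 he).2)
  have a1 : F1.card < (insert i (F1.image Prod.fst)).card + (F1.image Prod.snd).card := by
    rcases F1.eq_empty_or_nonempty with h0 | h0
    · rw [h0]; simp
    · have := h F1 (inter_subset_left.trans hF0E) (by omega) h0
      have := card_le_card (subset_insert i (F1.image Prod.fst))
      omega
  have a2 : F2.card < (F2.image Prod.fst).card + (insert j (F2.image Prod.snd)).card := by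
    rcases F2.eq_empty_or_nonempty with h0 | h0
    · rw [h0]; simp
    · have := h F2 (sdiff_subset.trans hF0E) (by omega) h0
      have := card_le_card (subset_insert j (F2.image Prod.snd))
      omega
  have s1 : F1 ⊆ F := inter_subset_left.trans (erase_subset _ _)
  have s2 : F2 ⊆ F := sdiff_subset.trans (erase_subset _ _)
  have b1 : (insert i (F1.image Prod.fst)).card + (F2.image Prod.fst).card ≤
      (F.image Prod.fst).card := by
    rw [← card_union_of_disjoint]
    · apply card_le_card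
      refine union_subset (insert_subset (mem_image.2 ⟨_, hij, rfl⟩) (image_subset_image s1))
        (image_subset_image s2)
    · rw [disjoint_right]
      intro x hx hx'
      obtain ⟨e, he, rfl⟩ := mem_image.1 hx
      rcases mem_insert.1 hx' with h' | h'
      · exact hi2 e he h'
      · obtain ⟨e', he', h''⟩ := mem_image.1 h'
        exact (hkey e he e' he').1 h''.symm
  have b2 : (F1.image Prod.snd).card + (insert j (F2.image Prod.snd)).card ≤
      (F.image Prod.snd).card := by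
    rw [← card_union_of_disjoint]
    · apply card_le_card
      refine union_subset (image_subset_image s1)
        (insert_subset (mem_image.2 ⟨_, hij, rfl⟩) (image_subset_image s2))
    · rw [disjoint_left]
      intro x hx hx'
      obtain ⟨e', he', rfl⟩ := mem_image.1 hx
      rcases mem_insert.1 hx' with h' | h'
      · exact hj1 e' he' h'
      · obtain ⟨e, he, h''⟩ := mem_image.1 h'
        exact (hkey e he e' he').2 h''
  omega

lemma exists_graph (d L : ℕ) (V : Finset ℕ) (hV : 2 * (d * (2 * d) ^ L) ≤ V.card) :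
    ∃ E ⊆ V ×ˢ V, Deg d E ∧ Sparse L E ∧ d * V.card ≤ 2 * E.card := by
  classical
  obtain ⟨E, hE, hmax⟩ := exists_max_image
    ((V ×ˢ V).powerset.filter (fun E => Deg d E ∧ Sparse L E)) card
    ⟨∅, mem_filter.2 ⟨by simp, ⟨fun _ => by simp, fun _ => by simp⟩, fun F hF _ hne => by
      rw [subset_empty] at hF; rw [hF] at hne; exact absurd hne (by simp)⟩⟩
  obtain ⟨hEV, hdeg, hsp⟩ := mem_filter.1 hE
  rw [mem_powerset] at hEV
  refine ⟨E, hEV, hdeg, hsp, ?_⟩
  by_cases hi : ∃ i ∈ V, (E.filter (fun e => e.1 = i)).card < d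
  · obtain ⟨i, hiV, hi⟩ := hi
    set J := (ball E i L).image Prod.snd with hJ
    have hJc : J.card ≤ d * (2 * d) ^ L := card_image_le.trans (card_ball hdeg i L)
    have hcol : ∀ j ∈ V \ J, d ≤ (E.filter (fun e => e.2 = j)).card := by
      intro j hj
      by_contra hlt
      push Not at hlt
      have hj' : ∀ e ∈ ball E i L, e.2 ≠ j := fun e he hh =>
        (mem_sdiff.1 hj).2 (mem_image.2 ⟨e, he, hh⟩)
      have hnot : (i, j) ∉ E := fun hh =>
        hj' (i, j) (ball_mono E i (Nat.zero_le L) (mem_filter.2 ⟨hh, rfl⟩)) rfl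
      have := hmax (insert (i, j) E) (mem_filter.2 ⟨mem_powerset.2
        (insert_subset (mem_product.2 ⟨hiV, (mem_sdiff.1 hj).1⟩) hEV), ⟨?_, ?_⟩,
        sparse_insert hsp i j hj'⟩)
      · rw [card_insert_of_notMem hnot] at this
        omega
      · intro i'
        rw [filter_insert]
        split_ifs with h'
        · have h'' : i = i' := h'
          subst h''
          exact (card_insert_le _ _).trans hi
        · exact hdeg.1 i'
      · intro j'
        rw [filter_insert]
        split_ifs with h'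
        · have h'' : j = j' := h'
          subst h''
          exact (card_insert_le _ _).trans hlt
        · exact hdeg.2 j'
    have h1 : E.card = ∑ j ∈ V, (E.filter (fun e => e.2 = j)).card :=
      card_eq_sum_card_fiberwise (fun e he => (mem_product.1 (hEV he)).2)
    have h2 : (V \ J).card * d ≤ E.card := by
      rw [h1]
      refine le_trans ?_ (sum_le_sum_of_subset (sdiff_subset (s := V) (t := J)))
      simpa using card_nsmul_le_sum _ _ _ hcol
    have h3 : V.card ≤ (V \ J).card + J.card := by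
      have := le_card_sdiff J V
      omega
    have h4 : V.card ≤ 2 * (V \ J).card := by omega
    calc d * V.card ≤ d * (2 * (V \ J).card) := Nat.mul_le_mul_left _ h4
      _ = 2 * ((V \ J).card * d) := by ring
      _ ≤ 2 * E.card := Nat.mul_le_mul_left _ h2
  · push Not at hi
    have h1 : E.card = ∑ i ∈ V, (E.filter (fun e => e.1 = i)).card :=
      card_eq_sum_card_fiberwise (fun e he => (mem_product.1 (hEV he)).1)
    have h2 : V.card * d ≤ E.card := by
      rw [h1]
      simpa using card_nsmul_le_sum _ _ _ hi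
    nlinarith

/-- orientation of small subgraphs -/
lemma Sparse.orient {L : ℕ} {E : Finset (ℕ × ℕ)} (h : Sparse L E) (F : Finset (ℕ × ℕ))
    (hF : F ⊆ E) (hc : F.card ≤ L) :
    ∃ o : ℕ × ℕ → Prop, (∀ e ∈ F, ∀ e' ∈ F, o e → o e' → e.1 = e'.1 → e = e') ∧
      (∀ e ∈ F, ∀ e' ∈ F, ¬ o e → ¬ o e' → e.2 = e'.2 → e = e') := by
  classical
  let t : F → Finset (ℕ ⊕ ℕ) := fun e => {Sum.inl e.1.1, Sum.inr e.1.2}
  have hall : ∀ s : Finset F, s.card ≤ (s.biUnion t).card := by
    intro s
    rcases s.eq_empty_or_nonempty with h0 | h0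
    · rw [h0]; simp
    set s' := s.map (Function.Embedding.subtype _) with hs'
    have hsub : s' ⊆ F := by
      intro e he
      obtain ⟨e', _, rfl⟩ := mem_map.1 he
      exact e'.2
    have h1 := h s' (hsub.trans hF) ((card_le_card hsub).trans hc) (h0.map)
    rw [hs', card_map, ← hs', ← card_disjSum] at h1
    refine h1.le.trans (card_le_card ?_)
    intro x hx
    rcases mem_disjSum.1 hx with ⟨a, ha, rfl⟩ | ⟨a, ha, rfl⟩
    · obtain ⟨e, he, rfl⟩ := mem_image.1 ha
      obtain ⟨e', he', rfl⟩ := mem_map.1 he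
      exact mem_biUnion.2 ⟨e', he', by simp [t]⟩
    · obtain ⟨e, he, rfl⟩ := mem_image.1 ha
      obtain ⟨e', he', rfl⟩ := mem_map.1 he
      exact mem_biUnion.2 ⟨e', he', by simp [t]⟩
  obtain ⟨f, hf, hft⟩ := (all_card_le_biUnion_card_iff_exists_injective t).1 hall
  refine ⟨fun e => ∃ he : e ∈ F, f ⟨e, he⟩ = Sum.inl e.1, ?_, ?_⟩
  · rintro e he e' he' ⟨_, h1⟩ ⟨_, h2⟩ h3
    have : f ⟨e, he⟩ = f ⟨e', he'⟩ := by rw [h1, h2, h3]
    exact congrArg Subtype.val (hf this)
  · intro e he e' he' h1 h2 h3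
    have a1 : f ⟨e, he⟩ = Sum.inr e.2 := by
      have := hft ⟨e, he⟩
      simp only [t, mem_insert, mem_singleton] at this
      exact this.resolve_left fun h => h1 ⟨he, h⟩
    have a2 : f ⟨e', he'⟩ = Sum.inr e'.2 := by
      have := hft ⟨e', he'⟩
      simp only [t, mem_insert, mem_singleton] at this
      exact this.resolve_left fun h => h2 ⟨he', h⟩
    have : f ⟨e, he⟩ = f ⟨e', he'⟩ := by rw [a1, a2, h3]
    exact congrArg Subtype.val (hf this)

lemma exists_signs_exp {Ω : Type} (W : Finset Ω) (t : Ω → ℕ × ℕ → ℝ) (ht : ∀ ω e, |t ω e| ≤ 1)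
    (lam : ℝ) (E : Finset (ℕ × ℕ)) :
    ∃ s : ℕ × ℕ → ℝ, (∀ e, s e = 1 ∨ s e = -1) ∧
      ∑ ω ∈ W, Real.exp (lam * ∑ e ∈ E, s e * t ω e) ≤
        W.card * Real.exp (lam ^ 2 / 2 * E.card) := by
  classical
  induction E using Finset.induction_on with
  | empty => exact ⟨fun _ => 1, fun _ => Or.inl rfl, by simp⟩
  | insert a E ha ih =>
    obtain ⟨s, hs, hle⟩ := ih
    have hsum : ∀ (c : ℝ) (ω : Ω), ∑ e ∈ insert a E, Function.update s a c e * t ω e =
        c * t ω a + ∑ e ∈ E, s e * t ω e := by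
      intro c ω
      rw [sum_insert ha, Function.update_self]
      congr 1
      refine sum_congr rfl fun e he => ?_
      have hne : e ≠ a := fun h => ha (h ▸ he)
      rw [Function.update_of_ne hne]
    have hsg : ∀ c : ℝ, (c = 1 ∨ c = -1) → ∀ e, Function.update s a c e = 1 ∨
        Function.update s a c e = -1 := by
      intro c hc e
      by_cases h : e = a
      · subst h; rw [Function.update_self]; exact hc
      · rw [Function.update_of_ne h]; exact hs e
    have htot : ∑ ω ∈ W, Real.exp (lam * (1 * t ω a + ∑ e ∈ E, s e * t ω e)) +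
        ∑ ω ∈ W, Real.exp (lam * (-1 * t ω a + ∑ e ∈ E, s e * t ω e)) ≤
        2 * (W.card * Real.exp (lam ^ 2 / 2 * (insert a E).card)) := by
      rw [← sum_add_distrib, card_insert_of_notMem ha]
      have : ∀ ω ∈ W, Real.exp (lam * (1 * t ω a + ∑ e ∈ E, s e * t ω e)) +
          Real.exp (lam * (-1 * t ω a + ∑ e ∈ E, s e * t ω e)) ≤
          2 * Real.exp (lam ^ 2 / 2) * Real.exp (lam * ∑ e ∈ E, s e * t ω e) := by
        intro ω _
        have h1 := Real.cosh_le_exp_half_sq (lam * t ω a)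
        have h2 : (lam * t ω a) ^ 2 / 2 ≤ lam ^ 2 / 2 := by
          have : (t ω a) ^ 2 ≤ 1 := by
            have := ht ω a
            rw [← sq_abs]
            nlinarith [abs_nonneg (t ω a)]
          rw [mul_pow]
          nlinarith [sq_nonneg lam]
        have h3 := h1.trans (Real.exp_le_exp.2 h2)
        rw [Real.cosh_eq] at h3
        rw [mul_add, mul_add, Real.exp_add, Real.exp_add, ← add_mul]
        refine mul_le_mul_of_nonneg_right ?_ (Real.exp_pos _).le
        have e1 : lam * (1 * t ω a) = lam * t ω a := by ring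
        have e2 : lam * (-1 * t ω a) = -(lam * t ω a) := by ring
        rw [e1, e2]
        linarith
      refine (sum_le_sum this).trans ?_
      rw [← mul_sum]
      have e3 : Real.exp (lam ^ 2 / 2 * ((E.card + 1 : ℕ) : ℝ)) =
          Real.exp (lam ^ 2 / 2) * Real.exp (lam ^ 2 / 2 * E.card) := by
        rw [← Real.exp_add]; congr 1; push_cast; ring
      rw [e3]
      have := mul_le_mul_of_nonneg_left hle (by positivity : 0 ≤ 2 * Real.exp (lam ^ 2 / 2))
      linarith
    by_cases hc : ∑ ω ∈ W, Real.exp (lam * (1 * t ω a + ∑ e ∈ E, s e * t ω e)) ≤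
        W.card * Real.exp (lam ^ 2 / 2 * (insert a E).card)
    · refine ⟨Function.update s a 1, hsg 1 (Or.inl rfl), ?_⟩
      simp only [hsum]
      exact hc
    · refine ⟨Function.update s a (-1), hsg (-1) (Or.inr rfl), ?_⟩
      simp only [hsum]
      linarith

def sg (P : Finset ℕ) (i : ℕ) : ℝ := if i ∈ P then 1 else -1

lemma abs_sg (P : Finset ℕ) (i : ℕ) : |sg P i| ≤ 1 := by
  unfold sg; split_ifs <;> simp

lemma exists_sg (E : Finset (ℕ × ℕ)) (V : Finset ℕ) (π : ℕ × ℕ → ℕ) (hπ : ∀ e ∈ E, π e ∈ V)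
    (g : ℕ × ℕ → ℝ) (x : ℕ → ℝ) (hx : ∀ i, |x i| ≤ 1) :
    ∃ P ∈ V.powerset, ∑ e ∈ E, g e * x (π e) ≤ ∑ e ∈ E, g e * sg P (π e) := by
  classical
  let c : ℕ → ℝ := fun i => ∑ e ∈ E with π e = i, g e
  have hc : ∀ y : ℕ → ℝ, ∑ e ∈ E, g e * y (π e) = ∑ i ∈ V, c i * y i := by
    intro y
    rw [← sum_fiberwise_of_maps_to hπ]
    refine sum_congr rfl fun i _ => ?_
    rw [sum_mul]
    refine sum_congr rfl fun e he => ?_
    rw [(mem_filter.1 he).2]
  refine ⟨V.filter (fun i => 0 ≤ c i), mem_powerset.2 (filter_subset _ _), ?_⟩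
  rw [hc, hc]
  refine sum_le_sum fun i hi => ?_
  have := abs_le.1 (hx i)
  unfold sg
  by_cases h : 0 ≤ c i
  · rw [if_pos (mem_filter.2 ⟨hi, h⟩)]
    nlinarith [this.2]
  · have hn : i ∉ V.filter (fun i => 0 ≤ c i) := fun h' => h (mem_filter.1 h').2
    rw [if_neg hn]
    nlinarith [this.1]

lemma exists_block (δ : ℝ) (hδ : 0 < δ) : ∃ d : ℕ, 0 < d ∧ ∀ L : ℕ, ∃ N : ℕ, ∀ V : Finset ℕ,
    V.card = N → ∃ (E : Finset (ℕ × ℕ)) (s : ℕ × ℕ → ℝ), E ⊆ V ×ˢ V ∧ E.Nonempty ∧ Deg d E ∧
      Sparse L E ∧ (∀ e, s e = 1 ∨ s e = -1) ∧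
      ∀ x y : ℕ → ℝ, (∀ i, |x i| ≤ 1) → (∀ i, |y i| ≤ 1) →
        ∑ e ∈ E, s e * x e.1 * y e.2 ≤ δ * E.card := by
  classical
  obtain ⟨d, hd⟩ := exists_nat_gt (8 / δ ^ 2)
  have hd0 : 0 < d := by
    have : (0 : ℝ) < d := lt_trans (by positivity) hd
    exact_mod_cast this
  refine ⟨d, hd0, fun L => ⟨2 * (d * (2 * d) ^ L), fun V hV => ?_⟩⟩
  obtain ⟨E, hEV, hdeg, hsp, hcard⟩ := exists_graph d L V hV.ge
  have hV0 : 0 < V.card := by rw [hV]; positivity
  have hE0 : E.Nonempty := by
    rw [← card_pos]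
    have := Nat.mul_pos hd0 hV0
    omega
  obtain ⟨s, hs, hle⟩ := exists_signs_exp (V.powerset ×ˢ V.powerset)
    (fun ω e => sg ω.1 e.1 * sg ω.2 e.2)
    (fun ω e => by
      rw [abs_mul]
      exact mul_le_one₀ (abs_sg _ _) (abs_nonneg _) (abs_sg _ _)) δ E
  refine ⟨E, s, hEV, hE0, hdeg, hsp, hs, fun x y hx hy => ?_⟩
  obtain ⟨Q, hQ, h1⟩ := exists_sg E V Prod.snd (fun e he => (mem_product.1 (hEV he)).2)
    (fun e => s e * x e.1) y hy
  obtain ⟨P, hP, h2⟩ := exists_sg E V Prod.fst (fun e he => (mem_product.1 (hEV he)).1)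
    (fun e => s e * sg Q e.2) x hx
  have h3 : ∑ e ∈ E, s e * x e.1 * y e.2 ≤ ∑ e ∈ E, s e * (sg P e.1 * sg Q e.2) := by
    refine h1.trans ?_
    calc ∑ e ∈ E, s e * x e.1 * sg Q e.2 = ∑ e ∈ E, s e * sg Q e.2 * x e.1 :=
          sum_congr rfl fun e _ => by ring
      _ ≤ _ := h2
      _ = _ := sum_congr rfl fun e _ => by ring
  refine h3.trans ?_
  have h4 := (single_le_sum (f := fun ω : Finset ℕ × Finset ℕ =>
      Real.exp (δ * ∑ e ∈ E, s e * (sg ω.1 e.1 * sg ω.2 e.2)))
    (fun ω _ => (Real.exp_pos _).le) (mem_product.2 ⟨hP, hQ⟩ : (P, Q) ∈ _)).trans hle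
  have h5 : (((V.powerset ×ˢ V.powerset).card : ℕ) : ℝ) ≤ Real.exp (2 * V.card) := by
    rw [card_product, card_powerset]
    push_cast
    have h2e : (2 : ℝ) ≤ Real.exp 1 := by
      have := Real.add_one_le_exp (1 : ℝ)
      linarith
    have : (2 : ℝ) ^ V.card ≤ Real.exp (V.card) := by
      rw [← Real.exp_one_pow]
      exact pow_le_pow_left₀ (by norm_num) h2e _
    rw [two_mul, Real.exp_add]
    exact mul_le_mul this this (by positivity) (Real.exp_pos _).le
  have h6 := h4.trans (mul_le_mul_of_nonneg_right h5 (Real.exp_pos _).le)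
  rw [← Real.exp_add, Real.exp_le_exp] at h6
  have h7 : (d : ℝ) * V.card ≤ 2 * E.card := by exact_mod_cast hcard
  have h8 : 8 ≤ δ ^ 2 * d := by
    rw [div_lt_iff₀ (by positivity)] at hd
    linarith
  have h9 : 2 * (V.card : ℝ) ≤ δ ^ 2 / 2 * E.card := by
    have hv : (0 : ℝ) ≤ V.card := Nat.cast_nonneg _
    nlinarith [mul_le_mul_of_nonneg_left h7 (sq_nonneg δ), mul_le_mul_of_nonneg_right h8 hv]
  have h10 : δ * ∑ e ∈ E, s e * (sg P e.1 * sg Q e.2) ≤ δ * (δ * E.card) := by
    simp only at h6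
    nlinarith
  exact le_of_mul_le_mul_left h10 hδ

end Pool.Agent.H568Z.Ideals
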