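import Pool.Agent.H568Z.IdealCore

set_option autoImplicit false

namespace Pool.Agent.H568Z.Ideals

open Finset Filter Topology

abbrev X1 : Type := lp (fun _ : ℕ => ℝ) (1 : ENNReal)
abbrev Y0 : Type := ZeroAtInftyContinuousMap ℕ ℝ

noncomputable def unitY (k : ℕ) : Y0 where
  toFun := Pi.single k 1
  continuous_toFun := continuous_of_discreteTopology
  zero_at_infty' := by
    rw [cocompact_eq_cofinite]
    refine tendsto_const_nhds.congr' ?_
    refine (Set.finite_singleton k).subset ?_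
    intro i hi
    by_contra h
    exact hi (by simp [Pi.single_eq_of_ne (show i ≠ k from h)])

lemma unitY_apply (k i : ℕ) : unitY k i = if i = k then 1 else 0 := by
  change (Pi.single k 1 : ℕ → ℝ) i = _
  rw [Pi.single_apply]

lemma abs_le_normY (f : Y0) (i : ℕ) : |f i| ≤ ‖f‖ :=
  f.toBCF.norm_coe_le_norm i

lemma normY_le (f : Y0) (C : ℝ) (hC : 0 ≤ C) (h : ∀ i, |f i| ≤ C) : ‖f‖ ≤ C :=
  (BoundedContinuousFunction.norm_le (f := f.toBCF) hC).2 h

noncomputable def ev (i : ℕ) : Y0 →L[ℝ] ℝ :=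
  LinearMap.mkContinuous
    { toFun := fun f => f i
      map_add' := fun _ _ => rfl
      map_smul' := fun _ _ => rfl } 1 (fun f => by simpa using abs_le_normY f i)

lemma ev_apply (i : ℕ) (f : Y0) : ev i f = f i := rfl

lemma sumY_apply {α : Type} (F : Finset α) (c : α → ℝ) (p : α → ℕ) (i : ℕ) :
    (∑ f ∈ F, c f • unitY (p f)) i = ∑ f ∈ F with p f = i, c f := by
  rw [← ev_apply, map_sum, sum_filter]
  refine sum_congr rfl fun f _ => ?_
  rw [map_smul, ev_apply, unitY_apply]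
  by_cases h : p f = i
  · simp [h]
  · simp [h, Ne.symm h]

lemma norm_sumY_le {α : Type} (F : Finset α) (c : α → ℝ) (p : α → ℕ) (hc : ∀ f, |c f| ≤ 1)
    (hp : ∀ f ∈ F, ∀ f' ∈ F, p f = p f' → f = f') : ‖∑ f ∈ F, c f • unitY (p f)‖ ≤ 1 := by
  refine normY_le _ _ zero_le_one fun i => ?_
  rw [sumY_apply]
  refine (abs_sum_le_sum_abs _ _).trans ((sum_le_card_nsmul _ _ 1 fun f _ => hc f).trans ?_)
  have : (F.filter (fun f => p f = i)).card ≤ 1 := card_le_one.2 fun f hf f' hf' =>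
    hp f (mem_filter.1 hf).1 f' (mem_filter.1 hf').1
      ((mem_filter.1 hf).2.trans (mem_filter.1 hf').2.symm)
  simpa using this

lemma row_bound (B : Y0 →L[ℝ] Y0) (i : ℕ) (K : Finset ℕ) : ∑ k ∈ K, |B (unitY k) i| ≤ ‖B‖ := by
  let c : ℕ → ℝ := fun k => if 0 ≤ B (unitY k) i then 1 else -1
  have h1 : ‖∑ k ∈ K, c k • unitY k‖ ≤ 1 :=
    norm_sumY_le K c id (fun k => by simp only [c]; split_ifs <;> simp) (fun _ _ _ _ h => h)
  have h2 : ∑ k ∈ K, |B (unitY k) i| = B (∑ k ∈ K, c k • unitY k) i := by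
    rw [← ev_apply, map_sum, map_sum]
    refine sum_congr rfl fun k _ => ?_
    rw [map_smul, map_smul, ev_apply, smul_eq_mul]
    simp only [c]
    split_ifs with h
    · rw [abs_of_nonneg h, one_mul]
    · rw [abs_of_neg (not_le.1 h)]; ring
  rw [h2]
  refine (le_abs_self _).trans ((abs_le_normY _ _).trans ((B.le_opNorm _).trans ?_))
  exact mul_le_of_le_one_right (norm_nonneg _) h1

lemma sum_abs_le_norm (v : X1) (K : Finset ℕ) : ∑ k ∈ K, |v k| ≤ ‖v‖ := by
  have := lp.sum_rpow_le_norm_rpow (p := 1) (by simp) v K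
  simpa using this

lemma summable_col (col : ℕ → Y0) (hcol : ∀ l, ‖col l‖ ≤ 1) (v : X1) :
    Summable (fun l => ‖v l • col l‖) := by
  refine summable_of_sum_le (c := ‖v‖) (fun _ => norm_nonneg _) fun K => ?_
  refine le_trans (sum_le_sum fun l _ => ?_) (sum_abs_le_norm v K)
  rw [norm_smul, Real.norm_eq_abs]
  exact mul_le_of_le_one_right (abs_nonneg _) (hcol l)

noncomputable def lift (col : ℕ → Y0) (hcol : ∀ l, ‖col l‖ ≤ 1) : X1 →L[ℝ] Y0 :=
  LinearMap.mkContinuous
    { toFun := fun v => ∑' l, v l • col l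
      map_add' := fun v w => by
        rw [← (summable_col col hcol v).of_norm.tsum_add (summable_col col hcol w).of_norm]
        congr 1
        funext l
        exact add_smul (v l) (w l) (col l)
      map_smul' := fun c v => by
        rw [RingHom.id_apply, ← (summable_col col hcol v).of_norm.tsum_const_smul c]
        congr 1
        funext l
        exact mul_smul c (v l) (col l) } 1 (fun v => by
    rw [one_mul]
    refine (norm_tsum_le_tsum_norm (summable_col col hcol v)).trans ?_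
    refine (summable_col col hcol v).tsum_le_of_sum_le fun K => ?_
    refine le_trans (sum_le_sum fun l _ => ?_) (sum_abs_le_norm v K)
    rw [norm_smul, Real.norm_eq_abs]
    exact mul_le_of_le_one_right (abs_nonneg _) (hcol l))

lemma hasSum_lift (col : ℕ → Y0) (hcol : ∀ l, ‖col l‖ ≤ 1) (v : X1) :
    HasSum (fun l => v l • col l) (lift col hcol v) :=
  (summable_col col hcol v).of_norm.hasSum

noncomputable def unitX (j : ℕ) : X1 := lp.single 1 j (1 : ℝ)

lemma norm_unitX (j : ℕ) : ‖unitX j‖ = 1 := by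
  rw [unitX, lp.norm_single (by simp)]
  simp

lemma lift_unit (col : ℕ → Y0) (hcol : ∀ l, ‖col l‖ ≤ 1) (j : ℕ) :
    lift col hcol (unitX j) = col j := by
  refine (hasSum_lift col hcol (unitX j)).unique ?_
  have := hasSum_single (f := fun l => unitX j l • col l) j (fun l hl => by
    rw [unitX, lp.single_apply_ne _ _ _ hl, zero_smul])
  rwa [unitX, lp.single_apply_self, one_smul] at this

namespace Sys

variable (S : Sys)

/-- the edges in column `l`, if the block of `l` has colour `k` -/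
def colE (k l : ℕ) : Finset (ℕ × ℕ) :=
  (S.G l.unpair.1).filter (fun f => f.2 = l ∧ l.unpair.1.unpair.1 = k)

noncomputable def col (k l : ℕ) : Y0 := ∑ f ∈ S.colE k l, S.s f • unitY f.1

lemma norm_col (k l : ℕ) : ‖S.col k l‖ ≤ 1 :=
  norm_sumY_le _ _ _ (fun f => (S.abs_s f).le) fun f hf f' hf' h =>
    Prod.ext h ((mem_filter.1 hf).2.1.trans (mem_filter.1 hf').2.1.symm)

noncomputable def T (k : ℕ) : X1 →L[ℝ] Y0 := lift (S.col k) (S.norm_col k)

noncomputable def phi (n : ℕ) : (X1 →L[ℝ] Y0) →ₗ[ℝ] ℝ where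
  toFun U := (∑ e ∈ S.G n, S.s e * U (unitX e.2) e.1) / (S.G n).card
  map_add' U U' := by
    rw [← add_div, ← sum_add_distrib]
    congr 2
    funext e
    rw [← mul_add]
    rfl
  map_smul' c U := by
    rw [RingHom.id_apply, smul_eq_mul, ← mul_div_assoc, mul_sum]
    congr 2
    funext e
    rw [mul_left_comm]
    rfl

lemma phi_apply (n : ℕ) (U : X1 →L[ℝ] Y0) :
    S.phi n U = (∑ e ∈ S.G n, S.s e * U (unitX e.2) e.1) / (S.G n).card := rfl

lemma card_pos' (n : ℕ) : (0 : ℝ) < (S.G n).card := by exact_mod_cast card_pos.2 (S.ne n)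

lemma abs_phi_le (n : ℕ) (U : X1 →L[ℝ] Y0) : |S.phi n U| ≤ ‖U‖ := by
  rw [phi_apply, abs_div, abs_of_pos (S.card_pos' n), div_le_iff₀ (S.card_pos' n)]
  refine (abs_sum_le_sum_abs _ _).trans ((sum_le_card_nsmul _ _ ‖U‖ fun e _ => ?_).trans
    (by rw [nsmul_eq_mul, mul_comm]))
  rw [abs_mul, abs_s, one_mul]
  refine (abs_le_normY _ _).trans ((U.le_opNorm _).trans ?_)
  rw [norm_unitX, mul_one]

lemma phi_T_self (k n : ℕ) (h : n.unpair.1 = k) : S.phi n (S.T k) = 1 := by
  rw [phi_apply, div_eq_one_iff_eq (S.card_pos' n).ne']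
  have : ∀ e ∈ S.G n, S.s e * S.T k (unitX e.2) e.1 = 1 := by
    intro e he
    rw [T, lift_unit, col, sumY_apply]
    have h2 := (S.blk n e he).2
    have : (S.colE k e.2).filter (fun f => f.1 = e.1) = {e} := by
      ext f
      simp only [colE, mem_filter, mem_singleton]
      constructor
      · rintro ⟨⟨_, h3, _⟩, h4⟩
        exact Prod.ext h4 h3
      · rintro rfl
        exact ⟨⟨by rw [h2]; exact he, rfl, by rw [h2, h]⟩, rfl⟩
    rw [this, sum_singleton]
    rcases S.sign e with h | h <;> simp [h]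
  rw [sum_congr rfl this]
  simp

lemma phi_T_other (k n : ℕ) (h : n.unpair.1 ≠ k) (A : X1 →L[ℝ] X1) (B : Y0 →L[ℝ] Y0) (C : ℝ)
    (hC : 0 < C) (hA : ‖A‖ ≤ C) (hB : ‖B‖ ≤ C) (hCn : C ≤ n) :
    |S.phi n (B.comp ((S.T k).comp A))| ≤ (3 * C ^ 2 + C) / ((n : ℝ) + 1) := by
  classical
  rw [phi_apply, abs_div, abs_of_pos (S.card_pos' n), div_le_iff₀ (S.card_pos' n)]
  let a : ℕ → ℕ → ℝ := fun i k => B (unitY k) i
  let b : ℕ → ℕ → ℝ := fun j l => A (unitX j) l
  have ha : ∀ i (K : Finset ℕ), ∑ k ∈ K, |a i k| ≤ C := fun i K => (row_bound B i K).trans hB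
  have hb : ∀ j (K : Finset ℕ), ∑ k ∈ K, |b j k| ≤ C := fun j K =>
    (sum_abs_le_norm _ K).trans ((A.le_opNorm _).trans (by rw [norm_unitX, mul_one]; exact hA))
  have hs : HasSum (fun l => ∑ e ∈ S.G n, S.s e * ((ev e.1).comp B) (A (unitX e.2) l • S.col k l))
      (∑ e ∈ S.G n, S.s e * (B.comp ((S.T k).comp A)) (unitX e.2) e.1) :=
    hasSum_sum fun e _ =>
      (((ev e.1).comp B).hasSum (hasSum_lift (S.col k) (S.norm_col k) (A (unitX e.2)))).mul_left _
  refine le_of_tendsto' (continuous_abs.continuousAt.tendsto.comp hs) fun Λ => ?_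
  have hdisj : (Λ : Set ℕ).PairwiseDisjoint (S.colE k) := by
    intro l _ l' _ hll
    rw [Function.onFun, disjoint_left]
    intro f hf hf'
    exact hll ((mem_filter.1 hf).2.1.symm.trans (mem_filter.1 hf').2.1)
  have hcore := S.core_abs n C hC hCn a b ha hb (Λ.biUnion (S.colE k)) (by
    intro f hf
    obtain ⟨l, _, hl⟩ := mem_biUnion.1 hf
    obtain ⟨h1, h2, h3⟩ := mem_filter.1 hl
    have h4 := (S.blk _ f h1).1
    rw [h4]
    exact ⟨h1, fun h5 => h (by rw [← h5, h3])⟩)
  rw [sum_biUnion hdisj] at hcore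
  refine le_trans (le_of_eq ?_) hcore
  rw [Function.comp_apply]
  congr 1
  refine sum_congr rfl fun l _ => ?_
  simp only [W_apply, mul_sum, col, map_smul, map_sum, smul_eq_mul]
  rw [sum_comm]
  refine sum_congr rfl fun f hf => sum_congr rfl fun e _ => ?_
  simp only [a, b, (mem_filter.1 hf).2.1, ContinuousLinearMap.comp_apply, ev_apply]
  ring

/-- the closed ideal attached to a set of colours -/
def ideal (P : Set ℕ) : Submodule ℝ (X1 →L[ℝ] Y0) where
  carrier := {U | ∀ (A : X1 →L[ℝ] X1) (B : Y0 →L[ℝ] Y0),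
    Tendsto (fun n => S.phi n (B.comp (U.comp A))) (atTop ⊓ 𝓟 {n | n.unpair.1 ∈ P}) (𝓝 0)}
  zero_mem' := by
    intro A B
    simpa using tendsto_const_nhds
  add_mem' := by
    intro U U' hU hU' A B
    have := (hU A B).add (hU' A B)
    simpa [ContinuousLinearMap.add_comp, ContinuousLinearMap.comp_add] using this
  smul_mem' := by
    intro c U hU A B
    have := (hU A B).const_mul c
    simpa [ContinuousLinearMap.smul_comp, ContinuousLinearMap.comp_smul] using this

lemma isClosed_ideal (P : Set ℕ) : IsClosed (S.ideal P : Set (X1 →L[ℝ] Y0)) := by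
  have : (S.ideal P : Set (X1 →L[ℝ] Y0)) = ⋂ (A : X1 →L[ℝ] X1), ⋂ (B : Y0 →L[ℝ] Y0),
      {U : X1 →L[ℝ] Y0 | Tendsto (fun n => S.phi n (B.comp (U.comp A)))
        (atTop ⊓ 𝓟 {n | n.unpair.1 ∈ P}) (𝓝 0)} := by
    ext U
    simp only [Set.mem_iInter]
    rfl
  rw [this]
  refine isClosed_iInter fun A => isClosed_iInter fun B => ?_
  refine Equicontinuous.isClosed_setOfPred_tendsto
    (F := fun n (U : X1 →L[ℝ] Y0) => S.phi n (B.comp (U.comp A))) (f := fun _ => 0) ?_
    continuous_const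
  refine (LipschitzWith.uniformEquicontinuous
    (fun n (U : X1 →L[ℝ] Y0) => S.phi n (B.comp (U.comp A))) (‖B‖₊ * ‖A‖₊)
    fun n => ?_).equicontinuous
  refine LipschitzWith.of_dist_le_mul fun U U' => ?_
  rw [Real.dist_eq, ← map_sub, ← ContinuousLinearMap.comp_sub, ← ContinuousLinearMap.sub_comp,
    dist_eq_norm]
  refine (S.abs_phi_le _ _).trans ((B.opNorm_comp_le _).trans ?_)
  have := mul_le_mul_of_nonneg_left ((U - U').opNorm_comp_le A) (norm_nonneg B)
  refine this.trans (le_of_eq ?_)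
  push_cast
  ring

lemma T_mem (P : Set ℕ) (k : ℕ) (hk : k ∉ P) : S.T k ∈ S.ideal P := by
  intro A B
  set C : ℝ := ‖A‖ + ‖B‖ + 1 with hC
  have hC0 : 0 < C := by positivity
  have hlim : Tendsto (fun n : ℕ => (3 * C ^ 2 + C) / ((n : ℝ) + 1)) atTop (𝓝 0) :=
    tendsto_const_nhds.div_atTop (tendsto_atTop_add_const_right _ _ tendsto_natCast_atTop_atTop)
  refine squeeze_zero_norm' ?_ (hlim.mono_left inf_le_left)
  rw [eventually_inf_principal]
  filter_upwards [tendsto_natCast_atTop_atTop.eventually_ge_atTop C] with n hn hP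
  refine S.phi_T_other k n (fun h => hk (h ▸ hP)) A B C hC0 ?_ ?_ hn
  · linarith [norm_nonneg B]
  · linarith [norm_nonneg A]

lemma T_not_mem (P : Set ℕ) (k : ℕ) (hk : k ∈ P) : S.T k ∉ S.ideal P := by
  intro h
  have h1 := h (ContinuousLinearMap.id ℝ _) (ContinuousLinearMap.id ℝ _)
  have h2 : Tendsto (Nat.pair k) atTop (atTop ⊓ 𝓟 {n | n.unpair.1 ∈ P}) := by
    refine tendsto_inf.2 ⟨tendsto_atTop_mono (fun j => Nat.right_le_pair k j) tendsto_id, ?_⟩
    rw [tendsto_principal]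
    exact Eventually.of_forall fun j => by simpa using hk
  have h3 := h1.comp h2
  have h4 : ((fun n => S.phi n ((ContinuousLinearMap.id ℝ _).comp
      ((S.T k).comp (ContinuousLinearMap.id ℝ _)))) ∘ Nat.pair k) = fun _ => (1 : ℝ) := by
    funext j
    simp only [Function.comp_apply, ContinuousLinearMap.id_comp, ContinuousLinearMap.comp_id]
    exact S.phi_T_self k _ (by simp)
  rw [h4] at h3
  exact one_ne_zero (tendsto_nhds_unique tendsto_const_nhds h3)

lemma ideal_injective : Function.Injective S.ideal := by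
  intro P Q h
  ext k
  constructor
  · intro hk
    by_contra hk'
    exact S.T_not_mem P k hk (h ▸ S.T_mem Q k hk')
  · intro hk
    by_contra hk'
    exact S.T_not_mem Q k hk (h ▸ S.T_mem P k hk')

lemma comp_mem (P : Set ℕ) (U : X1 →L[ℝ] Y0) (hU : U ∈ S.ideal P) (A : X1 →L[ℝ] X1)
    (B : Y0 →L[ℝ] Y0) : B.comp (U.comp A) ∈ S.ideal P := fun A' B' =>
  hU (A.comp A') (B'.comp B)

end Sys

end Pool.Agent.H568Z.Ideals
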