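import Mathlib
import Pool.Agent.H568Z.OrbData

set_option autoImplicit false

namespace Pool.Agent.H568Z.Orb

def Mz (i : Fin 24) : Matrix (Fin 4) (Fin 4) ℤ := Matrix.of fun a b => mzN i a b

def mulT (i j : Fin 24) : Fin 24 := ⟨mulN i j, Nat.mod_lt _ (by norm_num)⟩

def invT (i : Fin 24) : Fin 24 := ⟨invN i, Nat.mod_lt _ (by norm_num)⟩

def hh (k : Fin 16) (i : Fin 24) : Fin 24 := ⟨hhN k i, Nat.mod_lt _ (by norm_num)⟩

def fv (F : ℕ) (t : ℕ) : Fin 24 := ⟨fvN F t, Nat.mod_lt _ (by norm_num)⟩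

def cj (a b : Fin 24) (t : ℕ) : Fin 24 := ⟨cjN a b t, Nat.mod_lt _ (by norm_num)⟩

def adj (a b : Fin 24) : Prop := adjN a b = true

noncomputable def p (i : Fin 24) : Fin 4 → ℝ := fun k => (pzN i k : ℝ)

lemma mul_tab (i j : Fin 24) : Mz i * Mz j = Mz (mulT i j) := by
  have h := mul_tabB
  simp only [allN_iff, decide_eq_true_eq] at h
  ext a b
  rw [Matrix.mul_apply, Fin.sum_univ_four]
  exact h i i.2 j j.2 a a.2 b b.2

lemma one_tab : Mz 0 = 1 := by decide +kernel

lemma inv_tab : ∀ i, mulT i (invT i) = 0 ∧ mulT (invT i) i = 0 := by decide +kernel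

lemma P_tab : ∀ (i : Fin 24) (a : Fin 4), ∑ c : Fin 4, Mz i a c * pzN 0 c = pzN i a := by
  decide +kernel

lemma P_inj : ∀ i j : Fin 24, (∀ k : Fin 4, pzN i k = pzN j k) → i = j := by decide +kernel

lemma P_sum : ∀ k : Fin 4, ∑ i : Fin 24, pzN i k = 0 := by decide +kernel

lemma p_inj : Function.Injective p := fun i j h =>
  P_inj i j fun k => by
    have := congrFun h k
    simp only [p] at this
    exact_mod_cast this

lemma p_sum : ∑ i, p i = 0 := by
  funext k
  rw [Finset.sum_apply]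
  simp only [p, Pi.zero_apply]
  exact_mod_cast P_sum k

noncomputable def fl (F : ℕ) : (Fin 4 → ℝ) →ₗ[ℝ] ℝ :=
  ∑ k : Fin 4, (fnN F k : ℝ) • LinearMap.proj k

lemma fac_tab {F : ℕ} (hF : F < 96) (j : Fin 24) :
    (fmN F j = true → fl F (p j) = fcN F) ∧ (fmN F j = false → fl F (p j) < fcN F) := by
  have h := fac_tabB
  simp only [allN_iff] at h
  have h1 := h F hF j j.2
  have e : fl F (p j) = ((fnN F 0 * pzN j 0 + fnN F 1 * pzN j 1 + fnN F 2 * pzN j 2 +
      fnN F 3 * pzN j 3 : ℤ) : ℝ) := by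
    simp [fl, p, Fin.sum_univ_four]
  rw [e]
  constructor <;> intro h2 <;> rw [h2] at h1 <;> simp only [cond_true, cond_false,
    decide_eq_true_eq] at h1 <;> exact_mod_cast h1

/-- index form of being the vertex set of a face -/
def Fac (q : Fin 24 → Fin 4 → ℝ) (A : Set (Fin 24)) : Prop :=
  ∃ ℓ : (Fin 4 → ℝ) →ₗ[ℝ] ℝ, ∃ c : ℝ, (∀ i, ℓ (q i) ≤ c) ∧ ∀ i, i ∈ A ↔ ℓ (q i) = c

lemma clique_of_fac {A : Set (Fin 24)} (h : Fac p A) :
    A = Set.univ ∨ ∀ a ∈ A, ∀ b ∈ A, adj a b := by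
  obtain ⟨ℓ, c, h1, h2⟩ := h
  have hs : ∑ i, (c - ℓ (p i)) = 24 * c := by
    rw [Finset.sum_sub_distrib, ← map_sum, p_sum]
    simp
  have h0 : ∀ i ∈ Finset.univ, 0 ≤ c - ℓ (p i) := fun i _ => sub_nonneg.2 (h1 i)
  have hc : 0 ≤ c := by
    have := Finset.sum_nonneg h0
    linarith
  rcases hc.eq_or_lt with hc | hc
  · left
    have := (Finset.sum_eq_zero_iff_of_nonneg h0).1 (by rw [hs, ← hc]; simp)
    exact Set.eq_univ_of_forall fun i => (h2 i).2 (by linarith [this i (Finset.mem_univ _)])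
  · right
    intro a ha b hb
    have h := cert_tabB
    simp only [allN_iff, Bool.or_eq_true, Bool.and_eq_true, decide_eq_true_eq] at h
    rcases h a a.2 b b.2 with h | ⟨h3, h4⟩
    · exact h
    exfalso
    have e : (cdN a b : ℝ) • (p a + p b) = (cnN a b 0 : ℝ) • p (cj a b 0) +
        (cnN a b 1 : ℝ) • p (cj a b 1) + (cnN a b 2 : ℝ) • p (cj a b 2) +
        (cnN a b 3 : ℝ) • p (cj a b 3) := by
      funext k
      simp only [p, Pi.add_apply, Pi.smul_apply, smul_eq_mul, cj]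
      exact_mod_cast h4 k k.2
    have e2 := congrArg ℓ e
    simp only [map_add, map_smul, smul_eq_mul, (h2 a).1 ha, (h2 b).1 hb] at e2
    have h5 : (cnN a b 0 : ℝ) + cnN a b 1 + cnN a b 2 + cnN a b 3 < 2 * cdN a b := by
      exact_mod_cast h3
    have g0 := mul_le_mul_of_nonneg_left (h1 (cj a b 0)) (Nat.cast_nonneg (α := ℝ) (cnN a b 0))
    have g1 := mul_le_mul_of_nonneg_left (h1 (cj a b 1)) (Nat.cast_nonneg (α := ℝ) (cnN a b 1))
    have g2 := mul_le_mul_of_nonneg_left (h1 (cj a b 2)) (Nat.cast_nonneg (α := ℝ) (cnN a b 2))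
    have g3 := mul_le_mul_of_nonneg_left (h1 (cj a b 3)) (Nat.cast_nonneg (α := ℝ) (cnN a b 3))
    nlinarith [mul_lt_mul_of_pos_right h5 hc]

lemma fm_tab {F : ℕ} (hF : F < 96) {j : Fin 24} (h : fmN F j = true) :
    j = fv F 0 ∨ j = fv F 1 ∨ j = fv F 2 ∨ j = fv F 3 := by
  have h1 := fm_tabB
  simp only [allN_iff] at h1
  have h2 := h1 F hF j j.2
  simp only [h, Bool.not_true, Bool.false_or, Bool.or_eq_true, Nat.beq_eq] at h2
  simpa [Fin.ext_iff, fv, or_assoc] using h2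

lemma sub_of_clique (l : List (Fin 24)) (h : ∀ a ∈ l, ∀ b ∈ l, adj a b) :
    ∃ F < 96, ∀ a ∈ l, fmN F a = true := by
  induction l with
  | nil => exact ⟨0, by norm_num, by simp⟩
  | cons j l ih =>
    obtain ⟨F, hF, h1⟩ := ih fun a ha b hb => h a (by simp [ha]) b (by simp [hb])
    have h2 := ext_tabB
    simp only [allN_iff, allB_iff] at h2
    have h3 := h2 F hF j j.2 (decide (fv F 0 ∈ l)) (decide (fv F 1 ∈ l)) (decide (fv F 2 ∈ l))
      (decide (fv F 3 ∈ l))
    have h4 : ∀ t, fv F t ∈ l → adjN j (fvN F t) = true := fun t ht =>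
      h j (by simp) (fv F t) (by simp [ht])
    simp only [extB, Bool.or_eq_true, Bool.and_eq_true, decide_eq_true_eq, anyN_iff,
      Bool.not_eq_true', decide_eq_false_iff_not] at h3
    rcases h3 with (((h3 | h3) | h3) | h3) | ⟨F', hF', ⟨⟨⟨g, g0⟩, g1⟩, g2⟩, g3⟩
    · simp [h4 _ h3.1] at h3
    · simp [h4 _ h3.1] at h3
    · simp [h4 _ h3.1] at h3
    · simp [h4 _ h3.1] at h3
    refine ⟨F', hF', fun a ha => ?_⟩
    rcases List.mem_cons.1 ha with rfl | ha
    · exact g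
    rcases fm_tab hF (h1 a ha) with rfl | rfl | rfl | rfl
    exacts [g0.resolve_left (not_not.2 ha), g1.resolve_left (not_not.2 ha),
      g2.resolve_left (not_not.2 ha), g3.resolve_left (not_not.2 ha)]

lemma fac_of_clique {A : Set (Fin 24)} (h : A = Set.univ ∨ ∀ a ∈ A, ∀ b ∈ A, adj a b) :
    Fac p A := by
  classical
  have key : ∀ j, ∃ F < 96, j ∉ A → fmN F j = false ∧ ∀ a ∈ A, fmN F a = true := by
    intro j
    rcases h with rfl | h
    · exact ⟨0, by norm_num, fun hj => absurd (Set.mem_univ j) hj⟩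
    obtain ⟨F, hF, h1⟩ := sub_of_clique A.toFinset.toList (by simpa using h)
    have h2 := ridge_tabB
    simp only [allN_iff, anyN_iff, Bool.and_eq_true, Bool.or_eq_true, Bool.not_eq_true',
      Nat.beq_eq] at h2
    obtain ⟨F', hF', h3, h4⟩ := h2 F hF j j.2
    refine ⟨F', hF', fun hj => ⟨h3, fun a ha => ?_⟩⟩
    have h5 : ∀ t < 4, fv F t ∈ A → fmN F' (fv F t) = true := fun t ht hA =>
      (h4 t ht).resolve_left fun e => hj (by rwa [show j = fv F t from Fin.ext e.symm])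
    rcases fm_tab hF (h1 a (by simpa using ha)) with rfl | rfl | rfl | rfl
    exacts [h5 0 (by norm_num) ha, h5 1 (by norm_num) ha, h5 2 (by norm_num) ha,
      h5 3 (by norm_num) ha]
  choose F hF hk using key
  have hle : ∀ j i, fl (F j) (p i) ≤ fcN (F j) := by
    intro j i
    cases hb : fmN (F j) i
    · exact ((fac_tab (hF j) i).2 hb).le
    · exact ((fac_tab (hF j) i).1 hb).le
  refine ⟨∑ j ∈ Finset.univ.filter (· ∉ A), fl (F j),
    ∑ j ∈ Finset.univ.filter (· ∉ A), (fcN (F j) : ℝ), fun i => ?_, fun i => ⟨fun hi => ?_, ?_⟩⟩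
  · rw [LinearMap.sum_apply]
    exact Finset.sum_le_sum fun j _ => hle j i
  · rw [LinearMap.sum_apply]
    exact Finset.sum_congr rfl fun j hj =>
      (fac_tab (hF j) i).1 ((hk j (Finset.mem_filter.1 hj).2).2 i hi)
  · intro hi
    by_contra hA
    rw [LinearMap.sum_apply] at hi
    exact (Finset.sum_lt_sum (fun j _ => hle j i) ⟨i, by simpa using hA,
      (fac_tab (hF i) i).2 (hk i hA).1⟩).ne hi

/-- combinatorial symmetries of the index set -/
def Sym (π : Fin 24 → Fin 24) : Prop :=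
  Function.Bijective π ∧ ∀ a b, adj (π a) (π b) ↔ adj a b

lemma Sym.fac {π : Fin 24 → Fin 24} (h : Sym π) (A : Set (Fin 24)) :
    Fac p A ↔ Fac p (π '' A) := by
  constructor
  · intro hA
    refine fac_of_clique ((clique_of_fac hA).imp (fun e => ?_) fun e => ?_)
    · rw [e, Set.image_univ, h.1.2.range_eq]
    · rintro _ ⟨a, ha, rfl⟩ _ ⟨b, hb, rfl⟩
      exact (h.2 a b).2 (e a ha b hb)
  · intro hA
    refine fac_of_clique ((clique_of_fac hA).imp (fun e => ?_) fun e a ha b hb => ?_)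
    · refine Set.eq_univ_of_forall fun a => ?_
      obtain ⟨b, hb, e2⟩ : π a ∈ π '' A := e ▸ Set.mem_univ _
      rwa [← h.1.1 e2]
    · exact (h.2 a b).1 (e _ ⟨a, ha, rfl⟩ _ ⟨b, hb, rfl⟩)

lemma sym_hh (k : Fin 16) : Sym (hh k) := by
  have h := hh_tabB
  simp only [allN_iff, Bool.and_eq_true, Bool.or_eq_true, Bool.not_eq_true', Nat.beq_eq,
    beq_iff_eq] at h
  refine ⟨Finite.injective_iff_bijective.1 fun a b e => ?_, fun a b => ?_⟩
  · rcases (h k k.2 a a.2 b b.2).1 with h1 | h1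
    · have : hhN k a = hhN k b := congrArg Fin.val e
      rw [this, Nat.beq_refl] at h1
      exact absurd h1 (by simp)
    · exact Fin.ext h1
  · simp only [adj, hh, (h k k.2 a a.2 b b.2).2]

lemma sym_mulT (k : Fin 24) : Sym (mulT k) := by
  have h := mulT_tabB
  simp only [allN_iff, Bool.and_eq_true, Bool.or_eq_true, Bool.not_eq_true', Nat.beq_eq,
    beq_iff_eq] at h
  refine ⟨Finite.injective_iff_bijective.1 fun a b e => ?_, fun a b => ?_⟩
  · rcases (h k k.2 a a.2 b b.2).1 with h1 | h1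
    · have : mulN k a = mulN k b := congrArg Fin.val e
      rw [this, Nat.beq_refl] at h1
      exact absurd h1 (by simp)
    · exact Fin.ext h1
  · simp only [adj, mulT, (h k k.2 a a.2 b b.2).2]

end Pool.Agent.H568Z.Orb
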