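import Mathlib
import Pool.Agent.H568Z.OrbFace

set_option autoImplicit false

namespace Pool.Agent.H568Z.Orb

def sg (k : Fin 16) : ℤ := if k.val < 8 then 1 else -1

lemma C_tab (i j : Fin 24) :
    ∑ k : Fin 16, sg k * cB i j k = 8 * s0N i * s0N j + s1N i * s1N j := by
  have h := C_tabB
  simp only [allN_iff, decide_eq_true_eq] at h
  rw [← h i i.2 j j.2]
  simp [Fin.sum_univ_succ, sg]
  ring

def tau : Fin 8 → Fin 24 := ![10, 8, 6, 3, 2, 1, 18, 14]

lemma tau_tab : ∀ i : Fin 24, ∑ y, s0N (mulT (tau y) i) = s1N i ∧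
    ∑ y, s1N (mulT (tau y) i) = 8 * s0N i + 2 * s1N i := by decide +kernel

lemma s0_tab : ∀ j : Fin 24, s0N j = (if j = 0 then 1 else 0) - (if j = 16 then 1 else 0) := by
  decide +kernel

def c8 : Fin 6 → Fin 24 := ![0, 1, 2, 3, 4, 6]

def m8 : Fin 6 → Fin 24 → ℤ := fun k i => 4 * s0N (mulT (c8 k) i) - s1N (mulT (c8 k) i)

def c4 : Fin 4 → Fin 24 := ![0, 1, 3, 7]

def m4 : Fin 4 → Fin 24 → ℤ := fun k i => 2 * s0N (mulT (c4 k) i) + s1N (mulT (c4 k) i)

lemma m8_tab : (fun k => m8 k 0) = ![4, -1, -1, -1, 0, -1] ∧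
    (fun k => m8 k 1) = ![-1, -1, 0, 0, -1, -1] ∧ (fun k => m8 k 2) = ![-1, 0, -1, -1, 1, 0] ∧
    (fun k => m8 k 3) = ![-1, 0, -1, 1, -1, 4] ∧ (fun k => m8 k 4) = ![0, 1, -1, -1, -4, 1] ∧
    (fun k => m8 k 6) = ![-1, -1, 0, 4, 1, 1] ∧ (fun k => m8 k 8) = ![-1, 1, 4, 0, 1, -1] ∧
    (fun k => m8 k 10) = ![-1, 4, 1, -1, -1, 0] := by decide +kernel

lemma m4_tab : (fun k => m4 k 0) = ![2, 1, 1, 0] ∧ (fun k => m4 k 16) = ![-2, -1, -1, 0] ∧
    (fun k => m4 k 1) = ![1, 1, 0, -1] ∧ (fun k => m4 k 7) = ![0, -1, -1, -2] ∧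
    (fun k => m4 k 8) = ![1, -1, 0, -1] ∧ (fun k => m4 k 2) = ![1, 0, 1, -1] ∧
    (fun k => m4 k 6) = ![1, 1, 2, 1] := by decide +kernel

theorem no_sym (q : Fin 24 → Fin 4 → ℝ) (hq : Function.Injective q) (hf : Fac q {0, 7})
    (hT : ∀ π, Sym π → ∃ T : (Fin 4 → ℝ) →ᵃ[ℝ] (Fin 4 → ℝ), ∀ i, T (q i) = q (π i)) : False := by
  let b : Fin 5 → Fin 24 → ℝ := Fin.cons (fun _ => 1) fun k i => q i k
  let W : Submodule ℝ (Fin 24 → ℝ) := Submodule.span ℝ (Set.range b)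
  have h1W : (fun _ => 1 : Fin 24 → ℝ) ∈ W := Submodule.subset_span ⟨0, rfl⟩
  have hcW : ∀ k : Fin 4, (fun i => q i k) ∈ W := fun k => Submodule.subset_span ⟨k.succ, rfl⟩
  have aff : ∀ (ℓ : (Fin 4 → ℝ) →ₗ[ℝ] ℝ) (c : ℝ), (fun i => ℓ (q i) + c) ∈ W := by
    intro ℓ c
    have : (fun i => ℓ (q i) + c) = ∑ k : Fin 4, (ℓ fun j => if k = j then 1 else 0) •
        (fun i => q i k) + c • (fun _ => 1 : Fin 24 → ℝ) := by
      funext i
      rw [LinearMap.pi_apply_eq_sum_univ ℓ (q i)]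
      simp [Finset.sum_apply, mul_comm]
    rw [this]
    exact W.add_mem (W.sum_mem fun k _ => W.smul_mem _ (hcW k)) (W.smul_mem _ h1W)
  have inv : ∀ π, Sym π → ∀ φ ∈ W, (fun i => φ (π i)) ∈ W := by
    intro π hπ φ hφ
    obtain ⟨T, hT⟩ := hT π hπ
    have : W ≤ W.comap (LinearMap.funLeft ℝ ℝ π) := by
      refine Submodule.span_le.2 ?_
      rintro _ ⟨k, rfl⟩
      refine Fin.cases h1W (fun k => ?_) k
      have h2 := aff ((LinearMap.proj k).comp T.linear) (T 0 k)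
      show (fun i => q (π i) k) ∈ W
      convert h2 using 2 with i
      have h3 := congrFun T.decomp (q i)
      simp only [Pi.add_apply] at h3
      simp [← hT, h3]
    exact this hφ
  have six : ∀ u : Fin 6 → Fin 24 → ℝ, (∀ k, u k ∈ W) → ∃ c : Fin 6 → ℝ,
      (∀ i, ∑ k, c k * u k i = 0) ∧ ∃ k, c k ≠ 0 := by
    intro u hu
    have hn : ¬ LinearIndependent ℝ (fun k => (⟨u k, hu k⟩ : W)) := by
      intro h
      have h1 := h.fintype_card_le_finrank
      have h2 : Module.finrank ℝ W ≤ Fintype.card (Fin 5) := finrank_range_le_card b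
      simp only [Fintype.card_fin] at h1 h2
      omega
    obtain ⟨c, hc, hk⟩ := Fintype.not_linearIndependent_iff.1 hn
    refine ⟨c, fun i => ?_, hk⟩
    have := congrFun (congrArg Subtype.val hc) i
    simpa [Finset.sum_apply] using this
  obtain ⟨k0, hk0⟩ : ∃ k, q 0 k ≠ q 16 k := Function.ne_iff.1 fun h => absurd (hq h) (by decide)
  obtain ⟨A, B, hA, hψ⟩ : ∃ A B : ℝ, A ≠ 0 ∧
      (fun i : Fin 24 => A * (s0N i : ℝ) + B * (s1N i : ℝ)) ∈ W := by
    refine ⟨8 * (q 0 k0 - q 16 k0), ∑ j : Fin 24, (s1N j : ℝ) * q j k0,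
      mul_ne_zero (by norm_num) (sub_ne_zero.2 hk0), ?_⟩
    have h1 := W.sum_mem (t := Finset.univ) fun k _ =>
      W.smul_mem (sg k : ℝ) (inv _ (sym_hh k) _ (hcW k0))
    convert h1 using 1
    ext i
    have h2 : ∀ k : Fin 16, q (hh k i) k0 = ∑ j : Fin 24, (cB i j k : ℝ) * q j k0 := by
      intro k
      rw [Finset.sum_eq_single (hh k i)]
      · simp [cB, hh]
      · intro j _ hj
        have : (hhN k i).beq j = false := by
          rw [Bool.eq_false_iff, ne_eq, Nat.beq_eq]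
          exact fun e => hj (Fin.ext e.symm)
        simp [cB, this]
      · simp
    have h3 : ∑ j : Fin 24, (s0N j : ℝ) * q j k0 = q 0 k0 - q 16 k0 := by
      simp [s0_tab, sub_mul, Finset.sum_sub_distrib]
    simp only [Finset.sum_apply, Pi.smul_apply, smul_eq_mul, h2, Finset.mul_sum]
    rw [Finset.sum_comm, ← h3, Finset.mul_sum, Finset.sum_mul, Finset.sum_mul,
      ← Finset.sum_add_distrib]
    refine Finset.sum_congr rfl fun j _ => ?_
    have h4 : ∑ k : Fin 16, (sg k : ℝ) * cB i j k = 8 * s0N i * s0N j + s1N i * s1N j := by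
      exact_mod_cast C_tab i j
    simp only [← mul_assoc]
    rw [← Finset.sum_mul, h4]
    ring
  have hAB : A = 2 * B := by
    by_contra hne
    have h1 := W.smul_mem (A - 2 * B)⁻¹ (W.sub_mem (W.smul_mem 4 hψ)
      (W.sum_mem (t := Finset.univ) fun y _ => inv _ (sym_mulT (tau y)) _ hψ))
    have h2 : (fun i : Fin 24 => ((4 * s0N i - s1N i : ℤ) : ℝ)) ∈ W := by
      convert h1 using 1
      ext i
      have e0 : ∑ y, (s0N (mulT (tau y) i) : ℝ) = s1N i := by exact_mod_cast (tau_tab i).1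
      have e1 : ∑ y, (s1N (mulT (tau y) i) : ℝ) = 8 * s0N i + 2 * s1N i := by
        exact_mod_cast (tau_tab i).2
      simp only [Pi.smul_apply, Pi.sub_apply, Finset.sum_apply, smul_eq_mul,
        Finset.sum_add_distrib, ← Finset.mul_sum, e0, e1]
      have := sub_ne_zero.2 hne
      push_cast
      field_simp
      ring
    obtain ⟨c, hc, k, hk⟩ := six (fun k i => (m8 k i : ℝ)) fun k => inv _ (sym_mulT (c8 k)) _ h2
    obtain ⟨t0, t1, t2, t3, t4, t6, t8, t10⟩ := m8_tab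
    have g0 := hc 0
    have g1 := hc 1
    have g2 := hc 2
    have g3 := hc 3
    have g4 := hc 4
    have g6 := hc 6
    have g8 := hc 8
    have g10 := hc 10
    simp [Fin.sum_univ_succ, congrFun t0, congrFun t1, congrFun t2, congrFun t3, congrFun t4,
      congrFun t6, congrFun t8, congrFun t10] at g0 g1 g2 g3 g4 g6 g8 g10
    apply hk
    fin_cases k <;> simp <;> linarith
  have hB : B ≠ 0 := fun h => hA (by rw [hAB, h, mul_zero])
  have h2 : (fun i : Fin 24 => ((2 * s0N i + s1N i : ℤ) : ℝ)) ∈ W := by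
    convert W.smul_mem B⁻¹ hψ using 1
    ext i
    simp only [Pi.smul_apply, smul_eq_mul, hAB]
    push_cast
    field_simp
  obtain ⟨ℓ, c0, hl1, hl2⟩ := hf
  have l0 := (hl2 0).1 (by simp)
  have l7 := (hl2 7).1 (by simp)
  have l1 : ℓ (q 1) < c0 := (hl1 1).lt_of_ne fun h => absurd ((hl2 1).2 h) (by decide)
  have l8 := hl1 8
  obtain ⟨c, hc, k, hk⟩ := six (Fin.cons (fun i => ℓ (q i) + 0) (Fin.cons (fun _ => 1)
    fun k i => (m4 k i : ℝ))) (fun k => Fin.cases (aff ℓ 0) (fun k => Fin.cases h1W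
      (fun k => inv _ (sym_mulT (c4 k)) _ h2) k) k)
  obtain ⟨t0, t16, t1, t7, t8, t2, t6⟩ := m4_tab
  have g0 := hc 0
  have g16 := hc 16
  have g1 := hc 1
  have g7 := hc 7
  have g8 := hc 8
  have g2 := hc 2
  have g6 := hc 6
  simp only [Fin.sum_univ_succ, Fin.cons_zero, Fin.cons_succ, congrFun t0, congrFun t16,
    congrFun t1, congrFun t7, congrFun t8, congrFun t2, congrFun t6] at g0 g16 g1 g7 g8 g2 g6
  simp at g0 g16 g1 g7 g8 g2 g6
  have hc0 : c 0 = 0 := by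
    have : c 0 * (ℓ (q 0) + ℓ (q 7) - ℓ (q 1) - ℓ (q 8)) = 0 := by linarith
    exact (mul_eq_zero.1 this).resolve_right (by linarith)
  rw [hc0] at g0 g16 g1 g7 g8 g2 g6
  apply hk
  fin_cases k <;> simp <;> linarith

end Pool.Agent.H568Z.Orb
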