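import Mathlib

set_option autoImplicit false

namespace Pool.Agent.H568Z.Toric

open MvPolynomial

/-- The real cone spanned by the integer vectors `u ρ`, `ρ ∈ σ`: all non-negative real
combinations of them. -/
def cone {n r : ℕ} (u : Fin r → Fin n → ℤ) (σ : Finset (Fin r)) : Set (Fin n → ℝ) :=
  {x | ∃ c : Fin r → ℝ, (∀ ρ, 0 ≤ c ρ) ∧ (∀ ρ, ρ ∉ σ → c ρ = 0) ∧
    ∀ i, x i = ∑ ρ, c ρ * (u ρ i : ℝ)}

/-- A complete simplicial fan in `ℝ ^ n` (lattice `ℤ ^ n`) with `r` rays. The ray `ρ` has the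
primitive generator `u ρ`, and a cone of the fan is recorded as the set of its rays. -/
structure CompleteSimplicialFan (n r : ℕ) where
  /-- the ray generators -/
  u : Fin r → Fin n → ℤ
  /-- the cones of the fan, each given by the set of its rays -/
  cones : Set (Finset (Fin r))
  primitive : ∀ ρ, Finset.univ.gcd (u ρ) = 1
  ray_mem : ∀ ρ, {ρ} ∈ cones
  face_mem : ∀ σ ∈ cones, ∀ τ ⊆ σ, τ ∈ cones
  simplicial : ∀ σ ∈ cones, LinearIndepOn ℝ (fun ρ i => (u ρ i : ℝ)) (σ : Set (Fin r))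
  inter : ∀ σ ∈ cones, ∀ τ ∈ cones, cone u σ ∩ cone u τ = cone u (σ ∩ τ)
  complete : ∀ x : Fin n → ℝ, ∃ σ ∈ cones, x ∈ cone u σ

namespace CompleteSimplicialFan

variable {n r : ℕ} (P : CompleteSimplicialFan n r)

/-- The principal torus-invariant divisors `∑ ⟨m, u ρ⟩ D ρ`, `m ∈ ℤ ^ n`. -/
def principal : AddSubgroup (Fin r → ℤ) where
  carrier := {a | ∃ m : Fin n → ℤ, ∀ ρ, a ρ = ∑ i, m i * P.u ρ i}
  zero_mem' := ⟨0, by simp⟩
  add_mem' := by
    rintro a b ⟨m, hm⟩ ⟨m', hm'⟩
    exact ⟨m + m', fun ρ => by simp [hm, hm', add_mul, Finset.sum_add_distrib]⟩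
  neg_mem' := by
    rintro a ⟨m, hm⟩
    exact ⟨-m, fun ρ => by simp [hm]⟩

/-- The class group: torus-invariant Weil divisors modulo principal ones. -/
abbrev Cl : Type := (Fin r → ℤ) ⧸ P.principal

/-- The degree of the variable `x ρ`: the class of the divisor `D ρ`. -/
def deg (ρ : Fin r) : P.Cl := QuotientAddGroup.mk (Pi.single ρ 1)

/-- The component of degree `α` of the Cox ring `ℂ[x ρ]`. -/
noncomputable def piece (α : P.Cl) : Submodule ℂ (MvPolynomial (Fin r) ℂ) :=
  weightedHomogeneousSubmodule ℂ P.deg α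

/-- The irrelevant ideal, generated by the products of the variables of the rays outside a cone. -/
noncomputable def irrelevant : Ideal (MvPolynomial (Fin r) ℂ) :=
  Ideal.span {f | ∃ σ ∈ P.cones, f = ∏ ρ ∈ σᶜ, X ρ}

/-- The polynomials `F i` do not vanish simultaneously on the toric variety: their common zeros
in `ℂ ^ r` lie in the zero set of the irrelevant ideal. -/
def NoCommonZero {k : ℕ} (F : Fin k → MvPolynomial (Fin r) ℂ) : Prop :=
  ∀ x : Fin r → ℂ, (∀ i, eval x (F i) = 0) → ∀ b ∈ P.irrelevant, eval x b = 0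

/-- The critical degree: the sum of the degrees minus the anticanonical class. -/
def critical {k : ℕ} (α : Fin k → P.Cl) : P.Cl := ∑ i, α i - ∑ ρ, P.deg ρ

/-- The dimension of `S_ω / I_ω`, where `I_ω = I ∩ S_ω`. -/
noncomputable def codim (I : Ideal (MvPolynomial (Fin r) ℂ)) (ω : P.Cl) : ℕ :=
  Module.finrank ℂ (P.piece ω ⧸ (I.restrictScalars ℂ).comap (P.piece ω).subtype)

end CompleteSimplicialFan

end Pool.Agent.H568Z.Toric
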