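import Pool.Agent.H568Z.ToricDefs

set_option autoImplicit false

namespace Pool.Agent.H568Z.Toric

open MvPolynomial

def hu : Fin 4 → Fin 2 → ℤ := ![![1, 0], ![0, 1], ![-1, 1], ![0, -1]]

def hcones : Set (Finset (Fin 4)) := {σ | (0 ∉ σ ∨ 2 ∉ σ) ∧ (1 ∉ σ ∨ 3 ∉ σ)}

lemma mem_cone_hu (σ : Finset (Fin 4)) (x : Fin 2 → ℝ) :
    x ∈ cone hu σ ↔ ∃ c : Fin 4 → ℝ, (∀ ρ, 0 ≤ c ρ) ∧ (∀ ρ, ρ ∉ σ → c ρ = 0) ∧
      x 0 = c 0 - c 2 ∧ x 1 = c 1 + c 2 - c 3 := by
  unfold cone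
  simp only [Set.mem_setOf_eq, Fin.forall_fin_two, Fin.sum_univ_four, hu]
  refine exists_congr fun c => and_congr_right fun _ => and_congr_right fun _ => ?_
  simp only [Matrix.cons_val_zero, Matrix.cons_val_one, Matrix.cons_val]
  push_cast
  constructor <;> rintro ⟨h1, h2⟩ <;> constructor <;> linarith

def hirz : CompleteSimplicialFan 2 4 where
  u := hu
  cones := hcones
  primitive := by decide
  ray_mem := by
    intro ρ
    fin_cases ρ <;> simp [hcones]
  face_mem := by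
    rintro σ ⟨h1, h2⟩ τ hτ
    exact ⟨h1.imp (fun h h' => h (hτ h')) (fun h h' => h (hτ h')),
      h2.imp (fun h h' => h (hτ h')) (fun h h' => h (hτ h'))⟩
  simplicial := by
    rintro σ ⟨h1, h2⟩
    rw [linearIndepOn_finset_iff]
    intro f hf
    let g : Fin 4 → ℝ := fun ρ => if ρ ∈ σ then f ρ else 0
    have hg : ∑ ρ, g ρ • (fun i => (hu ρ i : ℝ)) = 0 := by
      rw [← hf, ← Finset.sum_subset (Finset.subset_univ σ)]
      · exact Finset.sum_congr rfl fun ρ hρ => by simp [g, hρ]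
      · intro ρ _ hρ
        simp [g, hρ]
    have e0 := congrFun hg 0
    have e1 := congrFun hg 1
    simp [Fin.sum_univ_four, hu] at e0 e1
    have z : ∀ ρ, ρ ∉ σ → g ρ = 0 := fun ρ hρ => by simp [g, hρ]
    have hall : ∀ ρ, g ρ = 0 := by
      have a : g 0 = 0 ∧ g 2 = 0 := by
        rcases h1 with h | h
        · have := z _ h
          constructor <;> linarith
        · have := z _ h
          constructor <;> linarith
      have b : g 1 = 0 ∧ g 3 = 0 := by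
        rcases h2 with h | h
        · have := z _ h
          constructor <;> linarith [a.2]
        · have := z _ h
          constructor <;> linarith [a.2]
      intro ρ
      fin_cases ρ
      exacts [a.1, b.1, a.2, b.2]
    intro ρ hρ
    simpa [g, hρ] using hall ρ
  inter := by
    rintro σ ⟨h1, h2⟩ τ ⟨h3, h4⟩
    ext x
    simp only [Set.mem_inter_iff, mem_cone_hu]
    constructor
    · rintro ⟨⟨c, hc, hz, e0, e1⟩, ⟨d, hd, hw, f0, f1⟩⟩
      have a : c 0 = d 0 ∧ c 2 = d 2 := by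
        have := hc 0; have := hc 2; have := hd 0; have := hd 2
        rcases h1 with h | h <;> rcases h3 with h' | h' <;>
          (have := hz _ h; have := hw _ h'; constructor <;> linarith)
      have b : c 1 = d 1 ∧ c 3 = d 3 := by
        have := hc 1; have := hc 3; have := hd 1; have := hd 3; have := a.2
        rcases h2 with h | h <;> rcases h4 with h' | h' <;>
          (have := hz _ h; have := hw _ h'; constructor <;> linarith)
      have hcd : ∀ ρ, c ρ = d ρ := by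
        intro ρ
        fin_cases ρ
        exacts [a.1, b.1, a.2, b.2]
      refine ⟨c, hc, fun ρ hρ => ?_, e0, e1⟩
      rw [Finset.mem_inter, not_and_or] at hρ
      rcases hρ with h | h
      · exact hz _ h
      · rw [hcd]; exact hw _ h
    · rintro ⟨c, hc, hz, e0, e1⟩
      exact ⟨⟨c, hc, fun ρ h => hz ρ fun h' => h (Finset.mem_inter.1 h').1, e0, e1⟩,
        ⟨c, hc, fun ρ h => hz ρ fun h' => h (Finset.mem_inter.1 h').2, e0, e1⟩⟩
  complete := by
    intro x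
    simp only [mem_cone_hu]
    rcases le_total 0 (x 0) with h0 | h0
    · rcases le_total 0 (x 1) with h1 | h1
      · refine ⟨{0, 1}, by simp [hcones], ![x 0, x 1, 0, 0], ?_, ?_, by simp, by simp⟩
        · intro ρ; fin_cases ρ <;> simp [h0, h1]
        · intro ρ; fin_cases ρ <;> simp
      · refine ⟨{0, 3}, by simp [hcones], ![x 0, 0, 0, -x 1], ?_, ?_, by simp, by simp⟩
        · intro ρ; fin_cases ρ <;> simp [h0, h1]
        · intro ρ; fin_cases ρ <;> simp
    · rcases le_total 0 (x 0 + x 1) with h1 | h1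
      · refine ⟨{1, 2}, by simp [hcones], ![0, x 0 + x 1, -x 0, 0], ?_, ?_, by simp, by simp⟩
        · intro ρ; fin_cases ρ <;> simp [h0, h1]
        · intro ρ; fin_cases ρ <;> simp
      · refine ⟨{2, 3}, by simp [hcones], ![0, 0, -x 0, -(x 0 + x 1)], ?_, ?_, by simp, by simp⟩
        · intro ρ; fin_cases ρ <;> simp [h0]; linarith
        · intro ρ; fin_cases ρ <;> simp

lemma mk_eq_mk (a b : Fin 4 → ℤ) :
    (QuotientAddGroup.mk a : hirz.Cl) = QuotientAddGroup.mk b ↔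
      a 0 + a 2 + a 3 = b 0 + b 2 + b 3 ∧ a 1 + a 3 = b 1 + b 3 := by
  rw [QuotientAddGroup.eq]
  change (∃ m : Fin 2 → ℤ, ∀ ρ, (-a + b) ρ = ∑ i, m i * hu ρ i) ↔ _
  simp only [Fin.forall_fin_succ, Fin.sum_univ_two, hu]
  simp
  constructor
  · rintro ⟨m, h0, h1, h2, h3⟩
    constructor <;> linarith
  · rintro ⟨h1, h2⟩
    refine ⟨![b 0 - a 0, b 1 - a 1], ?_, ?_, ?_, ?_⟩ <;> simp <;> linarith

lemma weight_eq (d : Fin 4 →₀ ℕ) :
    Finsupp.weight hirz.deg d = (QuotientAddGroup.mk (fun ρ => (d ρ : ℤ)) : hirz.Cl) := by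
  rw [Finsupp.weight_apply, Finsupp.sum_fintype _ _ (by simp)]
  simp only [CompleteSimplicialFan.deg]
  have : (fun ρ => (d ρ : ℤ)) = ∑ ρ, d ρ • (Pi.single ρ 1 : Fin 4 → ℤ) := by
    funext ρ
    fin_cases ρ <;> simp [Fin.sum_univ_four]
  rw [this]
  simp only [← QuotientAddGroup.mk'_apply, map_sum, map_nsmul]

noncomputable def F : Fin 3 → MvPolynomial (Fin 4) ℂ :=
  ![X 0 * X 1 ^ 2, X 0 * X 3 + X 1 * X 2 ^ 2, X 2 * X 3]

def al : Fin 3 → hirz.Cl :=
  ![QuotientAddGroup.mk ![1, 2, 0, 0], QuotientAddGroup.mk ![1, 0, 0, 1],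
    QuotientAddGroup.mk ![1, 0, 0, 1]]

noncomputable def ex (a b c d : ℕ) : Fin 4 →₀ ℕ := Finsupp.equivFunOnFinite.symm ![a, b, c, d]

@[simp] lemma ex0 (a b c d : ℕ) : ex a b c d 0 = a := rfl
@[simp] lemma ex1 (a b c d : ℕ) : ex a b c d 1 = b := rfl
@[simp] lemma ex2 (a b c d : ℕ) : ex a b c d 2 = c := rfl
@[simp] lemma ex3 (a b c d : ℕ) : ex a b c d 3 = d := rfl

lemma ex_eq (e : Fin 4 →₀ ℕ) : e = ex (e 0) (e 1) (e 2) (e 3) := by
  ext ρ
  fin_cases ρ <;> rfl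

lemma ex_inj (a b c d a' b' c' d' : ℕ) :
    ex a b c d = ex a' b' c' d' ↔ a = a' ∧ b = b' ∧ c = c' ∧ d = d' := by
  constructor
  · intro h
    exact ⟨congrArg (· 0) h, congrArg (· 1) h, congrArg (· 2) h, congrArg (· 3) h⟩
  · rintro ⟨rfl, rfl, rfl, rfl⟩
    rfl

lemma mono_ex (a b c d : ℕ) :
    (monomial (ex a b c d) 1 : MvPolynomial (Fin 4) ℂ) = X 0 ^ a * X 1 ^ b * X 2 ^ c * X 3 ^ d := by
  rw [monomial_eq, Finsupp.prod_fintype _ _ (by simp)]
  simp [Fin.prod_univ_four]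

lemma mono_mem (a b c d : ℕ) (v : Fin 4 → ℤ) (h1 : (a : ℤ) + c + d = v 0 + v 2 + v 3)
    (h2 : (b : ℤ) + d = v 1 + v 3) :
    (monomial (ex a b c d) 1 : MvPolynomial (Fin 4) ℂ) ∈ hirz.piece (QuotientAddGroup.mk v) := by
  apply isWeightedHomogeneous_monomial
  rw [weight_eq, mk_eq_mk]
  exact ⟨by simpa using h1, by simpa using h2⟩

lemma F0_eq : F 0 = monomial (ex 1 2 0 0) 1 := by simp [F, mono_ex]
lemma F1_eq : F 1 = monomial (ex 1 0 0 1) 1 + monomial (ex 0 1 2 0) 1 := by simp [F, mono_ex]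
lemma F2_eq : F 2 = monomial (ex 0 0 1 1) 1 := by simp [F, mono_ex]

lemma F_mem (i : Fin 3) : F i ∈ hirz.piece (al i) := by
  fin_cases i
  · change F 0 ∈ _
    rw [F0_eq]
    exact mono_mem _ _ _ _ _ (by simp) (by simp)
  · change F 1 ∈ _
    rw [F1_eq]
    exact Submodule.add_mem _ (mono_mem _ _ _ _ _ (by simp) (by simp))
      (mono_mem _ _ _ _ _ (by simp) (by simp))
  · change F 2 ∈ _
    rw [F2_eq]
    exact mono_mem _ _ _ _ _ (by simp) (by simp)

lemma gen_mem (σ : Finset (Fin 4)) (hσ : σ ∈ hcones) :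
    (∏ ρ ∈ σᶜ, X ρ : MvPolynomial (Fin 4) ℂ) ∈ hirz.irrelevant :=
  Ideal.subset_span ⟨σ, hσ, rfl⟩

lemma F_irr (i : Fin 3) : F i ∈ hirz.irrelevant := by
  have h01 : (X 0 * X 1 : MvPolynomial (Fin 4) ℂ) ∈ hirz.irrelevant := by
    have := gen_mem {2, 3} (by simp [hcones])
    rwa [show ({2, 3} : Finset (Fin 4))ᶜ = {0, 1} by decide, Finset.prod_pair (by decide)] at this
  have h03 : (X 0 * X 3 : MvPolynomial (Fin 4) ℂ) ∈ hirz.irrelevant := by
    have := gen_mem {1, 2} (by simp [hcones])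
    rwa [show ({1, 2} : Finset (Fin 4))ᶜ = {0, 3} by decide, Finset.prod_pair (by decide)] at this
  have h12 : (X 1 * X 2 : MvPolynomial (Fin 4) ℂ) ∈ hirz.irrelevant := by
    have := gen_mem {0, 3} (by simp [hcones])
    rwa [show ({0, 3} : Finset (Fin 4))ᶜ = {1, 2} by decide, Finset.prod_pair (by decide)] at this
  have h23 : (X 2 * X 3 : MvPolynomial (Fin 4) ℂ) ∈ hirz.irrelevant := by
    have := gen_mem {0, 1} (by simp [hcones])
    rwa [show ({0, 1} : Finset (Fin 4))ᶜ = {2, 3} by decide, Finset.prod_pair (by decide)] at this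
  fin_cases i
  · have : F 0 = (X 0 * X 1) * X 1 := by simp [F]; ring
    change F 0 ∈ _
    rw [this]
    exact Ideal.mul_mem_right _ _ h01
  · have : F 1 = X 0 * X 3 + (X 1 * X 2) * X 2 := by simp [F]; ring
    change F 1 ∈ _
    rw [this]
    exact Ideal.add_mem _ h03 (Ideal.mul_mem_right _ _ h12)
  · exact h23

lemma F_ne (i : Fin 3) : F i ≠ 0 := by
  intro h
  have := congrArg (eval (fun _ => (1 : ℂ))) h
  fin_cases i <;> simp [F] at this

lemma noCommon : hirz.NoCommonZero F := by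
  intro x hx b hb
  have h0 := hx 0
  have h1 := hx 1
  have h2 := hx 2
  simp [F] at h0 h1 h2
  have key : (x 0 = 0 ∧ x 2 = 0) ∨ (x 1 = 0 ∧ x 3 = 0) := by
    rcases h0 with h0 | h0 <;> rcases h2 with h2 | h2
    · exact Or.inl ⟨h0, h2⟩
    · rw [h0, h2] at h1
      simp at h1
      rcases h1 with h1 | h1
      · exact Or.inr ⟨h1, h2⟩
      · exact Or.inl ⟨h0, h1⟩
    · rw [h0, h2] at h1
      simp at h1
      rcases h1 with h1 | h1
      · exact Or.inl ⟨h1, h2⟩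
      · exact Or.inr ⟨h0, h1⟩
    · exact Or.inr ⟨h0, h2⟩
  have : hirz.irrelevant ≤ RingHom.ker (eval x) := by
    refine Ideal.span_le.2 ?_
    rintro _ ⟨σ, ⟨c1, c2⟩, rfl⟩
    change eval x _ = 0
    rw [map_prod]
    simp only [eval_X]
    rcases key with ⟨k1, k2⟩ | ⟨k1, k2⟩
    · rcases c1 with c | c
      · exact Finset.prod_eq_zero (Finset.mem_compl.2 c) k1
      · exact Finset.prod_eq_zero (Finset.mem_compl.2 c) k2
    · rcases c2 with c | c
      · exact Finset.prod_eq_zero (Finset.mem_compl.2 c) k1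
      · exact Finset.prod_eq_zero (Finset.mem_compl.2 c) k2
  exact this hb

lemma crit_eq : hirz.critical al = QuotientAddGroup.mk ![0, 0, 0, 2] := by
  simp only [CompleteSimplicialFan.critical, CompleteSimplicialFan.deg, al, Fin.sum_univ_three,
    Fin.sum_univ_four]
  simp only [Matrix.cons_val_zero, Matrix.cons_val_one, Matrix.cons_val,
    ← QuotientAddGroup.mk_add, ← QuotientAddGroup.mk_sub]
  rw [mk_eq_mk]
  simp

/-- the two functionals -/
noncomputable def phi : MvPolynomial (Fin 4) ℂ →ₗ[ℂ] ℂ × ℂ :=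
  LinearMap.prod (lcoeff ℂ (ex 0 0 0 2)) (lcoeff ℂ (ex 1 1 0 1) - lcoeff ℂ (ex 0 2 2 0))

lemma phi_apply (f : MvPolynomial (Fin 4) ℂ) :
    phi f = (coeff (ex 0 0 0 2) f, coeff (ex 1 1 0 1) f - coeff (ex 0 2 2 0) f) := rfl

lemma ex_le (a b c d a' b' c' d' : ℕ) :
    ex a b c d ≤ ex a' b' c' d' ↔ a ≤ a' ∧ b ≤ b' ∧ c ≤ c' ∧ d ≤ d' := by
  constructor
  · intro h
    exact ⟨h 0, h 1, h 2, h 3⟩
  · rintro ⟨h0, h1, h2, h3⟩ ρ
    fin_cases ρ
    exacts [h0, h1, h2, h3]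

lemma ex_sub (a b c d a' b' c' d' : ℕ) :
    ex a b c d - ex a' b' c' d' = ex (a - a') (b - b') (c - c') (d - d') := by
  ext ρ
  fin_cases ρ <;> rfl

lemma phi_I (f : MvPolynomial (Fin 4) ℂ) (hf : f ∈ Ideal.span (Set.range F)) : phi f = 0 := by
  classical
  obtain ⟨g, rfl⟩ := Ideal.mem_span_range_iff_exists_fun.1 hf
  rw [Fin.sum_univ_three, F0_eq, F1_eq, F2_eq, phi_apply]
  simp [mul_add, coeff_mul_monomial', ex_le, ex_sub]

lemma ker_sub (f : MvPolynomial (Fin 4) ℂ) (hf : f ∈ hirz.piece (hirz.critical al)) :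
    f - ((phi f).1 • monomial (ex 0 0 0 2) 1 + (phi f).2 • monomial (ex 1 1 0 1) 1) ∈
      Ideal.span (Set.range F) := by
  classical
  let L : MvPolynomial (Fin 4) ℂ →ₗ[ℂ] MvPolynomial (Fin 4) ℂ :=
    LinearMap.id - (((LinearMap.fst ℂ ℂ ℂ).comp phi).smulRight (monomial (ex 0 0 0 2) 1) +
      ((LinearMap.snd ℂ ℂ ℂ).comp phi).smulRight (monomial (ex 1 1 0 1) 1))
  have hL : ∀ g, L g = g - ((phi g).1 • monomial (ex 0 0 0 2) 1 +
      (phi g).2 • monomial (ex 1 1 0 1) 1) := fun g => rfl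
  rw [← hL]
  have hF : ∀ i, F i ∈ Ideal.span (Set.range F) := fun i => Ideal.subset_span ⟨i, rfl⟩
  rw [f.as_sum, map_sum]
  refine Ideal.sum_mem _ fun e he => ?_
  have hw : Finsupp.weight hirz.deg e = hirz.critical al := hf (mem_support_iff.1 he)
  rw [weight_eq, crit_eq, mk_eq_mk] at hw
  simp at hw
  have : (monomial e (coeff e f) : MvPolynomial (Fin 4) ℂ) = coeff e f • monomial e 1 := by
    simp [smul_monomial]
  rw [this, map_smul]
  refine Submodule.smul_of_tower_mem _ _ ?_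
  rw [ex_eq e, hL]
  obtain ⟨w1, w2⟩ := hw
  generalize e 0 = a at *
  generalize e 1 = b at *
  generalize e 2 = c at *
  generalize e 3 = d at *
  have hcases : (a = 2 ∧ b = 2 ∧ c = 0 ∧ d = 0) ∨ (a = 1 ∧ b = 2 ∧ c = 1 ∧ d = 0) ∨
      (a = 0 ∧ b = 2 ∧ c = 2 ∧ d = 0) ∨ (a = 1 ∧ b = 1 ∧ c = 0 ∧ d = 1) ∨
      (a = 0 ∧ b = 1 ∧ c = 1 ∧ d = 1) ∨ (a = 0 ∧ b = 0 ∧ c = 0 ∧ d = 2) := by omega
  rcases hcases with ⟨rfl, rfl, rfl, rfl⟩ | ⟨rfl, rfl, rfl, rfl⟩ | ⟨rfl, rfl, rfl, rfl⟩ |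
    ⟨rfl, rfl, rfl, rfl⟩ | ⟨rfl, rfl, rfl, rfl⟩ | ⟨rfl, rfl, rfl, rfl⟩
  · convert Ideal.mul_mem_left _ (X 0) (hF 0) using 1
    simp [phi_apply, coeff_monomial, ex_inj]
    simp [mono_ex, F]; ring
  · convert Ideal.mul_mem_left _ (X 2) (hF 0) using 1
    simp [phi_apply, coeff_monomial, ex_inj]
    simp [mono_ex, F]; ring
  · convert Ideal.mul_mem_left _ (X 1) (hF 1) using 1
    simp [phi_apply, coeff_monomial, ex_inj]
    simp [mono_ex, F]; ring
  · simp [phi_apply, coeff_monomial, ex_inj]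
  · convert Ideal.mul_mem_left _ (X 1) (hF 2) using 1
    simp [phi_apply, coeff_monomial, ex_inj]
    simp [mono_ex, F]; ring
  · simp [phi_apply, coeff_monomial, ex_inj]

lemma codim_eq : hirz.codim (Ideal.span (Set.range F)) (hirz.critical al) = 2 := by
  classical
  let ψ : hirz.piece (hirz.critical al) →ₗ[ℂ] ℂ × ℂ := phi.comp (Submodule.subtype _)
  have hker : ((Ideal.span (Set.range F)).restrictScalars ℂ).comap
      (hirz.piece (hirz.critical al)).subtype = LinearMap.ker ψ := by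
    ext f
    constructor
    · intro hf
      exact phi_I _ hf
    · intro hf
      have h0 : phi (f : MvPolynomial (Fin 4) ℂ) = 0 := hf
      have := ker_sub f f.2
      rw [h0] at this
      simpa using this
  have hsurj : Function.Surjective ψ := by
    rintro ⟨a, b⟩
    have m1 : (monomial (ex 0 0 0 2) 1 : MvPolynomial (Fin 4) ℂ) ∈ hirz.piece (hirz.critical al) := by
      rw [crit_eq]; exact mono_mem _ _ _ _ _ (by simp) (by simp)
    have m2 : (monomial (ex 1 1 0 1) 1 : MvPolynomial (Fin 4) ℂ) ∈ hirz.piece (hirz.critical al) := by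
      rw [crit_eq]; exact mono_mem _ _ _ _ _ (by simp) (by simp)
    refine ⟨a • ⟨_, m1⟩ + b • ⟨_, m2⟩, ?_⟩
    simp [ψ, phi_apply, coeff_monomial, ex_inj]
  unfold CompleteSimplicialFan.codim
  rw [hker, (ψ.quotKerEquivOfSurjective hsurj).finrank_eq]
  simp

end Pool.Agent.H568Z.Toric
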